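import Pool.Agent.Q71.SP.Ful

/-!
# Isomorphisms of symplectic Lie algebras
-/

set_option linter.unusedSectionVars false

namespace Pool.Agent.Q71.SP

open Module Finset Function Pool.Agent.TH118.SG Pool.Agent.TH125.Gal Pool.Agent.Y127.G
  Pool.Agent.Y127.C

section lin

variable {K : Type} [Field K] [CharZero K] {T : Type} [AddCommGroup T] [Module K T]
  {B : T →ₗ[K] T →ₗ[K] K} (hsy : ∀ x y, B x y = -B y x) (hnd : ∀ x, (∀ y, B x y = 0) → x = 0)

include hsy hnd in
theorem exists_diag {A : Module.End K T} (hA : Skew B A) (hA0 : A ≠ 0) : ∃ v, B (A v) v ≠ 0 := by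
  by_contra hcon
  push Not at hcon
  apply hA0
  apply LinearMap.ext
  intro w
  refine hnd _ fun v => ?_
  have h2 := hcon (v + w)
  simp only [map_add, LinearMap.add_apply] at h2
  rw [hcon v, hcon w] at h2
  have h3 := hA v w
  rw [hsy v (A w)] at h3
  have h4 : (2 : K) * B (A w) v = 0 := by linear_combination h2 - h3
  exact (mul_eq_zero.1 h4).resolve_left two_ne_zero

theorem br_br {X : Module.End K T} (hX : Skew B X) (u : T) :
    br X (br X (oo B (-1) u u)) =
      (2 : K) • oo B (-1) (X (X u)) u + (2 : K) • oo B (-1) (X u) (X u) := by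
  rw [br_oo hX, br_add, br_oo hX, br_oo hX, sp_swap (X (X u)) u]
  module

include hsy in
/-- operators for which `ad ^ 2` has rank one -/
theorem rank_one_core {X : Module.End K T} (hX : Skew B X) {u : T} (hb : B (X u) u ≠ 0) {κ : K}
    (h : br X (br X (oo B (-1) u u)) = κ • X) :
    ∃ c : K, X = c • oo B (-1) (X u) (X u) := by
  rw [br_br hX] at h
  have ev : ∀ x, (2 : K) • (B u x • X (X u) + B (X (X u)) x • u) +
      (2 : K) • ((2 * B (X u) x) • X u) = κ • X x := by
    intro x
    have h1 := LinearMap.congr_fun h x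
    rw [LinearMap.add_apply, LinearMap.smul_apply, LinearMap.smul_apply, LinearMap.smul_apply,
      sp_apply, sp_apply] at h1
    rw [← h1]
    module
  obtain ⟨b, hbb⟩ : ∃ b, b = B (X u) u := ⟨_, rfl⟩
  obtain ⟨d, hd⟩ : ∃ d, d = B (X (X u)) (X u) := ⟨_, rfl⟩
  rw [← hbb] at hb
  have hXu : X u ≠ 0 := by
    intro h0
    rw [h0, map_zero, LinearMap.zero_apply] at hbb
    exact hb hbb
  have b1 : B (X (X u)) u = 0 := by
    have h1 := hX (X u) u
    rw [alt_self hsy, add_zero] at h1
    exact h1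
  have b2 : B u (X u) = -b := by rw [hsy, hbb]
  have hκ : κ = 4 * b := by
    have h1 := ev u
    rw [alt_self hsy, b1, ← hbb] at h1
    have h2 : (4 * b - κ) • X u = 0 := by
      rw [sub_smul, ← h1]
      module
    have h3 := (smul_eq_zero.1 h2).resolve_right hXu
    linear_combination -h3
  have h4 : d • u = (3 * b) • X (X u) := by
    have h1 := ev (X u)
    rw [b2, ← hd, alt_self hsy, hκ] at h1
    have h2 : (2 : K) • (d • u - (3 * b) • X (X u)) = 0 := by
      have h3 : (2 : K) • (d • u - (3 * b) • X (X u)) = ((2 : K) • (-b • X (X u) + d • u) +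
          (2 : K) • ((2 * (0 : K)) • X u)) - (4 * b) • X (X u) := by module
      rw [h3, h1, sub_self]
    exact sub_eq_zero.1 ((smul_eq_zero.1 h2).resolve_left two_ne_zero)
  have hd0 : d = 0 := by
    have h1 := congrArg (fun y => B y (X u)) h4
    simp only [map_smul, LinearMap.smul_apply, smul_eq_mul] at h1
    rw [b2, ← hd] at h1
    have h2 : (4 * b) * d = 0 := by linear_combination -h1
    exact (mul_eq_zero.1 h2).resolve_left (mul_ne_zero (by norm_num) hb)
  have hXX : X (X u) = 0 := by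
    rw [hd0, zero_smul] at h4
    exact (smul_eq_zero.1 h4.symm).resolve_left (mul_ne_zero (by norm_num) hb)
  refine ⟨b⁻¹ / 2, ?_⟩
  apply LinearMap.ext
  intro x
  have h5 := ev x
  rw [hXX, hκ, map_zero, LinearMap.zero_apply, smul_zero, zero_smul, add_zero, smul_zero,
    zero_add] at h5
  have h6 : X x = (4 * b)⁻¹ • ((4 * b) • X x) := by
    rw [smul_smul, inv_mul_cancel₀ (mul_ne_zero (by norm_num) hb), one_smul]
  rw [h6, ← h5, LinearMap.smul_apply, sp_apply, ← add_smul, smul_smul, smul_smul, smul_smul]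
  congr 1
  field_simp
  ring

include hsy hnd in
theorem oo_right_zero {p y : T} (hp : p ≠ 0) (h : oo B (-1) y p = 0) : y = 0 := by
  obtain ⟨q, hq⟩ := exists_one hsy hnd hp
  have hpq : B p q = -1 := by rw [hsy, hq]
  have h1 := LinearMap.congr_fun h q
  rw [sp_apply, hpq, LinearMap.zero_apply] at h1
  have h2 : y = B y q • p := by
    have h3 : B y q • p - y = 0 := by rw [← h1]; module
    exact (sub_eq_zero.1 h3).symm
  rw [h2, oo_smul_left] at h
  have h3 := (smul_eq_zero.1 h).resolve_right (sp_ne hsy hnd hp)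
  rw [h2, h3, zero_smul]

/-- a common line -/
theorem line_of_eq {a b : T} (ha : a ≠ 0) {k : K} (hsy : ∀ x y, B x y = -B y x)
    (hnd : ∀ x, (∀ y, B x y = 0) → x = 0) (h : oo B (-1) a a = k • oo B (-1) b b) :
    ∃ e : K, a = e • b := by
  obtain ⟨y, hy⟩ := exists_one hsy hnd ha
  have hay : B a y = -1 := by rw [hsy, hy]
  have h1 := LinearMap.congr_fun h y
  rw [LinearMap.smul_apply, sp_apply, sp_apply, hay] at h1
  refine ⟨-(k * B b y), ?_⟩
  have h2 : (-2 : K) • a = (2 * (k * B b y)) • b := by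
    have h3 : (-2 : K) • a = (-1 : K) • a + (-1 : K) • a := by module
    rw [h3, h1]
    module
  have h4 : a = (-2 : K)⁻¹ • ((-2 : K) • a) := by
    rw [smul_smul, inv_mul_cancel₀ (by norm_num), one_smul]
  rw [h4, h2, smul_smul]
  congr 1
  ring

/-- proportional everywhere -/
theorem exists_scalar {T' : Type} [AddCommGroup T'] [Module K T'] {f ψ : T →ₗ[K] T'}
    (hψ : Function.Injective ψ) (h : ∀ x, ∃ e : K, f x = e • ψ x) : ∃ e : K, ∀ x, f x = e • ψ x := by
  by_cases hT : ∃ x0 : T, x0 ≠ 0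
  · obtain ⟨x0, hx0⟩ := hT
    obtain ⟨e, he⟩ := h x0
    refine ⟨e, fun x => ?_⟩
    by_cases hx : ∃ l : K, x = l • x0
    · obtain ⟨l, rfl⟩ := hx
      rw [map_smul, map_smul, he, smul_comm]
    · obtain ⟨e', he'⟩ := h x
      obtain ⟨e'', he''⟩ := h (x + x0)
      rw [map_add, map_add, he, he'] at he''
      have h1 : ψ ((e' - e'') • x + (e - e'') • x0) = 0 := by
        rw [map_add, map_smul, map_smul]
        have h2 : (e' - e'') • ψ x + (e - e'') • ψ x0 = (e' • ψ x + e • ψ x0) -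
            e'' • (ψ x + ψ x0) := by module
        rw [h2, he'', sub_self]
      have h2 : (e' - e'') • x + (e - e'') • x0 = 0 := hψ (by rw [h1, map_zero])
      have h3 : e' - e'' = 0 := by
        by_contra h0
        apply hx
        refine ⟨-((e' - e'')⁻¹ * (e - e'')), ?_⟩
        have h4 : x = (e' - e'')⁻¹ • ((e' - e'') • x) := by
          rw [smul_smul, inv_mul_cancel₀ h0, one_smul]
        rw [h4, eq_neg_of_add_eq_zero_left h2]
        module
      rw [h3, zero_smul, zero_add] at h2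
      have h4 := (smul_eq_zero.1 h2).resolve_right hx0
      rw [he', sub_eq_zero.1 h3, sub_eq_zero.1 h4]
  · push Not at hT
    exact ⟨0, fun x => by rw [hT x, map_zero, map_zero, smul_zero]⟩

end lin

section psi

variable {K : Type} [Field K] [CharZero K] {T T' : Type} [AddCommGroup T] [Module K T]
  [AddCommGroup T'] [Module K T'] {B : T →ₗ[K] T →ₗ[K] K} {B' : T' →ₗ[K] T' →ₗ[K] K}
  (hsy : ∀ x y, B x y = -B y x) (hnd : ∀ x, (∀ y, B x y = 0) → x = 0)
  (hsy' : ∀ x y, B' x y = -B' y x) (hnd' : ∀ x, (∀ y, B' x y = 0) → x = 0)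
  {Φ : Module.End K T →ₗ[K] Module.End K T'}
  (hΦs : ∀ X, Skew B X → Skew B' (Φ X))
  (hΦb : ∀ X Y, Skew B X → Skew B Y → Φ (br X Y) = br (Φ X) (Φ Y))
  (hΦi : ∀ X, Skew B X → Φ X = 0 → X = 0)
  (hΦo : ∀ Y, Skew B' Y → ∃ X, Skew B X ∧ Φ X = Y)

include hsy hnd hsy' hnd' hΦs hΦb hΦi hΦo

/-- operators of rank one go to operators of rank one -/
theorem rank_one_of {x : T} (hx : x ≠ 0) : ∃ (c : K) (x' : T'), c ≠ 0 ∧ x' ≠ 0 ∧
    Φ (oo B (-1) x x) = c • oo B' (-1) x' x' := by
  have hX := sp_skew hsy x x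
  have hX0 : Φ (oo B (-1) x x) ≠ 0 := fun h => sp_ne hsy hnd hx (hΦi _ hX h)
  obtain ⟨u', hu'⟩ := exists_diag hsy' hnd' (hΦs _ hX) hX0
  obtain ⟨Y, hY, hYu⟩ := hΦo _ (sp_skew hsy' u' u')
  have h1 : br Y (oo B (-1) x x) = (2 : K) • oo B (-1) (Y x) x := by
    rw [br_oo hY, sp_swap (Y x) x]
    module
  have h2 : br (oo B (-1) x x) Y = (-2 : K) • oo B (-1) (Y x) x := by
    have h3 : br (oo B (-1) x x) Y = -br Y (oo B (-1) x x) := by
      rw [br, br]
      abel
    rw [h3, h1]
    module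
  have h3 : br (oo B (-1) x x) (br (oo B (-1) x x) Y) = (-4 * B x (Y x)) • oo B (-1) x x := by
    rw [h2, br_smul, br_oo hX]
    have e1 : oo B (-1) x x x = 0 := by
      rw [sp_apply, alt_self hsy]
      module
    have e2 : oo B (-1) x x (Y x) = (2 * B x (Y x)) • x := by
      rw [sp_apply]
      module
    rw [e1, e2, oo_smul_left, oo_zero_right, add_zero, smul_smul]
    congr 1
    ring
  have h4 : br (Φ (oo B (-1) x x)) (br (Φ (oo B (-1) x x)) (oo B' (-1) u' u')) =
      (-4 * B x (Y x)) • Φ (oo B (-1) x x) := by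
    have hbrY : Skew B (br (oo B (-1) x x) Y) := by
      rw [h2]
      intro a b
      have h5 := sp_skew hsy (Y x) x a b
      simp only [LinearMap.smul_apply, map_smul, smul_eq_mul]
      linear_combination (-2) * h5
    rw [← hYu, ← hΦb _ _ hX hY, ← hΦb _ _ hX hbrY, h3, map_smul]
  obtain ⟨c, hc⟩ := rank_one_core hsy' (hΦs _ hX) hu' h4
  refine ⟨c, Φ (oo B (-1) x x) u', ?_, ?_, hc⟩
  · rintro rfl
    rw [zero_smul] at hc
    exact hX0 hc
  · intro h0
    rw [h0, map_zero, LinearMap.zero_apply] at hu'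
    exact hu' rfl

/-- **Isomorphisms of symplectic Lie algebras** come from linear maps. -/
theorem exists_psi_sp {p : T} (hp : p ≠ 0) : ∃ (c : K) (ψ : T →ₗ[K] T'), c ≠ 0 ∧
    Function.Injective ψ ∧ ∀ x, Φ (oo B (-1) x x) = c • oo B' (-1) (ψ x) (ψ x) := by
  obtain ⟨c, p', hc, hp', hE⟩ := rank_one_of hsy hnd hsy' hnd' hΦs hΦb hΦi hΦo hp
  obtain ⟨q, hq⟩ := exists_one hsy hnd hp
  -- skew operators which send `p` to `x`
  let lft : T →ₗ[K] Module.End K T :=
    { toFun := fun x => oo B (-1) x q - (B x p / 2) • oo B (-1) q q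
      map_add' := fun x y => by
        simp only [oo_add_left, map_add, LinearMap.add_apply]
        module
      map_smul' := fun a x => by
        simp only [oo_smul_left, map_smul, LinearMap.smul_apply, smul_eq_mul, RingHom.id_apply]
        module }
  have hlft : ∀ x, lft x = oo B (-1) x q - (B x p / 2) • oo B (-1) q q := fun _ => rfl
  have hlp : ∀ x, lft x p = x := by
    intro x
    rw [hlft, LinearMap.sub_apply, LinearMap.smul_apply, sp_apply, sp_apply, hq]
    module
  have hls : ∀ x, Skew B (lft x) := by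
    intro x a b
    have h1 := sp_skew hsy x q a b
    have h2 := sp_skew hsy q q a b
    rw [hlft]
    simp only [LinearMap.sub_apply, LinearMap.smul_apply, map_sub, map_smul, smul_eq_mul]
    linear_combination h1 - (B x p / 2) * h2
  -- skew operators which kill `p`
  have hkill : ∀ X, Skew B X → X p = 0 → Φ X p' = 0 := by
    intro X hX h0
    have h1 : br X (oo B (-1) p p) = 0 := by
      rw [br_oo hX, h0, oo_zero_left, oo_zero_right, add_zero]
    have h2 := hΦb X _ hX (sp_skew hsy p p)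
    rw [h1, map_zero, hE, br_smul, br_oo (hΦs X hX), sp_swap (Φ X p') p', ← two_smul K,
      smul_smul] at h2
    have h3 := (smul_eq_zero.1 h2.symm).resolve_left (mul_ne_zero hc two_ne_zero)
    exact oo_right_zero hsy' hnd' hp' h3
  let ψ : T →ₗ[K] T' := (LinearMap.applyₗ p' : Module.End K T' →ₗ[K] T') ∘ₗ Φ ∘ₗ lft
  have hψ : ∀ x, ψ x = Φ (lft x) p' := fun _ => rfl
  have hψX : ∀ X, Skew B X → ψ (X p) = Φ X p' := by
    intro X hX
    have h1 : Skew B (X - lft (X p)) := by
      intro a b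
      have h2 := hX a b
      have h3 := hls (X p) a b
      simp only [LinearMap.sub_apply, map_sub]
      linear_combination h2 - h3
    have h2 := hkill _ h1 (by rw [LinearMap.sub_apply, hlp, sub_self])
    rw [map_sub, LinearMap.sub_apply, sub_eq_zero] at h2
    rw [hψ, h2]
  have hinj : Function.Injective ψ := by
    rw [← LinearMap.ker_eq_bot, LinearMap.ker_eq_bot']
    intro x hx
    rw [hψ] at hx
    have h1 : br (Φ (lft x)) (Φ (oo B (-1) p p)) = 0 := by
      rw [hE, br_smul, br_oo (hΦs _ (hls x)), hx, oo_zero_left, oo_zero_right, add_zero,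
        smul_zero]
    rw [← hΦb _ _ (hls x) (sp_skew hsy p p)] at h1
    have hs : Skew B (br (lft x) (oo B (-1) p p)) := by
      rw [br_oo (hls x)]
      intro a b
      have h2 := sp_skew hsy (lft x p) p a b
      have h3 := sp_skew hsy p (lft x p) a b
      simp only [LinearMap.add_apply, map_add]
      linear_combination h2 + h3
    have h2 := hΦi _ hs h1
    rw [br_oo (hls x), sp_swap (lft x p) p, ← two_smul K] at h2
    have h3 := (smul_eq_zero.1 h2).resolve_left two_ne_zero
    have h4 := oo_right_zero hsy hnd hp h3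
    rwa [hlp] at h4
  refine ⟨c, ψ, hc, hinj, ?_⟩
  -- the formula for `x` which are not orthogonal to `p`
  have key : ∀ x, B x p ≠ 0 → Φ (oo B (-1) x x) = c • oo B' (-1) (ψ x) (ψ x) := by
    intro x hxp
    have hx0 : x ≠ 0 := by
      rintro rfl
      rw [map_zero, LinearMap.zero_apply] at hxp
      exact hxp rfl
    obtain ⟨k, hk⟩ : ∃ k, k = (2 * B x p)⁻¹ := ⟨_, rfl⟩
    obtain ⟨c', δ, hc', hδ, hΦx⟩ := rank_one_of hsy hnd hsy' hnd' hΦs hΦb hΦi hΦo hx0
    have hX : Skew B (k • oo B (-1) x x) := by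
      intro a b
      have h1 := sp_skew hsy x x a b
      simp only [LinearMap.smul_apply, map_smul, smul_eq_mul]
      linear_combination k * h1
    have hXp : (k • oo B (-1) x x) p = x := by
      rw [LinearMap.smul_apply, sp_apply, ← two_smul K, smul_smul, smul_smul, hk]
      have h1 : (2 * (B x) p)⁻¹ * (2 * (B x) p) = 1 :=
        inv_mul_cancel₀ (mul_ne_zero two_ne_zero hxp)
      rw [show (2 * (B x) p)⁻¹ * 2 * (B x) p = (2 * (B x) p)⁻¹ * (2 * (B x) p) by ring, h1,
        one_smul]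
    have hXx : (k • oo B (-1) x x) x = 0 := by
      rw [LinearMap.smul_apply, sp_apply, alt_self hsy]
      module
    have hX' := hΦs _ hX
    have h1 := br_br hX p
    rw [hXp, hXx, oo_zero_left, smul_zero, zero_add] at h1
    have hs : Skew B (br (k • oo B (-1) x x) (oo B (-1) p p)) := by
      rw [br_oo hX]
      intro a b
      have h2 := sp_skew hsy ((k • oo B (-1) x x) p) p a b
      have h3 := sp_skew hsy p ((k • oo B (-1) x x) p) a b
      simp only [LinearMap.add_apply, map_add]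
      linear_combination h2 + h3
    have h2 := congrArg Φ h1
    rw [hΦb _ _ hX hs, hΦb _ _ hX (sp_skew hsy p p), hE, br_smul, br_smul, br_br hX',
      ← hψX _ hX, hXp, map_smul Φ (2 : K) (oo B (-1) x x)] at h2
    have h3 : Φ (k • oo B (-1) x x) (ψ x) = 0 := by
      have h4 : ψ x = Φ (k • oo B (-1) x x) p' := by rw [← hψX _ hX, hXp]
      rw [h4, map_smul, hΦx]
      simp only [LinearMap.smul_apply, sp_apply, map_smul, map_add, alt_self hsy']
      module
    rw [h3, oo_zero_left, smul_zero, zero_add, smul_smul] at h2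
    have h5 : (2 : K) • (Φ (oo B (-1) x x) - c • oo B' (-1) (ψ x) (ψ x)) = 0 := by
      rw [smul_sub, ← h2, smul_smul, mul_comm c 2, sub_self]
    exact sub_eq_zero.1 ((smul_eq_zero.1 h5).resolve_left two_ne_zero)
  intro x
  by_cases hxp : B x p = 0
  · have h1 := key (x + q) (by rw [map_add, LinearMap.add_apply, hxp, hq, zero_add]; exact one_ne_zero)
    have h2 := key (x - q) (by
      rw [map_sub, LinearMap.sub_apply, hxp, hq, zero_sub]
      exact neg_ne_zero.2 one_ne_zero)
    have h3 := key q (by rw [hq]; exact one_ne_zero)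
    have e1 : oo B (-1) (x + q) (x + q) + oo B (-1) (x - q) (x - q) =
        (2 : K) • oo B (-1) x x + (2 : K) • oo B (-1) q q := by
      rw [oo_add_left, oo_add_right, oo_add_right, oo_sub_left, oo_sub_right, oo_sub_right]
      module
    have e2 : oo B' (-1) (ψ x + ψ q) (ψ x + ψ q) + oo B' (-1) (ψ x - ψ q) (ψ x - ψ q) =
        (2 : K) • oo B' (-1) (ψ x) (ψ x) + (2 : K) • oo B' (-1) (ψ q) (ψ q) := by
      rw [oo_add_left, oo_add_right, oo_add_right, oo_sub_left, oo_sub_right, oo_sub_right]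
      module
    have h4 := congrArg Φ e1
    rw [map_add, h1, h2, map_add, map_sub, ← smul_add, e2, map_add, map_smul, map_smul, h3] at h4
    have h5 : (2 : K) • (Φ (oo B (-1) x x) - c • oo B' (-1) (ψ x) (ψ x)) = 0 := by
      have h6 : (2 : K) • Φ (oo B (-1) x x) = c • ((2 : K) • oo B' (-1) (ψ x) (ψ x) +
          (2 : K) • oo B' (-1) (ψ q) (ψ q)) - (2 : K) • c • oo B' (-1) (ψ q) (ψ q) := by
        rw [h4]
        abel
      rw [smul_sub, h6]
      module
    exact sub_eq_zero.1 ((smul_eq_zero.1 h5).resolve_left two_ne_zero)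
  · exact key x hxp

end psi

section member

variable {K : Type} [Field K] [CharZero K] {Γ : Type} [Group Γ] {ι : Type}
  {N : ι → FRep K Γ} {t t' : ι} (o : SFul N t) (o' : SFul N t')

theorem SFul.mu_ne (γ : Γ) : o.μ γ ≠ 0 := by
  intro h0
  obtain ⟨q, hq⟩ := exists_one o.sy o.nd o.p0
  have h1 := o.eqv γ ((N t).ρ γ⁻¹ q) ((N t).ρ γ⁻¹ o.p)
  rw [FRep.inv_right, FRep.inv_right, h0, zero_mul, hq] at h1
  exact one_ne_zero h1

/-- conjugation of an operator of rank one -/
theorem SFul.cnj_oo (γ : Γ) (x : (N t).V) :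
    oo o.B (-1) ((N t).ρ γ x) ((N t).ρ γ x) =
      o.μ γ • ((N t).ρ γ ∘ₗ oo o.B (-1) x x ∘ₗ (N t).ρ γ⁻¹) := by
  apply LinearMap.ext
  intro y
  rw [LinearMap.smul_apply, LinearMap.comp_apply, LinearMap.comp_apply, sp_apply, sp_apply,
    map_add, map_smul, smul_add, smul_smul, ← o.eqv, FRep.inv_right]

include o o' in
theorem SFul.iso_of_not_good (hdim : finrank K (N t').V = finrank K (N t).V)
    (hng : ¬Good N t t') : IsoUpTo (N t') (N t) := by
  have h0 : ∀ D ∈ GG1 N, D t' = 0 → D t = 0 := by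
    intro D hD ha
    by_contra ht
    exact hng ⟨D, hD, ha, ht⟩
  have hng' : ¬Good N t' t := fun h => hng (o.good_symm o' h)
  have h0' : ∀ D ∈ GG1 N, D t = 0 → D t' = 0 := by
    intro D hD ha
    by_contra ht
    exact hng' ⟨D, hD, ha, ht⟩
  have hlift : ∀ X : Module.End K (N t').V, Skew o'.B X → ∃ D ∈ GG1 N, D t' = X := fun X hX =>
    skew_mem_sp (a := res (GG1 N) t') o'.sy o'.nd (fun x y => o'.full x y) hX
  have hlift' : ∀ X : Module.End K (N t).V, Skew o.B X → ∃ D ∈ GG1 N, D t = X := fun X hX =>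
    skew_mem_sp (a := res (GG1 N) t) o.sy o.nd (fun x y => o.full x y) hX
  let f : GG1 N →ₗ[K] Module.End K (N t').V :=
    (LinearMap.proj t' : (∀ i, (N i).V →ₗ[K] (N i).V) →ₗ[K] _) ∘ₗ (GG1 N).subtype
  let g : GG1 N →ₗ[K] Module.End K (N t).V :=
    (LinearMap.proj t : (∀ i, (N i).V →ₗ[K] (N i).V) →ₗ[K] _) ∘ₗ (GG1 N).subtype
  obtain ⟨Φ, hΦ⟩ := exists_factor f g fun x hx => h0 x.1 x.2 hx
  have hΦ' : ∀ D ∈ GG1 N, Φ (D t') = D t := fun D hD => hΦ ⟨D, hD⟩
  obtain ⟨c, ψ, hc, hψi, hψ⟩ := exists_psi_sp (Φ := Φ) o'.sy o'.nd o.sy o.nd (fun X hX => by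
      obtain ⟨D, hD, rfl⟩ := hlift X hX
      rw [hΦ' D hD]
      exact o.skew hD) (fun X Y hX hY => by
      obtain ⟨D, hD, rfl⟩ := hlift X hX
      obtain ⟨D', hD', rfl⟩ := hlift Y hY
      rw [hΦ' D hD, hΦ' D' hD', ← brk_eq_br, hΦ' _ (brk_mem1 (GG1_le hD) (GG1_le hD')),
        brk_eq_br]) (fun X hX hX0 => by
      obtain ⟨D, hD, rfl⟩ := hlift X hX
      rw [hΦ' D hD] at hX0
      exact h0' D hD hX0) (fun Y hY => by
      obtain ⟨D, hD, rfl⟩ := hlift' Y hY
      exact ⟨D t', o'.skew hD, hΦ' D hD⟩) o'.p0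
  have key : ∀ γ : Γ, ∃ e : K, ∀ x, (ψ ∘ₗ (N t').ρ γ) x = e • ((N t).ρ γ ∘ₗ ψ) x := by
    intro γ
    refine exists_scalar ?_ fun x => ?_
    · intro a b hab
      rw [LinearMap.comp_apply, LinearMap.comp_apply] at hab
      have h1 := congrArg ((N t).ρ γ⁻¹) hab
      rw [FRep.inv_left, FRep.inv_left] at h1
      exact hψi h1
    · by_cases hx : x = 0
      · exact ⟨0, by rw [hx, map_zero, map_zero, smul_zero]⟩
      · obtain ⟨D, hD, hDx⟩ := hlift _ (sp_skew o'.sy x x)
        have h1 := hΦ' _ (GG1_cnj hD γ)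
        have h2 : (cnj γ D t' : Module.End K (N t').V) =
            (N t').ρ γ ∘ₗ oo o'.B (-1) x x ∘ₗ (N t').ρ γ⁻¹ := by rw [← hDx]; rfl
        have h3 : D t = c • oo o.B (-1) (ψ x) (ψ x) := by rw [← hψ, ← hDx, hΦ' D hD]
        have h4 : (cnj γ D t : Module.End K (N t).V) =
            c • ((N t).ρ γ ∘ₗ oo o.B (-1) (ψ x) (ψ x) ∘ₗ (N t).ρ γ⁻¹) := by
          apply LinearMap.ext
          intro y
          rw [cnj_apply, h3, LinearMap.smul_apply, LinearMap.smul_apply, map_smul]
          rfl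
        have h5 : c • oo o.B (-1) (ψ ((N t').ρ γ x)) (ψ ((N t').ρ γ x)) =
            o'.μ γ • c • ((N t).ρ γ ∘ₗ oo o.B (-1) (ψ x) (ψ x) ∘ₗ (N t).ρ γ⁻¹) := by
          rw [← hψ, o'.cnj_oo, map_smul, ← h2, h1, h4]
        have h6 : oo o.B (-1) (ψ ((N t').ρ γ x)) (ψ ((N t').ρ γ x)) =
            (o'.μ γ * (o.μ γ)⁻¹) • oo o.B (-1) ((N t).ρ γ (ψ x)) ((N t).ρ γ (ψ x)) := by
          rw [o.cnj_oo, smul_smul, mul_assoc, inv_mul_cancel₀ (o.mu_ne γ), mul_one]
          rw [smul_comm] at h5
          exact smul_right_injective _ hc h5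
        have hne : ψ ((N t').ρ γ x) ≠ 0 := by
          intro h
          have h7 : (N t').ρ γ x = 0 := hψi (by rw [h, map_zero])
          have h8 := FRep.inv_left (N t') γ x
          rw [h7, map_zero] at h8
          exact hx h8.symm
        exact line_of_eq hne o.sy o.nd h6
  choose ε hε using key
  refine ⟨LinearMap.linearEquivOfInjective ψ hψi hdim, ε, fun γ x => ?_⟩
  rw [LinearMap.linearEquivOfInjective_apply, LinearMap.linearEquivOfInjective_apply]
  exact hε γ x

include o o' in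
/-- **Different members are independent**, if they are not isomorphic up to a twist. -/
theorem SFul.good_of_not_iso (h : ¬IsoUpTo (N t') (N t)) : Good N t t' := by
  by_contra hng
  rcases lt_trichotomy (finrank K (N t').V) (finrank K (N t).V) with h1 | h1 | h1
  · exact hng (o.good_of_alt (a := t') o'.toFrm o'.sy o'.nd h1)
  · exact h (o.iso_of_not_good o' h1 hng)
  · exact hng (o.good_symm o' (o'.good_of_alt (a := t) o.toFrm o.sy o.nd h1))

end member

end Pool.Agent.Q71.SP
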