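import Pool.Agent.Q71.SP.Mem
import Pool.Agent.Q71.SP.Iso
import Pool.Agent.Q71.TM.App

/-!
# Families of representations of orthogonal and symplectic type
-/

set_option linter.unusedSectionVars false

namespace Pool.Agent.Q71.SP

open Module Finset Function Pool.Agent.TH118.SG Pool.Agent.TH125.Gal Pool.Agent.Y127.G
  Pool.Agent.Y127.C

section mem

variable {K : Type} [Field K] [CharZero K] {Γ : Type} [Group Γ] {ι : Type}
  {N : ι → FRep K Γ} {t t' : ι}

/-- A member with a simple Lie algebra. -/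
structure Smp (N : ι → FRep K Γ) (t : ι) where
  S : Submodule K (Module.End K (N t).V)
  le : ∀ D ∈ GG1 N, D t ∈ S
  ne : ∃ X ∈ S, ∃ Y ∈ S, br X Y ≠ 0
  full : ∀ X ∈ S, ∃ D ∈ GG1 N, D t = X
  ideal : ∀ M : Submodule K (∀ i, (N i).V →ₗ[K] (N i).V), M ≤ GG1 N →
    (∀ D ∈ GG N, ∀ D' ∈ M, brk D D' ∈ M) → (∃ D ∈ M, D t ≠ 0) → ∀ X ∈ S, ∃ D ∈ M, D t = X

/-- orthogonal type -/
def ofFul (o : Ful N t) : Smp N t where
  S := SkewS o.B
  le := fun D hD => o.skew hD
  ne := by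
    obtain ⟨u, hu⟩ := Pool.Agent.Y127.G.exists_br_ne o.sy o.nd o.pp o.qq o.qp
      (by have := o.dim; omega)
    exact ⟨_, skew_one o.sy _ _, _, skew_one o.sy _ _, hu⟩
  full := fun X hX => skew_mem (a := res (GG1 N) t) o.sy o.nd (fun x y => o.full x y) hX
  ideal := fun M hM1 hMi hne X hX =>
    skew_mem (a := res M t) o.sy o.nd (fun x y => o.ideal hM1 hMi hne x y) hX

/-- symplectic type -/
def ofSFul (o : SFul N t) : Smp N t where
  S := SkewS o.B
  le := fun D hD => o.skew hD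
  ne := by
    obtain ⟨q, hq⟩ := o.exists_br_ne
    exact ⟨_, sp_skew o.sy _ _, _, sp_skew o.sy _ _, hq⟩
  full := fun X hX => skew_mem_sp (a := res (GG1 N) t) o.sy o.nd (fun x y => o.full x y) hX
  ideal := fun M hM1 hMi hne X hX =>
    skew_mem_sp (a := res M t) o.sy o.nd (fun x y => o.ideal hM1 hMi hne x y) hX

variable (o : Smp N t) (o' : Smp N t')

theorem Smp.good_all {a : ι} (h : Good N t a) {X : Module.End K (N t).V} (hX : X ∈ o.S) :
    ∃ D ∈ GG1 N, D a = 0 ∧ D t = X := by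
  obtain ⟨D0, hD0, ha, ht⟩ := h
  obtain ⟨D, hD, hDt⟩ := o.ideal (kil N {a}) (fun D hD => hD.1)
    (fun D hD D' hD' => kil_brk hD hD')
    ⟨D0, ⟨hD0, fun b hb => by rw [Set.mem_singleton_iff.1 hb]; exact ha⟩, ht⟩ X hX
  exact ⟨D, hD.1, hD.2 a rfl, hDt⟩

/-- **Goursat.** -/
theorem Smp.good_finset (S : Finset ι) (h : ∀ a ∈ S, Good N t a) {X : Module.End K (N t).V}
    (hX : X ∈ o.S) : ∃ D ∈ GG1 N, (∀ a ∈ S, D a = 0) ∧ D t = X := by
  classical
  induction S using Finset.induction_on generalizing X with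
  | empty =>
    obtain ⟨D, hD, hDt⟩ := o.full X hX
    exact ⟨D, hD, fun a ha => absurd ha (Finset.notMem_empty a), hDt⟩
  | insert b S hb ih =>
    obtain ⟨Y, hY, Y', hY', hne⟩ := o.ne
    obtain ⟨D, hD, hDS, hDt⟩ := ih (fun a ha => h a (Finset.mem_insert_of_mem ha)) hY
    obtain ⟨D', hD', hDb, hDt'⟩ := o.good_all (h b (Finset.mem_insert_self b S)) hY'
    have hm : brk D D' ∈ kil N ((insert b S : Finset ι) : Set ι) := by
      refine ⟨brk_mem1 (GG1_le hD) (GG1_le hD'), fun a ha => ?_⟩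
      rcases Finset.mem_insert.1 (Finset.mem_coe.1 ha) with rfl | ha
      · rw [brk_eq_br, hDb, br_zero_right]
      · rw [brk_eq_br, hDS a ha, br_zero_left]
    have hne : brk D D' t ≠ 0 := by
      rw [brk_eq_br, hDt, hDt']
      exact hne
    obtain ⟨D'', hD'', hDt''⟩ := o.ideal (kil N ((insert b S : Finset ι) : Set ι))
      (fun D hD => hD.1) (fun D hD D' hD' => kil_brk hD hD') ⟨brk D D', hm, hne⟩ X hX
    exact ⟨D'', hD''.1, fun a ha => hD''.2 a (Finset.mem_coe.2 ha), hDt''⟩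

include o o' in
/-- symmetry -/
theorem Smp.good_symm (h : Good N t' t) : Good N t t' := by
  by_contra hng
  have h0 : ∀ D ∈ GG1 N, D t' = 0 → D t = 0 := by
    intro D hD ha
    by_contra ht
    exact hng ⟨D, hD, ha, ht⟩
  obtain ⟨Y, hY, Y', -, hne⟩ := o.ne
  obtain ⟨D1, hD1, hD1t⟩ := o.full Y hY
  obtain ⟨D2, hD2, hD2t, hD2t'⟩ := o'.good_all h (o'.le D1 hD1)
  have h3 := h0 (D1 - D2) ((GG1 N).sub_mem hD1 hD2) (by rw [Pi.sub_apply, hD2t', sub_self])
  rw [Pi.sub_apply, hD2t, sub_zero, hD1t] at h3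
  rw [h3, br_zero_left] at hne
  exact hne rfl

end mem

variable {K : Type} [Field K] [CharZero K] [IsAlgClosed K] {Γ : Type} [Group Γ]

/-- A transvection, or a Frobenius element with the slopes `h + c`, `h - c` once each and `h`. -/
def SpFull (M : FRep K Γ) : Prop :=
  (∃ g : Γ, (M.ρ g - 1) ^ 2 = 0 ∧ finrank K (LinearMap.range (M.ρ g - 1)) = 1) ∨
  ∃ (v : Additive Kˣ →+ ℚ) (F : Γ) (h c : ℚ), c ≠ 0 ∧ K3Slopes v (M.ρ F) h c

/-- `U` is small in comparison with `M`, without forms -/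
def SpWit (M U : FRep K Γ) : Prop :=
  (∃ (g : Γ) (k : ℕ), (M.ρ g - 1) ^ 2 = 0 ∧ (U.ρ g - 1) ^ k = 0 ∧
    2 * (finrank K (LinearMap.range (U.ρ g - 1)) ^ 2 +
      2 * finrank K (LinearMap.range ((U.ρ g - 1) ^ 2)) * finrank K U.V) <
      finrank K (LinearMap.range (M.ρ g - 1)) * (finrank K (LinearMap.range (M.ρ g - 1)) + 1)) ∨
  (∃ (v : Additive Kˣ →+ ℚ) (F : Γ) (a₀ a₁ : ℚ) (m : ℕ), TopSlope v (M.ρ F) a₀ a₁ m ∧
    2 * gaps (slopes v (U.ρ F)) (a₁ - a₀) < m * (m + 1)) ∨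
  (∃ (v : Additive Kˣ →+ ℚ) (F : Γ) (h c : ℚ), c ≠ 0 ∧ K3Slopes v (M.ρ F) h c ∧
    gaps (slopes v (U.ρ F)) c + 2 < finrank K M.V) ∨
  2 * finrank K U.V ^ 2 < finrank K M.V * (finrank K M.V + 1)

/-- `U` is small in comparison with `M` -/
def SpSmall (M U : FRep K Γ) : Prop :=
  SpWit M U ∨ (HasForm 1 U ∧ finrank K U.V ≤ finrank K M.V) ∨
    (HasForm (-1) U ∧ finrank K U.V < finrank K M.V)

open Pool.Agent.Q71.TM

/-- A representation of orthogonal type (`e` holds) or of symplectic type (`e` does not hold). -/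
structure MRep (l : Loc K Γ) (e : Prop) (M : FRep K Γ) where
  B : M.V →ₗ[K] M.V →ₗ[K] K
  μ : Γ →* Kˣ
  eqv : ∀ g x y, B (M.ρ g x) (M.ρ g y) = (μ g : K) * B x y
  nd : ∀ x, (∀ y, B x y = 0) → x = 0
  si : SI M.ρ
  sy : e → ∀ x y, B x y = B y x
  orth : e → (finrank K M.V = 3 ∨ 5 ≤ finrank K M.V) ∧ LocRep M l
  alt : ¬e → ∀ x y, B x y = -B y x
  symp : ¬e → SpFull M

/-- `U` is small in comparison with `M`, for both types -/
def MSmall (l : Loc K Γ) (e : Prop) (M U : FRep K Γ) : Prop :=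
  (e → SmallR l (finrank K M.V) U) ∧ (¬e → SpSmall M U)

/-- `M` is of orthogonal type, `M'` is of symplectic type, and one of them is small in comparison with
the other one -/
def PairSmall (l : Loc K Γ) (M M' : FRep K Γ) : Prop :=
  LocSmall M' (finrank K M.V) l ∨ finrank K M'.V + 1 < finrank K M.V ∨
    SpWit M' M ∨ finrank K M.V ≤ finrank K M'.V

section

variable {ι : Type} {N : ι → FRep K Γ}

theorem exists_SFul {t : ι} {fr : Frm N t} (sy : ∀ x y, fr.B x y = -fr.B y x)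
    (nd : ∀ x, (∀ y, fr.B x y = 0) → x = 0) (si : SI (N t).ρ) (h : SpFull (N t)) :
    ∃ o : SFul N t, o.toFrm = fr := by
  rcases h with ⟨g, h1, h2⟩ | ⟨v, F, h, c, hc, hK⟩
  · exact exists_SFul_transv sy nd si h1 h2
  · exact exists_SFul_slopes sy nd si v F hc hK

theorem SFul.good_of_wit {t : ι} (o : SFul N t) {a : ι} (h : SpWit (N t) (N a)) :
    Good N t a := by
  rcases h with ⟨g, k, h1, h2, h3⟩ | ⟨v, F, a₀, a₁, m, h1, h2⟩ | ⟨v, F, h, c, hc, h1, h2⟩ | h
  · exact o.good_unip h1 h2 h3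
  · exact o.good_top v F h1 h2
  · exact o.good_gap v F hc h1 h2
  · refine o.good_of_small ?_
    have h4 := Finset.sum_range_id_mul_two (finrank K (N t).V + 1)
    rw [Nat.add_sub_cancel, mul_comm (finrank K (N t).V + 1)] at h4
    omega

end

variable {A : Type} [Ring A] [Algebra K A] [FiniteDimensional K A]

/-- **The main application.** -/
theorem kill_of_mdata {ι : Type} {m : ℕ} {T : ι → FRep K Γ} {M : Fin m → FRep K Γ}
    {χ : Γ →* Kˣ} {τ : Γ →* (A ≃ₐ[K] A)} {S : Set ι} (hS : S.Finite) (hgen : GenBy T M χ τ S)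
    {l : ι → Loc K Γ} {e : ι → Prop} (hT : ∀ j, MRep (l j) (e j) (T j))
    (hiso : ∀ i j, i ≠ j → (e i ↔ e j) → ¬IsoUpTo (T i) (T j)) {i : ι} (hi : i ∉ S)
    (h8 : ∀ j, j ≠ i → e i → e j → finrank K (T i).V = 8 → finrank K (T j).V = 8 →
      (l i).Same (l j))
    (hpair : ∀ i j, e i → ¬e j → PairSmall (l i) (T i) (T j))
    (hM : ∀ a, MSmall (l i) (e i) (T i) (M a)) (lam : Γ →* Kˣ)
    {R : Type} [Fintype R] [DecidableEq R]
    {h : MultilinearMap K (fun _ : R => (T i).V) A} (hh : Eqv (T i).ρ (algRep lam τ).ρ h)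
    {X : Module.End K (T i).V} (hX : Skew (hT i).B X) : Kill X h := by
  classical
  -- the characters of the forms
  have hκ : ∀ a, ∃ κ : Γ →* Kˣ,
      (e i → LocSmall (M a) (finrank K (T i).V) (l i) ∨
      (∃ B : (M a).V →ₗ[K] (M a).V →ₗ[K] K, (∀ x y, B x y = (1 : K) * B y x) ∧
        (∀ x, (∀ y, B x y = 0) → x = 0) ∧
        (∀ g x y, B ((M a).ρ g x) ((M a).ρ g y) = (κ g : K) * B x y) ∧
        finrank K (M a).V < finrank K (T i).V) ∨
      (∃ B : (M a).V →ₗ[K] (M a).V →ₗ[K] K, (∀ x y, B x y = (-1 : K) * B y x) ∧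
        (∀ x, (∀ y, B x y = 0) → x = 0) ∧
        (∀ g x y, B ((M a).ρ g x) ((M a).ρ g y) = (κ g : K) * B x y) ∧
        finrank K (M a).V + 1 < finrank K (T i).V)) ∧
      (¬e i → SpWit (T i) (M a) ∨
      (∃ B : (M a).V →ₗ[K] (M a).V →ₗ[K] K, (∀ x y, B x y = (1 : K) * B y x) ∧
        (∀ x, (∀ y, B x y = 0) → x = 0) ∧
        (∀ g x y, B ((M a).ρ g x) ((M a).ρ g y) = (κ g : K) * B x y) ∧
        finrank K (M a).V ≤ finrank K (T i).V) ∨
      (∃ B : (M a).V →ₗ[K] (M a).V →ₗ[K] K, (∀ x y, B x y = (-1 : K) * B y x) ∧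
        (∀ x, (∀ y, B x y = 0) → x = 0) ∧
        (∀ g x y, B ((M a).ρ g x) ((M a).ρ g y) = (κ g : K) * B x y) ∧
        finrank K (M a).V < finrank K (T i).V)) := by
    intro a
    by_cases hei : e i
    · rcases (hM a).1 hei with h1 | ⟨⟨μ, B, h1, h2, h3⟩, h4⟩ | ⟨⟨μ, B, h1, h2, h3⟩, h4⟩
      · exact ⟨1, fun _ => Or.inl h1, fun h => absurd hei h⟩
      · exact ⟨μ, fun _ => Or.inr (Or.inl ⟨B, h1, h2, h3, h4⟩), fun h => absurd hei h⟩
      · exact ⟨μ, fun _ => Or.inr (Or.inr ⟨B, h1, h2, h3, h4⟩), fun h => absurd hei h⟩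
    · rcases (hM a).2 hei with h1 | ⟨⟨μ, B, h1, h2, h3⟩, h4⟩ | ⟨⟨μ, B, h1, h2, h3⟩, h4⟩
      · exact ⟨1, fun h => absurd h hei, fun _ => Or.inl h1⟩
      · exact ⟨μ, fun h => absurd h hei, fun _ => Or.inr (Or.inl ⟨B, h1, h2, h3, h4⟩)⟩
      · exact ⟨μ, fun h => absurd h hei, fun _ => Or.inr (Or.inr ⟨B, h1, h2, h3, h4⟩)⟩
  choose κ hκ using hκ
  let N : Ix ι m → FRep K Γ := fam T M (fun j => (hT j).μ) κ χ lam τ
  let fr : ∀ j, Frm N (Ix.t j) := fun j => ⟨(hT j).B, fun g => ((hT j).μ g : K), (hT j).eqv,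
    Ix.mu j, line_finrank _, fun g x => rfl⟩
  have hoF : ∀ j, e j → ∃ o : Ful N (Ix.t j), o.toFrm = fr j := fun j hj =>
    loc_ful (N := N) (t := Ix.t j) (fr j) ((hT j).sy hj) (hT j).nd (hT j).si
      ((hT j).orth hj).1 ((hT j).orth hj).2
  have hoS : ∀ j, ¬e j → ∃ o : SFul N (Ix.t j), o.toFrm = fr j := fun j hj =>
    exists_SFul (N := N) (t := Ix.t j) ((hT j).alt hj) (hT j).nd (hT j).si ((hT j).symp hj)
  have hmem : ∀ j, ∃ o : Smp N (Ix.t j), o.S = SkewS (hT j).B := by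
    intro j
    by_cases hj : e j
    · obtain ⟨o, ho⟩ := hoF j hj
      exact ⟨ofFul o, congrArg (fun f : Frm N (Ix.t j) => SkewS f.B) ho⟩
    · obtain ⟨o, ho⟩ := hoS j hj
      exact ⟨ofSFul o, congrArg (fun f : Frm N (Ix.t j) => SkewS f.B) ho⟩
  choose o ho using hmem
  -- pairs
  have hps : ∀ i j, e i → ¬e j → Good N (Ix.t i) (Ix.t j) ∨ Good N (Ix.t j) (Ix.t i) := by
    intro i j hei hej
    rcases hpair i j hei hej with h | h | h | h
    · exact Or.inl (loc_small (N := N) (t := Ix.t i) (fr i) ((hT i).sy hei) (hT i).nd (hT i).si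
        ((hT i).orth hei).1 ((hT i).orth hei).2 (a := Ix.t j) h)
    · obtain ⟨p, -⟩ := hoF i hei
      exact Or.inl (p.good_of_alt (a := Ix.t j) (fr j) ((hT j).alt hej) (hT j).nd h)
    · obtain ⟨p, -⟩ := hoS j hej
      exact Or.inr (p.good_of_wit (a := Ix.t i) h)
    · obtain ⟨p, -⟩ := hoS j hej
      exact Or.inr (p.good_of_sym (a := Ix.t i) (fr i) ((hT i).sy hei) (hT i).nd h)
  have hgoodT : ∀ j, j ≠ i → Good N (Ix.t i) (Ix.t j) := by
    intro j hj
    by_cases hei : e i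
    · by_cases hej : e j
      · obtain ⟨p, -⟩ := hoF i hei
        obtain ⟨p', -⟩ := hoF j hej
        by_cases hi8 : finrank K (T i).V = 8
        · by_cases hj8 : finrank K (T j).V = 8
          · exact loc_same (N := N) (t := Ix.t i) (fr i) ((hT i).sy hei) (hT i).nd (hT i).si
              ((hT i).orth hei).1 ((hT i).orth hei).2 (t' := Ix.t j) (fr j) ((hT j).sy hej)
              (hT j).nd (hT j).si ((hT j).orth hej).1 ((hT j).orth hej).2
              (h8 j hj hei hej hi8 hj8) (hiso j i hj ⟨fun _ => hei, fun _ => hej⟩)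
          · exact p.good_symm p' (p'.good_of_not_iso p hj8
              (hiso i j hj.symm ⟨fun _ => hej, fun _ => hei⟩))
        · exact p.good_of_not_iso p' hi8 (hiso j i hj ⟨fun _ => hei, fun _ => hej⟩)
      · rcases hps i j hei hej with h | h
        · exact h
        · exact (o i).good_symm (o j) h
    · by_cases hej : e j
      · rcases hps j i hej hei with h | h
        · exact (o i).good_symm (o j) h
        · exact h
      · obtain ⟨p, -⟩ := hoS i hei
        obtain ⟨p', -⟩ := hoS j hej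
        exact p.good_of_not_iso p' (hiso j i hj ⟨fun h => absurd h hej, fun h => absurd h hei⟩)
  have hgoodM : ∀ a, Good N (Ix.t i) (Ix.pc a) := by
    intro a
    by_cases hei : e i
    · obtain ⟨p, -⟩ := hoF i hei
      rcases (hκ a).1 hei with h1 | ⟨B, h1, h2, h3, h4⟩ | ⟨B, h1, h2, h3, h4⟩
      · exact loc_small (N := N) (t := Ix.t i) (fr i) ((hT i).sy hei) (hT i).nd (hT i).si
          ((hT i).orth hei).1 ((hT i).orth hei).2 (a := Ix.pc a) h1
      · exact p.good_of_sym (a := Ix.pc a) ⟨B, fun g => (κ a g : K), h3, Ix.cf a,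
          line_finrank _, fun g x => rfl⟩ (fun x y => (h1 x y).trans (one_mul _)) h2 h4
      · exact p.good_of_alt (a := Ix.pc a) ⟨B, fun g => (κ a g : K), h3, Ix.cf a,
          line_finrank _, fun g x => rfl⟩ (fun x y => (h1 x y).trans (neg_one_mul _)) h2 h4
    · obtain ⟨p, -⟩ := hoS i hei
      rcases (hκ a).2 hei with h1 | ⟨B, h1, h2, h3, h4⟩ | ⟨B, h1, h2, h3, h4⟩
      · exact p.good_of_wit (a := Ix.pc a) h1
      · exact p.good_of_sym (a := Ix.pc a) ⟨B, fun g => (κ a g : K), h3, Ix.cf a,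
          line_finrank _, fun g x => rfl⟩ (fun x y => (h1 x y).trans (one_mul _)) h2 h4
      · exact p.good_of_alt (a := Ix.pc a) ⟨B, fun g => (κ a g : K), h3, Ix.cf a,
          line_finrank _, fun g x => rfl⟩ (fun x y => (h1 x y).trans (neg_one_mul _)) h2 h4
  -- an operator which kills the other members
  obtain ⟨D, hD, hD0, hDt⟩ := (o i).good_finset
    (hS.toFinset.image Ix.t ∪ (univ : Finset (Fin m)).image Ix.pc) (by
      intro a ha
      rcases Finset.mem_union.1 ha with ha | ha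
      · obtain ⟨j, hj, rfl⟩ := Finset.mem_image.1 ha
        exact hgoodT j fun h => hi (h ▸ (hS.mem_toFinset.1 hj))
      · obtain ⟨a, -, rfl⟩ := Finset.mem_image.1 ha
        exact hgoodM a) (X := X) (by rw [ho]; exact hX)
  have hDG := GG1_le hD
  have hDT : ∀ j ∈ S, D (Ix.t j) = 0 := fun j hj => hD0 _ (Finset.mem_union_left _
    (Finset.mem_image.2 ⟨j, hS.mem_toFinset.2 hj, rfl⟩))
  have hDM : ∀ a, D (Ix.pc a) = 0 := fun a => hD0 _ (Finset.mem_union_right _
    (Finset.mem_image.2 ⟨a, Finset.mem_univ _, rfl⟩))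
  have hDl : D Ix.lam = 0 := GG1_line hD (line_finrank _).le
  have hDc : ∀ n, D (Ix.chi n) = 0 := fun n => GG1_line hD (line_finrank _).le
  -- the derivation of the algebra
  let E : A →ₗ[K] A := D Ix.alg
  have hE : ∀ a b : A, E (a * b) = E a * b + a * E b := by
    intro a b
    have h1 : ∀ (g : Γ) (x y : A), (((1 : Γ →* Kˣ) g : K) • τ g x) *
        (((1 : Γ →* Kˣ) g : K) • τ g y) = ((1 : Γ →* Kˣ) g : K) • τ g (x * y) := by
      intro g x y
      simp
    exact (bil_der (N := N) (a := Ix.alg) (b := Ix.alg) (c := Ix.alg) (LinearMap.mul K A)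
      (Δ := ⊤) inferInstance (fun g _ x y => h1 g x y) hDG a b).symm
  have hE1 : E 1 = 0 := by
    have h1 := hE 1 1
    rw [mul_one, mul_one, one_mul] at h1
    exact left_eq_add.1 h1
  have hE0 : ∀ a : A, E a = 0 := by
    intro a
    have ha : a ∈ Algebra.adjoin K (SemiInv χ τ ∪
      ({x | ∃ j ∈ S, ∃ f : (T j).V →ₗ[K] A, (∀ g y, f ((T j).ρ g y) = τ g (f y)) ∧ ∃ y, f y = x} ∪
       {x | ∃ a, ∃ f : (M a).V →ₗ[K] A, (∀ g y, f ((M a).ρ g y) = τ g (f y)) ∧ ∃ y, f y = x})) := by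
      rw [hgen]
      exact Algebra.mem_top
    induction ha using Algebra.adjoin_induction with
    | mem a ha =>
      rcases ha with ⟨n, Δ, hΔ, h1⟩ | ⟨j, hj, f, hf, z, rfl⟩ | ⟨b, f, hf, z, rfl⟩
      · have h4 : ∀ g ∈ Δ, ∀ z : K, (((χ ^ n) g : K) • z) • a =
            ((1 : Γ →* Kˣ) g : K) • τ g (z • a) := by
          intro g hg z
          rw [map_smul, h1 g hg, MonoidHom.one_apply, Units.val_one, one_smul,
            MonoidHom.pow_apply, Units.val_pow_eq_pow_val, smul_comm z, smul_assoc]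
        have h2 := lin_der (N := N) (a := Ix.chi n) (c := Ix.alg)
          (LinearMap.toSpanSingleton K A a) hΔ (fun g hg z => h4 g hg z) hDG (1 : K)
        rw [hDc] at h2
        have h3 : E ((1 : K) • a) = 0 := by
          refine Eq.trans h2.symm ?_
          exact map_zero _
        rwa [one_smul] at h3
      · have h4 : ∀ (g : Γ) (y : (T j).V), f ((T j).ρ g y) =
            ((1 : Γ →* Kˣ) g : K) • τ g (f y) := by
          intro g y
          rw [hf, MonoidHom.one_apply, Units.val_one, one_smul]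
        have h2 := lin_der (N := N) (a := Ix.t j) (c := Ix.alg) f (Δ := ⊤) inferInstance
          (fun g _ y => h4 g y) hDG z
        rw [hDT j hj] at h2
        exact h2.symm.trans (map_zero f)
      · have h4 : ∀ (g : Γ) (y : (M b).V), f ((M b).ρ g y) =
            ((1 : Γ →* Kˣ) g : K) • τ g (f y) := by
          intro g y
          rw [hf, MonoidHom.one_apply, Units.val_one, one_smul]
        have h2 := lin_der (N := N) (a := Ix.pc b) (c := Ix.alg) f (Δ := ⊤) inferInstance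
          (fun g _ y => h4 g y) hDG z
        rw [hDM b] at h2
        exact h2.symm.trans (map_zero f)
    | algebraMap r => rw [Algebra.algebraMap_eq_smul_one, map_smul, hE1, smul_zero]
    | add a b _ _ ha hb => rw [map_add, ha, hb, add_zero]
    | mul a b _ _ ha hb => rw [hE, ha, hb, zero_mul, mul_zero, add_zero]
  -- the target
  have htgt : ∀ a : A, D Ix.tgt a = 0 := by
    intro a
    have h4 : ∀ (g : Γ) (x : K) (y : A), ((lam g : K) • x) • (((1 : Γ →* Kˣ) g : K) • τ g y) =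
        (lam g : K) • τ g (x • y) := by
      intro g x y
      rw [map_smul, MonoidHom.one_apply, Units.val_one, one_smul, smul_assoc]
    have h1 := bil_der (N := N) (a := Ix.lam) (b := Ix.alg) (c := Ix.tgt)
      (LinearMap.lsmul K A) (Δ := ⊤) inferInstance (fun g _ x y => h4 g x y) hDG (1 : K) a
    rw [hDl] at h1
    have h2 : D Ix.tgt ((1 : K) • a) = 0 := by
      refine Eq.trans h1.symm ?_
      change (0 : K) • a + (1 : K) • E a = 0
      rw [hE0, smul_zero, zero_smul, add_zero]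
    rwa [one_smul] at h2
  intro w
  obtain ⟨Δ, hΔ, hΔh⟩ := hh
  have h1 := hDG R (fun _ => Ix.t i) Ix.tgt h ⟨Δ, hΔ, hΔh⟩ w
  have h2 : D Ix.tgt (h w) = 0 := htgt (h w)
  refine Eq.trans (Finset.sum_congr rfl fun j _ => ?_) (h1.trans h2)
  exact congrArg (fun Y : Module.End K (T i).V => h (update w j (Y (w j)))) hDt.symm

end Pool.Agent.Q71.SP
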