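import Pool.Agent.Q71.SP.Pub2

/-!
# Families of varieties with three slopes: definitions
-/

set_option autoImplicit false

open CategoryTheory AlgebraicGeometry

universe u

namespace Pool.Agent.Q71.SP.P

open Pool.Agent.TH125.Gal Pool.Agent.Y127.G Pool.Agent.Q71.TM.P

/-- A valuation `v` (an additive function on the multiplicative group), an element `F` (a Frobenius
element), a number `c` and a rank `r`. -/
structure SData (K : Type) [Field K] (Γ : Type) : Type where
  /-- the valuation -/
  v : Additive Kˣ →+ ℚ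
  /-- the element -/
  F : Γ
  /-- the difference of slopes -/
  c : ℚ
  /-- the rank -/
  r : ℕ

section Alg

variable {K : Type} [Field K] {A : Type} [Ring A] [Algebra K A] [FiniteDimensional K A]
  {A' : Type} [Ring A'] [Algebra K A'] [FiniteDimensional K A'] {Γ : Type} [Group Γ]

/-- The number of pairs of slopes of `F` on `U` with difference `c` is smaller than `r - 2`. -/
def FewSlopes (a : SData K Γ) (ρ : Γ →* (A ≃ₐ[K] A)) (U : Submodule K A) : Prop :=
  ∃ s, SlopesOn ρ U a.v a.F s ∧ gaps s a.c + 2 < a.r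

/-- `T` has dimension `r`, and `F` acts on `T` with the slopes `h + c` and `h - c`, once each, and
`h`, where `c > 0`; if `e` holds then `r` is `3` or at least `5`. -/
def K3Sl (a : SData K Γ) (e : Prop) (ρ : Γ →* (A ≃ₐ[K] A)) (T : Submodule K A) : Prop :=
  (Module.finrank K T = a.r ∧ 0 < a.c ∧
    ∃ h, SlopesOn ρ T a.v a.F ((h + a.c) ::ₘ (h - a.c) ::ₘ Multiset.replicate (a.r - 2) h)) ∧
  (e → a.r = 3 ∨ 5 ≤ a.r)

/-- If `e` and `e'` are equivalent then `T` and `T'` are not isomorphic up to a function on `Γ`; if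
`e`, `e'` hold and both ranks are `8`, then the valuations and the elements agree; if `e` holds and
`e'` does not, then `r ≤ r'` or `r' + 1 < r` or one of the spaces has few slopes. -/
def PairSl (a a' : SData K Γ) (e e' : Prop) (ρ : Γ →* (A ≃ₐ[K] A)) (T : Submodule K A)
    (ρ' : Γ →* (A' ≃ₐ[K] A')) (T' : Submodule K A') : Prop :=
  ((e ↔ e') → ¬TwistIso ρ T ρ' T') ∧
  (e → e' → a.r = 8 → a'.r = 8 → a.v = a'.v ∧ a.F = a'.F) ∧
  (e → ¬e' → a.r ≤ a'.r ∨ a'.r + 1 < a.r ∨ FewSlopes a ρ' T' ∨ FewSlopes a' ρ T)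

/-- `U` has few pairs of slopes of `F` with difference `c`, or `SmallForm`. -/
def SmallSl (a : SData K Γ) (e : Prop) (ρ : Γ →* (A ≃ₐ[K] A)) (U : Submodule K A) : Prop :=
  FewSlopes a ρ U ∨ SmallForm e ρ U a.r

end Alg

open Pool.Agent.H914 Pool.Agent.H914.VarClass Pool.Agent.H914.VarClass.Obj
  Pool.Agent.H914.WeilCohomology

variable {k : Type u} [Field k] {𝒱 : VarClass k} {ops : CycleOps 𝒱}
  {W : WeilCohomology.{u, 0} ops} {Γ : Type} [Group Γ]

/-- A family of varieties with `Mid`, for the transcendental parts of which `K3Sl` and, pairwise,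
`PairSl` hold, where `e` is the property that the dimension is even; the cohomology algebra of `Z` is
generated by subspaces which satisfy `SmallSl` for all `X i`. -/
structure SlopeFamily (D : Tw W.K Γ) {ι : Type} (a : ι → SData W.K Γ) (X : ι → GVar W Γ)
    (Z : GVar W Γ) : Prop where
  mid : ∀ i, Mid D (X i)
  mem : ∀ i, K3Sl (a i) (Ev (X i)) (X i).act (transcendental W (X i).X)
  pair : ∀ i j, i ≠ j → PairSl (a i) (a j) (Ev (X i)) (Ev (X j)) (X i).act
    (transcendental W (X i).X) (X j).act (transcendental W (X j).X)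
  base : GenBySmall Z.act fun U => ∀ i, SmallSl (a i) (Ev (X i)) Z.act U

end Pool.Agent.Q71.SP.P
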