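import Pool.Agent.Q71.SP.Pub2

/-!
# Families of varieties with a degeneration: definitions
-/

set_option autoImplicit false

open CategoryTheory AlgebraicGeometry

universe u

namespace Pool.Agent.Q71.SP.P

open Pool.Agent.TH125.Gal Pool.Agent.Y127.G Pool.Agent.Q71.TM.P

section Alg

variable {K : Type} [Field K] {A : Type} [Ring A] [Algebra K A] [FiniteDimensional K A]
  {A' : Type} [Ring A'] [Algebra K A'] [FiniteDimensional K A'] {Γ : Type} [Group Γ]

/-- `(g - 1) ^ 2 = 0` on `U` and the square of the rank of `g - 1` is smaller than `r - 2`. -/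
def Mild (ρ : Γ →* (A ≃ₐ[K] A)) (U : Submodule K A) (g : Γ) (r : ℕ) : Prop :=
  (∀ x ∈ U, nil ρ g (nil ρ g x) = 0) ∧ Module.finrank K (U.map (nil ρ g)) ^ 2 + 2 < r

/-- `g` acts on `T` like an element of the inertia group at a place of maximal degeneration
(type III): `(g - 1) ^ 3 = 0`, `(g - 1) ^ 2 ≠ 0`, and `g - 1` has rank `2`. -/
def Maximal (ρ : Γ →* (A ≃ₐ[K] A)) (T : Submodule K A) (g : Γ) : Prop :=
  (∀ x ∈ T, nil ρ g (nil ρ g (nil ρ g x)) = 0) ∧
    (∃ x ∈ T, nil ρ g (nil ρ g x) ≠ 0) ∧ Module.finrank K (T.map (nil ρ g)) = 2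

/-- `T` has dimension `r`; if `e` holds then `r` is `3` or at least `5` and `g` acts on `T` by a
maximal degeneration; if `e` does not hold then `g` acts on `T` by a transvection. -/
def Degen (g : Γ) (r : ℕ) (e : Prop) (ρ : Γ →* (A ≃ₐ[K] A)) (T : Submodule K A) : Prop :=
  Module.finrank K T = r ∧ (e → (r = 3 ∨ 5 ≤ r) ∧ Maximal ρ T g) ∧ (¬e → Transvection ρ T g)

/-- If `e` and `e'` are equivalent then `T` and `T'` are not isomorphic up to a function on `Γ`; if
`e`, `e'` hold and both ranks are `8`, then `g = g'`; if `e` holds and `e'` does not, then `r ≤ r'` or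
`r' + 1 < r` or `Mild` for `T'` or `SmallUnip`. -/
def PairDeg (g g' : Γ) (r r' : ℕ) (e e' : Prop) (ρ : Γ →* (A ≃ₐ[K] A)) (T : Submodule K A)
    (ρ' : Γ →* (A' ≃ₐ[K] A')) (T' : Submodule K A') : Prop :=
  ((e ↔ e') → ¬TwistIso ρ T ρ' T') ∧ (e → e' → r = 8 → r' = 8 → g = g') ∧
  (e → ¬e' → r ≤ r' ∨ r' + 1 < r ∨ Mild ρ' T' g r ∨ SmallUnip ρ' T' ρ T)

/-- `SmallForm`, or `Mild` if `e` holds and `SmallUnip` if `e` does not hold. -/
def SmallDeg (g : Γ) (r : ℕ) (e : Prop) (ρ' : Γ →* (A' ≃ₐ[K] A')) (T : Submodule K A')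
    (ρ : Γ →* (A ≃ₐ[K] A)) (U : Submodule K A) : Prop :=
  SmallForm e ρ U r ∨ (e → Mild ρ U g r) ∧ (¬e → SmallUnip ρ' T ρ U)

end Alg

open Pool.Agent.H914 Pool.Agent.H914.VarClass Pool.Agent.H914.VarClass.Obj
  Pool.Agent.H914.WeilCohomology

variable {k : Type u} [Field k] {𝒱 : VarClass k} {ops : CycleOps 𝒱}
  {W : WeilCohomology.{u, 0} ops} {Γ : Type} [Group Γ]

/-- A family of varieties with `Mid`, for the transcendental parts of which `Degen` and, pairwise,
`PairDeg` hold, where `e` is the property that the dimension is even; the cohomology algebra of `Z` is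
generated by subspaces which satisfy `SmallDeg` for all `X i`. -/
structure InertiaFamily (D : Tw W.K Γ) {ι : Type} (g : ι → Γ) (r : ι → ℕ)
    (X : ι → GVar W Γ) (Z : GVar W Γ) : Prop where
  mid : ∀ i, Mid D (X i)
  mem : ∀ i, Degen (g i) (r i) (Ev (X i)) (X i).act (transcendental W (X i).X)
  pair : ∀ i j, i ≠ j → PairDeg (g i) (g j) (r i) (r j) (Ev (X i)) (Ev (X j)) (X i).act
    (transcendental W (X i).X) (X j).act (transcendental W (X j).X)
  base : GenBySmall Z.act fun U => ∀ i,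
    SmallDeg (g i) (r i) (Ev (X i)) (X i).act (transcendental W (X i).X) Z.act U

end Pool.Agent.Q71.SP.P
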