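import Pool.Agent.Q71.SP.Twr
import Pool.Agent.Q71.TM.Cnv
import Pool.Agent.Q71.SP.Pub3
import Pool.Agent.Q71.SP.Pub4

/-!
# The two forms of the definitions
-/

set_option autoImplicit false

open CategoryTheory AlgebraicGeometry Finset Function

universe u

namespace Pool.Agent.Q71.SP.P

open Pool.Agent.TH125.Gal Pool.Agent.Y127 Pool.Agent.Y127.G Pool.Agent.Q71.TM

section Alg

variable {K : Type} [Field K] {A : Type} [Ring A] [Algebra K A] [FiniteDimensional K A]
  {A' : Type} [Ring A'] [Algebra K A'] [FiniteDimensional K A'] {Γ : Type} [Group Γ]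
  {ρ : Γ →* (A ≃ₐ[K] A)} {T : Submodule K A} {ρT : Γ →* (T →ₗ[K] T)}
  (hρ : ∀ g x, (ρT g x : A) = ρ g x)
  {ρ' : Γ →* (A' ≃ₐ[K] A')} {U : Submodule K A'} {ρU : Γ →* (U →ₗ[K] U)}
  (hρ' : ∀ g x, (ρU g x : A') = ρ' g x)

include hρ in
theorem nil_pow_coe (g : Γ) (n : ℕ) (x : T) :
    (((ρT g - 1 : Module.End K T) ^ n) x : A) = (TM.P.nil ρ g ^ n) x := by
  induction n generalizing x with
  | zero => rfl
  | succ n ih =>
    rw [pow_succ, pow_succ, Module.End.mul_apply, Module.End.mul_apply, ih, nil_coe hρ]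
    rfl

include hρ in
theorem range_nil_pow (g : Γ) (n : ℕ) :
    Module.finrank K (LinearMap.range ((ρT g - 1 : Module.End K T) ^ n)) =
      Module.finrank K (T.map (TM.P.nil ρ g ^ n)) := by
  have h1 : (LinearMap.range ((ρT g - 1 : Module.End K T) ^ n)).map T.subtype =
      T.map (TM.P.nil ρ g ^ n) := by
    ext y
    constructor
    · rintro ⟨_, ⟨x, rfl⟩, rfl⟩
      exact ⟨x, x.2, (nil_pow_coe hρ g n x).symm⟩
    · rintro ⟨x, hx, rfl⟩
      exact ⟨((ρT g - 1 : Module.End K T) ^ n) ⟨x, hx⟩, ⟨⟨x, hx⟩, rfl⟩,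
        nil_pow_coe hρ g n ⟨x, hx⟩⟩
  rw [← h1]
  exact (LinearEquiv.finrank_eq (Submodule.equivMapOfInjective T.subtype
    T.injective_subtype _))

include hρ in
theorem pow_zero_of {g : Γ} {n : ℕ} (h : ∀ x ∈ T, (TM.P.nil ρ g ^ n) x = 0) :
    (ρT g - 1 : Module.End K T) ^ n = 0 := by
  apply LinearMap.ext
  intro x
  apply Subtype.ext
  rw [nil_pow_coe hρ, h x x.2]
  rfl

include hρ in
theorem sq_zero_of {g : Γ} (h : ∀ x ∈ T, TM.P.nil ρ g (TM.P.nil ρ g x) = 0) :
    (ρT g - 1 : Module.End K T) ^ 2 = 0 :=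
  pow_zero_of hρ fun x hx => by rw [pow_two, Module.End.mul_apply]; exact h x hx

include hρ in
theorem slopes_of {v : Additive Kˣ →+ ℚ} {F : Γ} {s : Multiset ℚ} (h : TM.P.SlopesOn ρ T v F s) :
    slopes v (ρT F) = s := by
  obtain ⟨hT, h1⟩ := h
  rw [restrict_eq hρ F hT] at h1
  exact h1

include hρ in
theorem spFull_of (h : (∃ g, Transvection ρ T g) ∨ ∃ v F c, c ≠ 0 ∧ ThreeSlopes ρ T v F c) :
    SpFull (⟨T, ρT⟩ : FRep K Γ) := by
  rcases h with ⟨g, h1, h2⟩ | ⟨v, F, c, hc, h, h1⟩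
  · left
    refine ⟨g, sq_zero_of hρ h1, ?_⟩
    have h3 := range_nil hρ g
    exact h3.trans h2
  · right
    exact ⟨v, F, h, c, hc, slopes_of hρ h1⟩

include hρ hρ' in
theorem spWit_unip (h : SmallUnip ρ T ρ' U) :
    SpWit (⟨T, ρT⟩ : FRep K Γ) (⟨U, ρU⟩ : FRep K Γ) := by
  obtain ⟨g, n, h1, h2, h3⟩ := h
  refine Or.inl ⟨g, n, sq_zero_of hρ h1, pow_zero_of hρ' h2, ?_⟩
  have e1 : Module.finrank K (LinearMap.range (ρT g - 1 : Module.End K T)) =
    Module.finrank K (T.map (TM.P.nil ρ g)) := range_nil hρ g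
  have e2 : Module.finrank K (LinearMap.range (ρU g - 1 : Module.End K U)) =
    Module.finrank K (U.map (TM.P.nil ρ' g)) := range_nil hρ' g
  have e3 := range_nil_pow hρ' g 2
  change 2 * (Module.finrank K (LinearMap.range (ρU g - 1 : Module.End K U)) ^ 2 +
    2 * Module.finrank K (LinearMap.range ((ρU g - 1 : Module.End K U) ^ 2)) *
      Module.finrank K U) < Module.finrank K (LinearMap.range (ρT g - 1 : Module.End K T)) *
      (Module.finrank K (LinearMap.range (ρT g - 1 : Module.End K T)) + 1)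
  rw [e1, e2, e3]
  exact h3

include hρ hρ' in
theorem spWit_slopes (h : SmallSlopes ρ T ρ' U) :
    SpWit (⟨T, ρT⟩ : FRep K Γ) (⟨U, ρU⟩ : FRep K Γ) := by
  obtain ⟨v, F, ⟨c, hc, ⟨h, h1⟩, s, h2, h3⟩ | ⟨t, s, a, b, h1, h2, h3, h4, h5⟩⟩ := h
  · refine Or.inr (Or.inr (Or.inl ⟨v, F, h, c, hc, slopes_of hρ h1, ?_⟩))
    change gaps (slopes v (ρU F)) c + 2 < Module.finrank K T
    rw [slopes_of hρ' h2]
    exact h3
  · refine Or.inr (Or.inl ⟨v, F, a, b, t.count b, ⟨?_, ?_, ?_⟩, ?_⟩)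
    · change ∀ s ∈ slopes v (ρT F), _
      rw [slopes_of hρ h1]
      exact h3
    · change a ∈ slopes v (ρT F)
      rw [slopes_of hρ h1]
      exact h4
    · change (slopes v (ρT F)).count b = _
      rw [slopes_of hρ h1]
    · change 2 * gaps (slopes v (ρU F)) (b - a) < _
      rw [slopes_of hρ' h2]
      exact h5

include hρ in
theorem pos_of_spFull (h : SpFull (⟨T, ρT⟩ : FRep K Γ)) : 0 < Module.finrank K T := by
  rcases h with ⟨g, -, h2⟩ | ⟨v, F, a, c, -, h1⟩
  · have h3 : Module.finrank K (LinearMap.range (ρT g - 1 : Module.End K T)) ≤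
      Module.finrank K T := LinearMap.finrank_range_le _
    have h4 : Module.finrank K (LinearMap.range (ρT g - 1 : Module.End K T)) = 1 := h2
    omega
  · by_contra h0
    have h2 : Module.finrank K T = 0 := by omega
    have h3 : (slopes v (ρT F)) = (a + c) ::ₘ (a - c) ::ₘ
      Multiset.replicate (Module.finrank K T - 2) a := h1
    have h4 : (ρT F).charpoly.roots = 0 := by
      have h5 : (ρT F).charpoly.natDegree = 0 := by rw [LinearMap.charpoly_natDegree, h2]
      have h6 := Polynomial.card_roots' (ρT F).charpoly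
      rw [h5] at h6
      exact Multiset.card_eq_zero.1 (Nat.le_zero.1 h6)
    rw [slopes, h4, Multiset.map_zero] at h3
    exact absurd h3.symm (Multiset.cons_ne_zero)

end Alg

open Pool.Agent.H914 Pool.Agent.H914.VarClass Pool.Agent.H914.VarClass.Obj
  Pool.Agent.H914.WeilCohomology

variable {k : Type u} [Field k] {𝒱 : VarClass k} {ops : CycleOps 𝒱}
  {W : WeilCohomology.{u, 0} ops} {Γ : Type} [Group Γ] {D : TM.P.Tw W.K Γ}
  {ι : Type} {X : ι → GVar W Γ} {Z : GVar W Γ} {S L : Set ι} {Y : GVar W Γ}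

theorem hasForm_subRep {A : Type} [Ring A] [Algebra W.K A] [FiniteDimensional W.K A]
    {ρ : Γ →* (A ≃ₐ[W.K] A)} {U : Submodule W.K A} (hU : ∀ g, ∀ x ∈ U, ρ g x ∈ U) {s : W.K}
    (h : TM.P.FormOn ρ U s) : HasForm s (subRep ρ U hU) := by
  obtain ⟨μ, B, h3, h4, h5⟩ := h
  refine ⟨μ, B.domRestrict₁₂ U U, fun (x y : U) => h3 x x.2 y y.2, fun (x : U) hx => ?_,
    fun g (x y : U) => h5 g x x.2 y y.2⟩
  exact Subtype.ext (h4 x x.2 fun y hy => hx ⟨y, hy⟩)

/-- the base -/
theorem base_of {P : Submodule W.K (W.H Z.X) → Prop} (h : GenBySmall Z.act P) :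
    ∃ (m : ℕ) (U : Fin m → Submodule W.K (W.H Z.X)) (hU : ∀ a g, ∀ x ∈ U a, Z.act g x ∈ U a),
      (∀ a, P (U a)) ∧ Algebra.adjoin W.K (⋃ a, Set.range (U a).subtype) = ⊤ := by
  obtain ⟨m, U, h1, h2, h3⟩ := h
  refine ⟨m, U, h2, h1, ?_⟩
  rw [← h3]
  congr 1
  refine Set.iUnion_congr fun a => ?_
  rw [Submodule.coe_subtype, Subtype.range_coe_subtype]
  rfl

/-- symplectic families -/
theorem mfam_symp (h : SympFamily D X Z) :
    MFam D.χ (fun _ : ι => TM.Loc.inertia (1 : Γ)) X Z := by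
  have hgal : ∀ i, Y127.GaloisType D.χ (X i) := fun i => (h.mid i).galois
  have hno : ∀ i, ¬Even (X i).X.dim := fun i => Nat.not_even_iff_odd.2 (h.odd i)
  have hfull : ∀ i, SpFull (trRep (hgal i)) := fun i =>
    spFull_of (ρT := rhoT (isGalois (hgal i))) (fun g x => rfl) (h.full i)
  refine
    { galois := hgal
      homEqNum := fun i => (h.mid i).homEqNum
      middle := fun i => (h.mid i).middle
      pos := fun i => pos_of_spFull (ρT := rhoT (isGalois (hgal i))) (fun g x => rfl) (hfull i)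
      irreducible := fun i => (h.mid i).irreducible
      rank := fun i he => absurd he (hno i)
      loc := fun i he => absurd he (hno i)
      full := fun i _ => hfull i
      notIso := fun i j hij _ => h.notIso i j hij
      eight := fun i j _ he => absurd he (hno i)
      pair := fun i j he => absurd he (hno i)
      base := ?_ }
  obtain ⟨m, U, hU, h1, h2⟩ := base_of h.base
  refine ⟨m, fun a => subRep Z.act (U a) (hU a), fun a => (U a).subtype, fun a i =>
    ⟨fun he => absurd he (hno i), fun _ => ?_⟩, fun a g x => rfl, h2⟩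
  rcases h1 a i with h3 | h3 | h3 | ⟨h3, h4⟩ | ⟨h3, h4⟩
  · exact Or.inl (spWit_unip (ρT := rhoT (isGalois (hgal i))) (fun g x => rfl)
      (ρU := (subRep Z.act (U a) (hU a)).ρ) (fun g x => rfl) h3)
  · exact Or.inl (spWit_slopes (ρT := rhoT (isGalois (hgal i))) (fun g x => rfl)
      (ρU := (subRep Z.act (U a) (hU a)).ρ) (fun g x => rfl) h3)
  · exact Or.inl (Or.inr (Or.inr (Or.inr h3)))
  · exact Or.inr (Or.inl ⟨hasForm_subRep (hU a) h3, h4⟩)
  · exact Or.inr (Or.inr ⟨hasForm_subRep (hU a) h3, h4⟩)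

theorem towers_of (hY : Towers X Z S Y) (ho : ∀ i, Odd (X i).X.dim) : LTower X Z S ∅ Y := by
  induction hY with
  | base => exact LTower.base
  | @step S Y Y' i n h hi hP ih =>
    exact LTower.small i n ih hi (fun he => absurd he (Nat.not_even_iff_odd.2 (ho i)))
      (TM.P.isPowProd hP)

/-- **Symplectic families.** -/
theorem final_symp [IsAlgClosed W.K] (h : SympFamily D X Z) (hY : Towers X Z S Y)
    (hG : TM.P.GaloisType D Y) : (TM.P.Tate D Y ↔ TM.P.Tate D Z) ∧
    (TM.P.Tate D Z → ∀ Δ : Subgroup Γ, Δ.FiniteIndex → TM.P.TateOver D Δ Y) := by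
  have hX := mfam_symp h
  have hY' := towers_of hY h.odd
  refine ⟨⟨fun hT => hX.conv' hY' hT, fun hZ => hX.small hY' hZ⟩, fun hZ Δ hΔ => ?_⟩
  have key : Y127.TateOver D.χ Δ Y := hX.over hY' hG hZ Δ hΔ (Or.inl rfl)
  exact key

theorem mtower_of {r : ι → ℕ} (hr : ∀ i, Module.finrank W.K (transcendental W (X i).X) = r i)
    (hY : MTower r X Z S L Y) : LTower X Z S L Y ∧ ∀ i ∈ L, Even (X i).X.dim := by
  induction hY with
  | base => exact ⟨LTower.base, fun i hi => absurd hi (Set.notMem_empty i)⟩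
  | @small S L Y Y' i n h hi hn hP ih =>
    exact ⟨LTower.small i n ih.1 hi (fun he => by
      have h1 : transRank W (X i).X = r i := hr i
      rw [h1]
      exact hn he) (TM.P.isPowProd hP), ih.2⟩
  | @large S L Y Y' i n h hi he hP ih =>
    refine ⟨LTower.large i n ih.1 hi (TM.P.isPowProd hP), fun a ha => ?_⟩
    rcases Set.mem_insert_iff.1 ha with rfl | ha
    · exact he
    · exact ih.2 a ha

/-- the conclusion for mixed families -/
theorem final_mixed [IsAlgClosed W.K] {l : ι → TM.Loc W.K Γ} {r : ι → ℕ}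
    (hX : MFam D.χ l X Z) (hr : ∀ i, Module.finrank W.K (transcendental W (X i).X) = r i)
    (hY : MTower r X Z S L Y) (hG : TM.P.GaloisType D Y) :
    (TM.P.Tate D Y → TM.P.Tate D Z) ∧
    (TM.P.Tate D Z → ∀ Δ' : Subgroup Γ, Δ'.FiniteIndex →
      (L = ∅ ∨ ∃ Δ ≤ Δ', Δ.FiniteIndex ∧ (∀ i ∈ S, TM.P.AlgDefined D Δ (X i)) ∧
        TM.P.AlgDefined D Δ Z ∧ TM.P.IndepOn Δ (fun i => TM.P.discr D (X i)) L) →
      TM.P.TateOver D Δ' Y) := by
  obtain ⟨hY', hL⟩ := mtower_of hr hY
  refine ⟨fun h => hX.conv' hY' h, fun hZ Δ' hΔ' h => ?_⟩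
  have key : Y127.TateOver D.χ Δ' Y := hX.over hY' hG hZ Δ' hΔ' (by
    rcases h with h | h
    · exact Or.inl h
    · exact Or.inr ⟨hL, h⟩)
  exact key

/-- small spaces with a form -/
theorem smallForm_of {A : Type} [Ring A] [Algebra W.K A] [FiniteDimensional W.K A]
    {ρ : Γ →* (A ≃ₐ[W.K] A)} {U : Submodule W.K A} (hU : ∀ g, ∀ x ∈ U, ρ g x ∈ U) {e : Prop}
    {r : ℕ} {l : TM.Loc W.K Γ} {M : FRep W.K Γ} (hM : Module.finrank W.K M.V = r)
    (h : SmallForm e ρ U r) : MSmall l e M (subRep ρ U hU) := by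
  refine ⟨fun he => ?_, fun he => ?_⟩
  · rcases h with ⟨h1, h2, -⟩ | ⟨h1, h2, -⟩ | ⟨h1, -⟩
    · exact Or.inr (Or.inl ⟨hasForm_subRep hU h1, by rw [hM]; exact h2 he⟩)
    · exact Or.inr (Or.inr ⟨hasForm_subRep hU h1, by rw [hM]; exact h2 he⟩)
    · exact absurd he h1
  · rcases h with ⟨h1, -, h2⟩ | ⟨h1, -, h2⟩ | ⟨-, h2⟩
    · exact Or.inr (Or.inl ⟨hasForm_subRep hU h1, by rw [hM]; exact h2 he⟩)
    · exact Or.inr (Or.inr ⟨hasForm_subRep hU h1, by rw [hM]; exact h2 he⟩)
    · refine Or.inl (Or.inr (Or.inr (Or.inr ?_)))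
      rw [hM]
      exact h2

/-- families with three slopes -/
theorem mfam_slopes {a : ι → SData W.K Γ} (h : SlopeFamily D a X Z) :
    MFam D.χ (fun i => TM.Loc.frobenius (a i).v (a i).F (a i).c) X Z := by
  have hgal : ∀ i, Y127.GaloisType D.χ (X i) := fun i => (h.mid i).1
  have hr : ∀ i, Module.finrank W.K (transcendental W (X i).X) = (a i).r :=
    fun i => (h.mem i).1.1
  have hsl : ∀ i, ∃ b, slopes (a i).v ((trRep (hgal i)).ρ (a i).F) =
      (b + (a i).c) ::ₘ (b - (a i).c) ::ₘ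
        Multiset.replicate (Module.finrank W.K (trRep (hgal i)).V - 2) b := by
    intro i
    obtain ⟨b, h1⟩ := (h.mem i).1.2.2
    refine ⟨b, ?_⟩
    have h2 : Module.finrank W.K (trRep (hgal i)).V = (a i).r := hr i
    rw [h2]
    exact slopes_of (ρT := rhoT (isGalois (hgal i))) (fun g x => rfl) h1
  have hfull : ∀ i, SpFull (trRep (hgal i)) := by
    intro i
    obtain ⟨b, h1⟩ := hsl i
    exact Or.inr ⟨(a i).v, (a i).F, b, (a i).c, (h.mem i).1.2.1.ne', h1⟩
  refine
    { galois := hgal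
      homEqNum := fun i => (h.mid i).2.1
      middle := fun i => (h.mid i).2.2.1
      pos := fun i => pos_of_spFull (ρT := rhoT (isGalois (hgal i))) (fun g x => rfl) (hfull i)
      irreducible := fun i => (h.mid i).2.2.2
      rank := fun i he => ?_
      loc := fun i he => ⟨(h.mem i).1.2.1, hsl i⟩
      full := fun i _ => hfull i
      notIso := fun i j hij hee => (h.pair i j hij).1 hee
      eight := fun i j hij hi hj hri hrj => ?_
      pair := fun i j hi hj => ?_
      base := ?_ }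
  · have h1 : transRank W (X i).X = (a i).r := hr i
    rw [h1]
    exact (h.mem i).2 he
  · exact (h.pair i j hij).2.1 hi hj ((hr i).symm.trans hri) ((hr j).symm.trans hrj)
  · have hi' : Module.finrank W.K (trRep (hgal i)).V = (a i).r := hr i
    have hj' : Module.finrank W.K (trRep (hgal j)).V = (a j).r := hr j
    have hij : i ≠ j := fun e => hj (e ▸ hi)
    rcases (h.pair i j hij).2.2 hi hj with h1 | h1 | ⟨s, h1, h2⟩ | ⟨s, h1, h2⟩
    · exact Or.inr (Or.inr (Or.inr (by rw [hi', hj']; exact h1)))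
    · exact Or.inr (Or.inl (by rw [hi', hj']; exact h1))
    · left
      change gaps (slopes (a i).v ((trRep (hgal j)).ρ (a i).F)) (a i).c + 2 < _
      rw [hi']
      have h3 : slopes (a i).v ((trRep (hgal j)).ρ (a i).F) = s :=
        slopes_of (ρT := rhoT (isGalois (hgal j))) (fun g x => rfl) h1
      rw [h3]
      exact h2
    · obtain ⟨b, h3⟩ := hsl j
      refine Or.inr (Or.inr (Or.inl (Or.inr (Or.inr (Or.inl ⟨(a j).v, (a j).F, b, (a j).c,
        (h.mem j).1.2.1.ne', h3, ?_⟩)))))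
      rw [hj']
      have h4 : slopes (a j).v ((trRep (hgal i)).ρ (a j).F) = s :=
        slopes_of (ρT := rhoT (isGalois (hgal i))) (fun g x => rfl) h1
      rw [h4]
      exact h2
  · obtain ⟨m, U, hU, h1, h2⟩ := base_of h.base
    refine ⟨m, fun b => subRep Z.act (U b) (hU b), fun b => (U b).subtype, fun b i => ?_,
      fun b g x => rfl, h2⟩
    have hi' : Module.finrank W.K (trRep (hgal i)).V = (a i).r := hr i
    rcases h1 b i with ⟨s, h3, h4⟩ | h3
    · have h5 : slopes (a i).v ((subRep Z.act (U b) (hU b)).ρ (a i).F) = s :=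
        slopes_of (ρT := (subRep Z.act (U b) (hU b)).ρ) (fun g x => rfl) h3
      refine ⟨fun he => Or.inl ?_, fun he => Or.inl ?_⟩
      · change gaps (slopes (a i).v ((subRep Z.act (U b) (hU b)).ρ (a i).F)) (a i).c + 2 < _
        rw [h5, hi']
        exact h4
      · obtain ⟨b', h6⟩ := hsl i
        refine Or.inr (Or.inr (Or.inl ⟨(a i).v, (a i).F, b', (a i).c,
          (h.mem i).1.2.1.ne', h6, ?_⟩))
        rw [h5, hi']
        exact h4
    · exact smallForm_of (hU b) hi' h3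

/-- families with unipotent elements -/
theorem mfam_inertia {g : ι → Γ} {r : ι → ℕ} (h : InertiaFamily D g r X Z) :
    MFam D.χ (fun i => TM.Loc.inertia (g i)) X Z := by
  have hgal : ∀ i, Y127.GaloisType D.χ (X i) := fun i => (h.mid i).1
  have hfull : ∀ i, ¬Even (X i).X.dim → SpFull (trRep (hgal i)) := fun i hi =>
    spFull_of (ρT := rhoT (isGalois (hgal i))) (fun g x => rfl)
      (Or.inl ⟨g i, (h.mem i).2.2 hi⟩)
  have hr : ∀ i, transRank W (X i).X = r i := fun i => (h.mem i).1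
  refine
    { galois := hgal
      homEqNum := fun i => (h.mid i).2.1
      middle := fun i => (h.mid i).2.2.1
      pos := fun i => ?_
      irreducible := fun i => (h.mid i).2.2.2
      rank := fun i he => by rw [hr]; exact ((h.mem i).2.1 he).1
      loc := fun i he => locRep_of (l := TM.Loc.inertia (g i)) (ρT := rhoT (isGalois (hgal i)))
        (fun g x => rfl) ((h.mem i).2.1 he).2
      full := fun i hi => hfull i hi
      notIso := fun i j hij hee => (h.pair i j hij).1 hee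
      eight := fun i j hij hi hj hri hrj => ?_
      pair := fun i j hi hj => ?_
      base := ?_ }
  · by_cases he : Even (X i).X.dim
    · have h1 := ((h.mem i).2.1 he).1
      rw [hr]
      omega
    · exact pos_of_spFull (ρT := rhoT (isGalois (hgal i))) (fun g x => rfl) (hfull i he)
  · rw [hr] at hri hrj
    exact (h.pair i j hij).2.1 hi hj hri hrj
  · have hi' : Module.finrank W.K (trRep (hgal i)).V = r i := hr i
    have hj' : Module.finrank W.K (trRep (hgal j)).V = r j := hr j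
    have hij : i ≠ j := fun e => hj (e ▸ hi)
    rcases (h.pair i j hij).2.2 hi hj with h1 | h1 | h1 | h1
    · exact Or.inr (Or.inr (Or.inr (by rw [hi', hj']; exact h1)))
    · exact Or.inr (Or.inl (by rw [hi', hj']; exact h1))
    · left
      rw [hi']
      exact locSmall_of (l := TM.Loc.inertia (g i)) (ρT := rhoT (isGalois (hgal j)))
        (fun g x => rfl) h1
    · exact Or.inr (Or.inr (Or.inl (spWit_unip (ρT := rhoT (isGalois (hgal j)))
        (fun g x => rfl) (ρU := rhoT (isGalois (hgal i))) (fun g x => rfl) h1)))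
  · obtain ⟨m, U, hU, h1, h2⟩ := base_of h.base
    refine ⟨m, fun a => subRep Z.act (U a) (hU a), fun a => (U a).subtype, fun a i => ?_,
      fun a g x => rfl, h2⟩
    have hi' : Module.finrank W.K (trRep (hgal i)).V = r i := hr i
    rcases h1 a i with h3 | ⟨h3, h4⟩
    · exact smallForm_of (hU a) hi' h3
    · refine ⟨fun he => Or.inl ?_, fun he => Or.inl ?_⟩
      · rw [hi']
        exact locSmall_of (l := TM.Loc.inertia (g i)) (ρT := (subRep Z.act (U a) (hU a)).ρ)
          (fun g x => rfl) (h3 he)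
      · exact spWit_unip (ρT := rhoT (isGalois (hgal i))) (fun g x => rfl)
          (ρU := (subRep Z.act (U a) (hU a)).ρ) (fun g x => rfl) (h4 he)

/-- **Families with three slopes.** -/
theorem final_slopes [IsAlgClosed W.K] {a : ι → SData W.K Γ} (hX : SlopeFamily D a X Z)
    (hY : MTower (fun i => (a i).r) X Z S L Y) (hG : TM.P.GaloisType D Y) :
    (TM.P.Tate D Y → TM.P.Tate D Z) ∧
    (TM.P.Tate D Z → ∀ Δ' : Subgroup Γ, Δ'.FiniteIndex →
      (L = ∅ ∨ ∃ Δ ≤ Δ', Δ.FiniteIndex ∧ (∀ i ∈ S, TM.P.AlgDefined D Δ (X i)) ∧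
        TM.P.AlgDefined D Δ Z ∧ TM.P.IndepOn Δ (fun i => TM.P.discr D (X i)) L) →
      TM.P.TateOver D Δ' Y) :=
  final_mixed (mfam_slopes hX) (fun i => (hX.mem i).1.1) hY hG

/-- **Families with unipotent elements.** -/
theorem final_inertia [IsAlgClosed W.K] {g : ι → Γ} {r : ι → ℕ} (hX : InertiaFamily D g r X Z)
    (hY : MTower r X Z S L Y) (hG : TM.P.GaloisType D Y) :
    (TM.P.Tate D Y → TM.P.Tate D Z) ∧
    (TM.P.Tate D Z → ∀ Δ' : Subgroup Γ, Δ'.FiniteIndex →
      (L = ∅ ∨ ∃ Δ ≤ Δ', Δ.FiniteIndex ∧ (∀ i ∈ S, TM.P.AlgDefined D Δ (X i)) ∧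
        TM.P.AlgDefined D Δ Z ∧ TM.P.IndepOn Δ (fun i => TM.P.discr D (X i)) L) →
      TM.P.TateOver D Δ' Y) :=
  final_mixed (mfam_inertia hX) (fun i => (hX.mem i).1) hY hG

end Pool.Agent.Q71.SP.P
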