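import Pool.Agent.Q71.SP.Ful

/-!
# Unipotent elements and slopes
-/

set_option linter.unusedSectionVars false

namespace Pool.Agent.Q71.SP

open Module Finset Function Polynomial Pool.Agent.TH118.SG Pool.Agent.TH125.Gal
  Pool.Agent.Y127.G Pool.Agent.Y127.C

section lin

variable {K : Type} [Field K] [CharZero K] {T : Type} [AddCommGroup T] [Module K T]
  [FiniteDimensional K T] {B : T →ₗ[K] T →ₗ[K] K}

/-- the logarithm is divisible by `U - 1` -/
theorem lg_factor (n : ℕ) (U : Module.End K T) :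
    ∃ V : Module.End K T, lg n U = (U - 1) * V ∧ lg n U * lg n U = (U - 1) ^ 2 * V ^ 2 := by
  have h1 : lg n U = (U - 1) * ∑ i ∈ range n, lc K i • (U - 1) ^ (i - 1) := by
    rw [lg, Finset.mul_sum]
    refine Finset.sum_congr rfl fun i _ => ?_
    rcases Nat.eq_zero_or_pos i with h | h
    · rw [h, lc_zero, zero_smul, mul_zero]
    · rw [mul_smul_comm, ← pow_succ', Nat.sub_add_cancel h]
  refine ⟨_, h1, ?_⟩
  have hc : Commute (U - 1) (∑ i ∈ range n, lc K i • (U - 1) ^ (i - 1)) := by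
    refine Commute.sum_right _ _ _ fun i _ => ?_
    exact ((Commute.refl (U - 1)).pow_right _).smul_right _
  rw [h1, ← pow_two, hc.mul_pow]

theorem range_mul_le (A V : Module.End K T) :
    LinearMap.range (A * V) ≤ LinearMap.range A := by
  rintro _ ⟨x, rfl⟩
  exact ⟨V x, rfl⟩

/-- the rank of `ad (N) ^ 2` -/
theorem ad_sq_bound (J : Module.End K T) {d d₂ : ℕ}
    (h1 : finrank K (LinearMap.range J) ≤ d) (h2 : finrank K (LinearMap.range (J * J)) ≤ d₂) :
    ∃ E : Submodule K (Module.End K T), (∀ Y, aeval (adL J) (X ^ 2 : K[X]) Y ∈ E) ∧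
      finrank K E ≤ d ^ 2 + 2 * d₂ * finrank K T := by
  let W := LinearMap.range J
  let W₂ := LinearMap.range (J * J)
  let E1 : (T →ₗ[K] W₂) →ₗ[K] Module.End K T :=
    { toFun := fun ξ => W₂.subtype ∘ₗ ξ
      map_add' := fun x y => LinearMap.comp_add _ _ _
      map_smul' := fun c x => LinearMap.comp_smul _ _ _ }
  let E3 : (W₂ →ₗ[K] T) →ₗ[K] Module.End K T :=
    { toFun := fun ξ => ξ ∘ₗ (J * J).rangeRestrict
      map_add' := fun x y => LinearMap.add_comp _ _ _
      map_smul' := fun c x => LinearMap.smul_comp _ _ _ }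
  let E2 : (W →ₗ[K] W) →ₗ[K] Module.End K T :=
    { toFun := fun ξ => W.subtype ∘ₗ ξ ∘ₗ J.rangeRestrict
      map_add' := fun x y => by rw [LinearMap.add_comp, LinearMap.comp_add]
      map_smul' := fun c x => by
        rw [LinearMap.smul_comp, LinearMap.comp_smul]
        rfl }
  refine ⟨LinearMap.range E1 ⊔ LinearMap.range E2 ⊔ LinearMap.range E3, fun Y => ?_, ?_⟩
  · have e1 : aeval (adL J) (X ^ 2 : K[X]) Y = J * J * Y + (-2 : K) • (J * Y * J) +
        Y * (J * J) := by
      rw [map_pow, aeval_X, pow_two, Module.End.mul_apply, adL_apply, adL_apply, br, br, mul_sub,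
        sub_mul]
      simp only [mul_assoc]
      module
    rw [e1]
    refine Submodule.add_mem _ (Submodule.add_mem _ ?_ ?_) ?_
    · refine Submodule.mem_sup_left (Submodule.mem_sup_left ?_)
      exact ⟨(J * J).rangeRestrict ∘ₗ Y, rfl⟩
    · refine Submodule.mem_sup_left (Submodule.mem_sup_right ?_)
      exact ⟨(-2 : K) • (J.rangeRestrict ∘ₗ Y ∘ₗ W.subtype), rfl⟩
    · refine Submodule.mem_sup_right ?_
      exact ⟨Y ∘ₗ W₂.subtype, rfl⟩
  · have k1 : finrank K (LinearMap.range E1) ≤ finrank K T * finrank K W₂ := by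
      refine (LinearMap.finrank_range_le E1).trans ?_
      rw [finrank_linearMap]
    have k2 : finrank K (LinearMap.range E2) ≤ finrank K W * finrank K W := by
      refine (LinearMap.finrank_range_le E2).trans ?_
      rw [finrank_linearMap]
    have k3 : finrank K (LinearMap.range E3) ≤ finrank K W₂ * finrank K T := by
      refine (LinearMap.finrank_range_le E3).trans ?_
      rw [finrank_linearMap]
    have k4 := Submodule.finrank_add_le_finrank_add_finrank (LinearMap.range E1)
      (LinearMap.range E2)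
    have k5 := Submodule.finrank_add_le_finrank_add_finrank
      (LinearMap.range E1 ⊔ LinearMap.range E2) (LinearMap.range E3)
    have hW : finrank K W * finrank K W ≤ d ^ 2 := by
      rw [pow_two]
      exact Nat.mul_le_mul h1 h1
    have hW1 : finrank K T * finrank K W₂ ≤ d₂ * finrank K T := by
      rw [mul_comm]
      exact Nat.mul_le_mul_right _ h2
    have hW3 : finrank K W₂ * finrank K T ≤ d₂ * finrank K T := Nat.mul_le_mul_right _ h2
    calc _ ≤ _ := k5
      _ ≤ (d₂ * finrank K T + d ^ 2) + d₂ * finrank K T := by omega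
      _ = _ := by ring

/-- a skew operator of rank one -/
theorem exists_rank_one (hsy : ∀ x y, B x y = -B y x) (hnd : ∀ x, (∀ y, B x y = 0) → x = 0)
    {n : Module.End K T} (hsk : ∀ x y, B (n x) y + B x (n y) = 0)
    (hr : finrank K (LinearMap.range n) = 1) :
    ∃ (δ : T) (c : K), δ ≠ 0 ∧ c ≠ 0 ∧ n = c • oo B (-1) δ δ := by
  obtain ⟨⟨δ, hδr⟩, hδ0, hδ⟩ := finrank_eq_one_iff'.1 hr
  have hδ1 : δ ≠ 0 := fun h => hδ0 (Subtype.ext h)
  have h1 : ∀ x, ∃ φ : K, n x = φ • δ := by
    intro x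
    obtain ⟨c, hc⟩ := hδ ⟨n x, x, rfl⟩
    exact ⟨c, (congrArg Subtype.val hc).symm⟩
  choose φ hφ using h1
  obtain ⟨y, hy⟩ := exists_one hsy hnd hδ1
  have hδy : B δ y = -1 := by rw [hsy, hy]
  have h2 : ∀ x, φ x = -(φ y) * B δ x := by
    intro x
    have h3 := hsk x y
    rw [hφ, hφ, map_smul, map_smul, LinearMap.smul_apply, hδy, smul_eq_mul, smul_eq_mul,
      hsy x δ] at h3
    linear_combination -h3
  have hφy : φ y ≠ 0 := by
    intro h0
    obtain ⟨x, hx⟩ := hδr
    apply hδ1
    rw [← hx, hφ, h2, h0, neg_zero, zero_mul, zero_smul]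
  refine ⟨δ, -(φ y) / 2, hδ1, div_ne_zero (neg_ne_zero.2 hφy) two_ne_zero, ?_⟩
  apply LinearMap.ext
  intro x
  rw [LinearMap.smul_apply, sp_apply, hφ, h2, ← add_smul, smul_smul]
  congr 1
  ring

variable {G : Type} [Group G] {ρ : G →* (T →ₗ[K] T)} {μ : G → K}

/-- a translate which is not orthogonal -/
theorem exists_move (hnd : ∀ x, (∀ y, B x y = 0) → x = 0) (hSI : SI ρ) {u : T} (hu : u ≠ 0) :
    ∃ γ, B u (ρ γ u) ≠ 0 := by
  by_contra hcon
  push Not at hcon
  have h1 : ∀ x ∈ Submodule.span K (Set.range fun γ => ρ γ u), B u x = 0 := by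
    intro x hx
    induction hx using Submodule.span_induction with
    | mem x hx => obtain ⟨γ, rfl⟩ := hx; exact hcon γ
    | zero => exact map_zero _
    | add x y _ _ hx hy => rw [map_add, hx, hy, add_zero]
    | smul c x _ hx => rw [map_smul, hx, smul_zero]
  have hmem : u ∈ Submodule.span K (Set.range fun γ => ρ γ u) := by
    refine Submodule.subset_span ⟨1, ?_⟩
    change ρ 1 u = u
    rw [map_one, Module.End.one_apply]
  have hst : ∀ g ∈ (⊤ : Subgroup G), ∀ x ∈ Submodule.span K (Set.range fun γ => ρ γ u),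
      ρ g x ∈ Submodule.span K (Set.range fun γ => ρ γ u) := by
    intro g _ x hx
    induction hx using Submodule.span_induction with
    | mem x hx =>
      obtain ⟨γ, rfl⟩ := hx
      refine Submodule.subset_span ⟨g * γ, ?_⟩
      change ρ (g * γ) u = ρ g (ρ γ u)
      rw [map_mul]
      rfl
    | zero => rw [map_zero]; exact Submodule.zero_mem _
    | add x y _ _ hx hy => rw [map_add]; exact Submodule.add_mem _ hx hy
    | smul c x _ hx => rw [map_smul]; exact Submodule.smul_mem _ _ hx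
  rcases hSI ⊤ inferInstance (Submodule.span K (Set.range fun γ => ρ γ u)) hst with h2 | h2
  · rw [h2, Submodule.mem_bot] at hmem
    exact hu hmem
  · exact hu (hnd u fun y => h1 y (by rw [h2]; exact Submodule.mem_top))

/-- a transvection generates everything -/
theorem full_of_transv {L : Submodule K (Module.End K T)} (hsy : ∀ x y, B x y = -B y x)
    (hnd : ∀ x, (∀ y, B x y = 0) → x = 0)
    (hB : ∀ g x y, B (ρ g x) (ρ g y) = μ g * B x y) (hSI : SI ρ) (hsk : ∀ A ∈ L, Skew B A)
    (hbr : ∀ A ∈ L, ∀ A' ∈ L, br A A' ∈ L)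
    (hconj : ∀ γ : G, ∀ A ∈ L, (ρ γ * A * ρ γ⁻¹ : Module.End K T) ∈ L)
    {δ : T} (hδ : δ ≠ 0) (hL : oo B (-1) δ δ ∈ L) (x y : T) : oo B (-1) x y ∈ L := by
  obtain ⟨γ, hγ⟩ := exists_move (B := B) hnd hSI hδ
  set δ' := ρ γ δ with hδ'
  have hN' : oo B (-1) δ' δ' ∈ L := by
    have h1 : oo B (-1) δ' δ' = μ γ • (ρ γ * oo B (-1) δ δ * ρ γ⁻¹ : Module.End K T) := by
      apply LinearMap.ext
      intro x
      rw [LinearMap.smul_apply, Module.End.mul_apply, Module.End.mul_apply, sp_apply,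
        sp_apply, map_add, map_smul, smul_add, smul_smul, ← hB, rho_inv]
    rw [h1]
    exact L.smul_mem _ (hconj γ _ hL)
  have h2 : oo B (-1) δ δ' ∈ L := by
    have h1 := hbr _ hL _ hN'
    rw [br_oo (sp_skew hsy δ δ)] at h1
    have e1 : oo B (-1) δ δ δ' = (2 * B δ δ') • δ := by
      rw [sp_apply]
      module
    rw [e1, oo_smul_left, oo_smul_right, sp_swap δ δ', ← add_smul] at h1
    have h3 := L.smul_mem (2 * B δ δ' + 2 * B δ δ')⁻¹ h1
    have h4 : 2 * B δ δ' + 2 * B δ δ' ≠ 0 := by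
      intro h0
      apply hγ
      linear_combination h0 / 4
    rwa [smul_smul, inv_mul_cancel₀ h4, one_smul] at h3
  have h4 : B δ' δ ≠ 0 := by rw [hsy]; exact neg_ne_zero.2 hγ
  refine full_of_SI (p := δ) (q := (B δ' δ)⁻¹ • δ') (Or.inr rfl)
    (fun x y => by rw [hsy, neg_one_mul]) hnd hB hSI hsk hbr hconj (alt_self hsy δ)
    (alt_self hsy _) ?_ ?_ x y
  · rw [map_smul, LinearMap.smul_apply, smul_eq_mul, inv_mul_cancel₀ h4]
  · rw [oo_smul_right]
    exact L.smul_mem _ h2

end lin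

section slopes

variable {K : Type} [Field K] [CharZero K] [IsAlgClosed K] {V : Type} [AddCommGroup V]
  [Module K V] [FiniteDimensional K V]

/-- the largest and the smallest slope; the largest one occurs `m` times -/
def TopSlope (v : Additive Kˣ →+ ℚ) (f : V →ₗ[K] V) (a₀ a₁ : ℚ) (m : ℕ) : Prop :=
  (∀ s ∈ slopes v f, a₀ ≤ s ∧ s ≤ a₁) ∧ a₀ ∈ slopes v f ∧ (slopes v f).count a₁ = m

omit [FiniteDimensional K V] in
/-- the hyperbolic pair attached to three slopes -/
theorem sp_hyp_of_three {B : V →ₗ[K] V →ₗ[K] K} (hsy : ∀ x y, B x y = -B y x)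
    (hnd : ∀ x, (∀ y, B x y = 0) → x = 0) {J : V →ₗ[K] V} {lam : K}
    (hB : ∀ x y, B (J x) y + B x (J y) = lam * B x y) {κ : Type} [Fintype κ] {b : Basis κ K V}
    {g : κ → ℚ} (hJ : ∀ k, J (b k) = ((g k : ℚ) : K) • b k) {h c : ℚ} (hc : c ≠ 0) {k1 k2 : κ}
    (h1 : g k1 = h + c) (h2 : g k2 = h - c) (h3 : ∀ k, k ≠ k1 → k ≠ k2 → g k = h) :
    ∃ p q : V, B q p = 1 ∧ J = (c : K) • oo B (-1) p q + (h : K) • (1 : Module.End K V) := by
  have horth : ∀ k l, B (b k) (b l) ≠ 0 → ((g k : ℚ) : K) + g l = lam := by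
    intro k l hkl
    have k1 := hB (b k) (b l)
    rw [hJ, hJ, map_smul, map_smul, LinearMap.smul_apply, smul_eq_mul, smul_eq_mul] at k1
    have k2 : (((g k : ℚ) : K) + g l - lam) * B (b k) (b l) = 0 := by linear_combination k1
    exact sub_eq_zero.1 ((mul_eq_zero.1 k2).resolve_right hkl)
  have hpart : ∀ k, ∃ l, B (b k) (b l) ≠ 0 := by
    intro k
    by_contra hcon
    push Not at hcon
    refine b.ne_zero k (hnd _ fun y => ?_)
    have k1 : B (b k) = 0 := b.ext fun l => by rw [hcon, LinearMap.zero_apply]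
    rw [k1, LinearMap.zero_apply]
  have hne : k1 ≠ k2 := by
    rintro rfl
    rw [h1] at h2
    apply hc
    linarith
  -- the multiplier
  have hlam : lam = 2 * (h : K) := by
    obtain ⟨l1, hl1⟩ := hpart k1
    obtain ⟨l2, hl2⟩ := hpart k2
    have e1 := horth _ _ hl1
    have e2 := horth _ _ hl2
    have e3 : g k1 + g l1 = g k2 + g l2 := by
      have e4 : (((g k1 + g l1 : ℚ)) : K) = ((g k2 + g l2 : ℚ) : K) := by
        push_cast
        rw [e1, e2]
      exact_mod_cast e4
    have hval : ∀ l, g l = h + c ∨ g l = h - c ∨ g l = h := by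
      intro l
      by_cases hl1 : l = k1
      · left; rw [hl1, h1]
      · by_cases hl2 : l = k2
        · right; left; rw [hl2, h2]
        · right; right; exact h3 l hl1 hl2
    rw [h1, h2] at e3
    have e5 : g l1 = h - c := by
      rcases hval l1 with k | k | k <;> rcases hval l2 with k' | k' | k' <;> rw [k, k'] at e3 <;>
        first
        | exact k
        | exact absurd (by linarith : c = 0) hc
    rw [← e1, h1, e5]
    push_cast
    ring
  have hzero : ∀ k l, g k + g l ≠ 2 * h → B (b k) (b l) = 0 := by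
    intro k l hkl
    by_contra hcon
    apply hkl
    have e1 := horth k l hcon
    rw [hlam] at e1
    exact_mod_cast e1
  have h1o : ∀ k, k ≠ k1 → k ≠ k2 → B (b k1) (b k) = 0 := fun k e1 e2 =>
    hzero _ _ (by rw [h1, h3 k e1 e2]; intro h; apply hc; linarith)
  have h2o : ∀ k, k ≠ k1 → k ≠ k2 → B (b k2) (b k) = 0 := fun k e1 e2 =>
    hzero _ _ (by rw [h2, h3 k e1 e2]; intro h; apply hc; linarith)
  have h12 : B (b k1) (b k2) ≠ 0 := by
    obtain ⟨l, hl⟩ := hpart k1
    by_cases e1 : l = k1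
    · rw [e1] at hl
      exact absurd (alt_self hsy _) hl
    · by_cases e2 : l = k2
      · rwa [e2] at hl
      · exact absurd (h1o l e1 e2) hl
  obtain ⟨d, hd⟩ : ∃ d, d = B (b k1) (b k2) := ⟨_, rfl⟩
  have hd0 : d ≠ 0 := by rw [hd]; exact h12
  have h21 : B (b k2) (b k1) = -d := by rw [hsy, hd]
  refine ⟨b k1, (-d⁻¹) • b k2, ?_, ?_⟩
  · rw [map_smul, LinearMap.smul_apply, h21, smul_eq_mul, neg_mul_neg, inv_mul_cancel₀ hd0]
  · apply b.ext
    intro k
    rw [hJ, LinearMap.add_apply, LinearMap.smul_apply, LinearMap.smul_apply, Module.End.one_apply,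
      sp_apply]
    simp only [map_smul, LinearMap.smul_apply]
    by_cases e1 : k = k1
    · rw [e1, alt_self hsy, h21, h1, smul_eq_mul, neg_mul_neg, inv_mul_cancel₀ hd0]
      push_cast
      module
    · by_cases e2 : k = k2
      · rw [e2, alt_self hsy, ← hd, h2, smul_smul d, mul_neg, mul_inv_cancel₀ hd0]
        push_cast
        module
      · rw [h1o k e1 e2, h2o k e1 e2, h3 k e1 e2]
        module

end slopes

end Pool.Agent.Q71.SP
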