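import Pool.Agent.Q71.SP.Lin

/-!
# Members with the whole symplectic Lie algebra
-/

set_option linter.unusedSectionVars false

namespace Pool.Agent.Q71.SP

open Module Finset Function Polynomial Pool.Agent.TH118.SG Pool.Agent.TH125.Gal
  Pool.Agent.Y127.G Pool.Agent.Y127.C

variable {K : Type} [Field K] [CharZero K] {Γ : Type} [Group Γ] {ι : Type}
  {N : ι → FRep K Γ} {t t' : ι}

/-- A member of symplectic type, with the whole symplectic Lie algebra. -/
structure SFul (N : ι → FRep K Γ) (t : ι) extends Frm N t where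
  sy : ∀ x y, B x y = -B y x
  nd : ∀ x, (∀ y, B x y = 0) → x = 0
  p : (N t).V
  p0 : p ≠ 0
  all : ∀ x y, ∃ D ∈ GG N, ∃ a : K, D t = oo B (-1) x y + a • 1

section sful

variable (o : SFul N t) (o' : SFul N t')

/-- **A nonzero ideal is everything.** -/
theorem SFul.ideal {M : Submodule K (∀ i, (N i).V →ₗ[K] (N i).V)} (hM1 : M ≤ GG1 N)
    (hMi : ∀ D ∈ GG N, ∀ D' ∈ M, brk D D' ∈ M) (hne : ∃ D ∈ M, D t ≠ 0) (x y : (N t).V) :
    ∃ D ∈ M, D t = oo o.B (-1) x y := by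
  obtain ⟨D0, hD0, hne⟩ := hne
  refine simple_sp (a := res M t) o.sy o.nd ?_ ?_ (A := D0 t) ⟨D0, hD0, rfl⟩ hne x y
  · rintro _ ⟨D, hD, rfl⟩
    exact o.skew (hM1 hD)
  · rintro u v _ ⟨D, hD, rfl⟩
    obtain ⟨D', hD', a, ha⟩ := o.all u v
    refine ⟨brk D' D, hMi D' hD' D hD, ?_⟩
    change brk D' D t = _
    rw [brk_eq_br, ha, br_scalar_left]
    rfl

/-- two members which do not commute -/
theorem SFul.exists_br_ne : ∃ q : (N t).V,
    br (oo o.B (-1) o.p q) (oo o.B (-1) o.p o.p) ≠ 0 := by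
  obtain ⟨q, hq⟩ := exists_one o.sy o.nd o.p0
  refine ⟨q, ?_⟩
  rw [br_oo (sp_skew o.sy _ _)]
  have e1 : oo o.B (-1) o.p q o.p = o.p := by
    rw [sp_apply, hq, alt_self o.sy, one_smul, zero_smul, add_zero]
  rw [e1, ← two_smul K]
  exact smul_ne_zero two_ne_zero (sp_ne o.sy o.nd o.p0)

theorem SFul.full (x y : (N t).V) : ∃ D ∈ GG1 N, D t = oo o.B (-1) x y := by
  refine o.ideal le_rfl (fun D hD D' hD' => brk_mem1 hD (GG1_le hD')) ?_ x y
  obtain ⟨q, hq⟩ := o.exists_br_ne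
  obtain ⟨D, hD, a, ha⟩ := o.all o.p q
  obtain ⟨D', hD', a', ha'⟩ := o.all o.p o.p
  refine ⟨brk D D', brk_mem1 hD hD', ?_⟩
  rw [brk_eq_br, ha, ha', br_scalar]
  exact hq

theorem SFul.good_all {a : ι} (h : Good N t a) (x y : (N t).V) :
    ∃ D ∈ GG1 N, D a = 0 ∧ D t = oo o.B (-1) x y := by
  obtain ⟨D0, hD0, ha, ht⟩ := h
  obtain ⟨D, hD, hDt⟩ := o.ideal (M := kil N {a}) (fun D hD => hD.1)
    (fun D hD D' hD' => kil_brk hD hD')
    ⟨D0, ⟨hD0, fun b hb => by rw [Set.mem_singleton_iff.1 hb]; exact ha⟩, ht⟩ x y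
  exact ⟨D, hD.1, hD.2 a rfl, hDt⟩

/-- **Goursat.** -/
theorem SFul.good_finset (S : Finset ι) (h : ∀ a ∈ S, Good N t a) (x y : (N t).V) :
    ∃ D ∈ GG1 N, (∀ a ∈ S, D a = 0) ∧ D t = oo o.B (-1) x y := by
  classical
  induction S using Finset.induction_on generalizing x y with
  | empty =>
    obtain ⟨D, hD, hDt⟩ := o.full x y
    exact ⟨D, hD, fun a ha => absurd ha (Finset.notMem_empty a), hDt⟩
  | insert b S hb ih =>
    have h1 : ∀ x y, ∃ D ∈ GG1 N, (∀ a ∈ S, D a = 0) ∧ D t = oo o.B (-1) x y := fun x y =>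
      ih (fun a ha => h a (Finset.mem_insert_of_mem ha)) x y
    have h2 : ∀ x y, ∃ D ∈ GG1 N, D b = 0 ∧ D t = oo o.B (-1) x y := fun x y =>
      o.good_all (h b (Finset.mem_insert_self b S)) x y
    obtain ⟨q, hq⟩ := o.exists_br_ne
    obtain ⟨D, hD, hDS, hDt⟩ := h1 o.p q
    obtain ⟨D', hD', hDb, hDt'⟩ := h2 o.p o.p
    have hm : brk D D' ∈ kil N ((insert b S : Finset ι) : Set ι) := by
      refine ⟨brk_mem1 (GG1_le hD) (GG1_le hD'), fun a ha => ?_⟩
      rcases Finset.mem_insert.1 (Finset.mem_coe.1 ha) with rfl | ha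
      · rw [brk_eq_br, hDb, br_zero_right]
      · rw [brk_eq_br, hDS a ha, br_zero_left]
    have hne : brk D D' t ≠ 0 := by
      rw [brk_eq_br, hDt, hDt']
      exact hq
    obtain ⟨D'', hD'', hDt''⟩ := o.ideal (M := kil N ((insert b S : Finset ι) : Set ι))
      (fun D hD => hD.1) (fun D hD D' hD' => kil_brk hD hD') ⟨brk D D', hm, hne⟩ x y
    exact ⟨D'', hD''.1, fun a ha => hD''.2 a (Finset.mem_coe.2 ha), hDt''⟩

/-- the dimension of the Lie algebra -/
theorem SFul.dim : ∑ i ∈ range (finrank K (N t).V + 1), i ≤ finrank K (SkewS o.B) :=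
  le_finrank_sp o.sy o.nd (Module.finBasis K (N t).V).linearIndependent
    fun _ _ => sp_skew o.sy _ _

include o in
/-- the dimension criterion -/
theorem SFul.good_of_lt {a : ι} (W : Submodule K (Module.End K (N a).V))
    (hW : ∀ D ∈ GG1 N, D a ∈ W)
    (hdim : finrank K W < ∑ i ∈ range (finrank K (N t).V + 1), i) : Good N t a := by
  by_contra hcon
  have h0 : ∀ D ∈ GG1 N, D a = 0 → D t = 0 := by
    intro D hD ha
    by_contra ht
    exact hcon ⟨D, hD, ha, ht⟩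
  let f : GG1 N →ₗ[K] Module.End K (N a).V :=
    (LinearMap.proj a : (∀ i, (N i).V →ₗ[K] (N i).V) →ₗ[K] _) ∘ₗ (GG1 N).subtype
  let g : GG1 N →ₗ[K] Module.End K (N t).V :=
    (LinearMap.proj t : (∀ i, (N i).V →ₗ[K] (N i).V) →ₗ[K] _) ∘ₗ (GG1 N).subtype
  obtain ⟨Φ, hΦ⟩ := exists_factor f g fun x hx => h0 x.1 x.2 hx
  have hΦ' : ∀ D ∈ GG1 N, Φ (D a) = D t := fun D hD => hΦ ⟨D, hD⟩
  have hle : SkewS o.B ≤ W.map Φ := by
    intro X hX
    obtain ⟨D, hD, hDt⟩ := skew_mem_sp (a := res (GG1 N) t) o.sy o.nd (fun x y => o.full x y) hX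
    exact ⟨D a, hW D hD, by rw [hΦ' D hD]; exact hDt⟩
  have h2 := Submodule.finrank_mono hle
  have h3 := Submodule.finrank_map_le Φ W
  have h4 := o.dim
  omega

include o in
/-- **The criterion for symmetric forms.** -/
theorem SFul.good_of_sym {a : ι} (f : Frm N a) (hsy : ∀ x y, f.B x y = f.B y x)
    (hnd : ∀ x, (∀ y, f.B x y = 0) → x = 0) (hdim : finrank K (N a).V ≤ finrank K (N t).V) :
    Good N t a := by
  refine o.good_of_lt (SkewS f.B) (fun D hD => f.skew hD) ?_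
  have h1 := finrank_skew_le_sym hsy hnd
  have hp : 0 < finrank K (N t).V := by
    rw [Module.finrank_pos_iff_exists_ne_zero]
    exact ⟨o.p, o.p0⟩
  have h5 : ∑ i ∈ range (finrank K (N a).V), i < ∑ i ∈ range (finrank K (N t).V + 1), i :=
    Finset.sum_lt_sum_of_subset (i := finrank K (N t).V) (Finset.range_mono (by omega))
      (Finset.mem_range.2 (Nat.lt_succ_self _)) (fun h => absurd (Finset.mem_range.1 h) (by omega))
      hp fun _ _ _ => Nat.zero_le _
  omega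

include o in
/-- **The criterion for alternating forms.** -/
theorem SFul.good_of_alt {a : ι} (f : Frm N a) (hsy : ∀ x y, f.B x y = -f.B y x)
    (hnd : ∀ x, (∀ y, f.B x y = 0) → x = 0) (hdim : finrank K (N a).V < finrank K (N t).V) :
    Good N t a := by
  refine o.good_of_lt (SkewS f.B) (fun D hD => f.skew hD) ?_
  have h1 := finrank_skew_le_alt hsy hnd
  have h5 := sum_lt (m := finrank K (N a).V + 1) (n := finrank K (N t).V + 1) (by omega)
    (Nat.succ_pos _)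
  omega

include o in
/-- **The criterion without forms.** -/
theorem SFul.good_of_small {a : ι}
    (hdim : finrank K (N a).V ^ 2 < ∑ i ∈ range (finrank K (N t).V + 1), i) :
    Good N t a := by
  refine o.good_of_lt ⊤ (fun D hD => Submodule.mem_top) ?_
  rw [finrank_top]
  have h1 : finrank K (Module.End K (N a).V) = finrank K (N a).V ^ 2 := by
    rw [show finrank K (Module.End K (N a).V) = finrank K ((N a).V →ₗ[K] (N a).V) from rfl,
      finrank_linearMap, pow_two]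
  omega

include o o' in
/-- symmetry -/
theorem SFul.good_symm (h : Good N t' t) : Good N t t' := by
  by_contra hng
  have h0 : ∀ D ∈ GG1 N, D t' = 0 → D t = 0 := by
    intro D hD ha
    by_contra ht
    exact hng ⟨D, hD, ha, ht⟩
  -- everything on `t'` can be killed on `t`
  have h2 : ∀ X : Module.End K (N t').V, Skew o'.B X → ∃ D ∈ kil N {t}, D t' = X := fun X hX =>
    skew_mem_sp (a := res (kil N {t}) t') o'.sy o'.nd (fun x y => by
      obtain ⟨D, hD, hDt, hDt'⟩ := o'.good_all h x y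
      exact ⟨D, ⟨hD, fun a ha => by rw [Set.mem_singleton_iff.1 ha]; exact hDt⟩, hDt'⟩) hX
  obtain ⟨D1, hD1, hD1t⟩ := o.full o.p o.p
  obtain ⟨D2, hD2, hD2t⟩ := h2 _ (o'.skew hD1)
  have h3 := h0 (D1 - D2) ((GG1 N).sub_mem hD1 hD2.1) (by rw [Pi.sub_apply, hD2t, sub_self])
  rw [Pi.sub_apply, hD2.2 t rfl, sub_zero, hD1t] at h3
  exact sp_ne o.sy o.nd o.p0 h3

/-- the factorization -/
theorem good_factor {a : ι} {J : ∀ i, (N i).V →ₗ[K] (N i).V} (hJ : J ∈ GG N) (R : K[X])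
    {E : Submodule K (Module.End K (N a).V)}
    (hE : ∀ D ∈ GG1 N, aeval (adL (J a)) R (D a) ∈ E) (hng : ¬Good N t a) :
    ∃ V : Submodule K (Module.End K (N t).V), finrank K V ≤ finrank K E ∧
      ∀ D ∈ GG1 N, aeval (adL (J t)) R (D t) ∈ V := by
  have h0 : ∀ D ∈ GG1 N, D a = 0 → D t = 0 := by
    intro D hD ha
    by_contra ht
    exact hng ⟨D, hD, ha, ht⟩
  let f : GG1 N →ₗ[K] Module.End K (N a).V :=
    aeval (adL (J a)) R ∘ₗ (LinearMap.proj a : (∀ i, (N i).V →ₗ[K] (N i).V) →ₗ[K] _) ∘ₗ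
      (GG1 N).subtype
  let g : GG1 N →ₗ[K] Module.End K (N t).V :=
    aeval (adL (J t)) R ∘ₗ (LinearMap.proj t : (∀ i, (N i).V →ₗ[K] (N i).V) →ₗ[K] _) ∘ₗ
      (GG1 N).subtype
  obtain ⟨Φ, hΦ⟩ := exists_factor f g fun D hD => by
    obtain ⟨D', hD', he⟩ := poly_AD hJ R D.1 D.2
    have h1 : D' a = 0 := by rw [he]; exact hD
    have h2 := h0 D' hD' h1
    rw [he] at h2
    exact h2
  refine ⟨E.map Φ, Submodule.finrank_map_le Φ E, fun D hD => ?_⟩
  exact ⟨f ⟨D, hD⟩, hE D hD, hΦ ⟨D, hD⟩⟩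

end sful

end Pool.Agent.Q71.SP
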