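import Pool.Agent.Y127.C.Eich
import Pool.Agent.Y127.G.Slope
import Pool.Agent.Q71.TM.Lin

/-!
# The symplectic Lie algebra
-/

set_option linter.unusedSectionVars false

namespace Pool.Agent.Q71.SP

open Module Finset Function Pool.Agent.TH118.SG Pool.Agent.TH125.Gal Pool.Agent.Y127.G
  Pool.Agent.Y127.C

section lin

variable {K : Type} [Field K] [CharZero K] {T : Type} [AddCommGroup T] [Module K T]
  {B : T →ₗ[K] T →ₗ[K] K}

theorem sp_apply (u v x : T) : oo B (-1) u v x = B v x • u + B u x • v := by
  rw [oo_apply]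
  module

theorem sp_swap (u v : T) : oo B (-1) v u = oo B (-1) u v := by
  apply LinearMap.ext
  intro x
  rw [sp_apply, sp_apply, add_comm]

variable (hsy : ∀ x y, B x y = -B y x)

include hsy

theorem alt_self (x : T) : B x x = 0 := by
  have h1 := hsy x x
  have h2 : (2 : K) * B x x = 0 := by linear_combination h1
  exact (mul_eq_zero.1 h2).resolve_left two_ne_zero

theorem sp_skew (u v : T) : Skew B (oo B (-1) u v) :=
  oo_skew (by norm_num) (fun x y => by rw [hsy, neg_one_mul]) u v

variable (hnd : ∀ x, (∀ y, B x y = 0) → x = 0)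

include hnd

theorem exists_one {x : T} (hx : x ≠ 0) : ∃ y, B y x = 1 := by
  obtain ⟨y, hy⟩ : ∃ y, B x y ≠ 0 := by
    by_contra hcon
    push Not at hcon
    exact hx (hnd x hcon)
  have h1 : B y x ≠ 0 := by rw [hsy]; exact neg_ne_zero.2 hy
  refine ⟨(B y x)⁻¹ • y, ?_⟩
  rw [map_smul, LinearMap.smul_apply, smul_eq_mul, inv_mul_cancel₀ h1]

theorem sp_ne {x : T} (hx : x ≠ 0) : oo B (-1) x x ≠ 0 := by
  obtain ⟨y, hy⟩ := exists_one hsy hnd hx
  intro h0
  have h1 := LinearMap.congr_fun h0 y
  rw [sp_apply, hsy x y, hy, LinearMap.zero_apply] at h1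
  have h2 : (-2 : K) • x = 0 := by rw [← h1]; module
  exact hx ((smul_eq_zero.1 h2).resolve_left (by norm_num))

variable {a : Submodule K (Module.End K T)} (hsk : ∀ A ∈ a, Skew B A)
  (hid : ∀ u v : T, ∀ A ∈ a, br (oo B (-1) u v) A ∈ a)

include hsk hid in
omit hsy hnd in
theorem sp_add_mem {A : Module.End K T} (hA : A ∈ a) (u v : T) :
    oo B (-1) (A u) v + oo B (-1) u (A v) ∈ a := by
  have h1 := hid u v A hA
  have h2 : br (oo B (-1) u v) A = -br A (oo B (-1) u v) := by
    rw [br, br]
    abel
  rw [h2, br_oo (hsk A hA)] at h1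
  exact (Submodule.neg_mem_iff _).1 h1

omit hsy hnd in
theorem half_mem {X : Module.End K T} (h : X + X ∈ a) : X ∈ a := by
  rw [← two_smul K] at h
  have h2 := a.smul_mem (2 : K)⁻¹ h
  rwa [smul_smul, inv_mul_cancel₀ two_ne_zero, one_smul] at h2

include hsk hid in
/-- **Nonzero ideals of the symplectic Lie algebra.** -/
theorem simple_sp {A : Module.End K T} (hA : A ∈ a) (hA0 : A ≠ 0) (x y : T) :
    oo B (-1) x y ∈ a := by
  -- a vector with `B v (A v) ≠ 0`
  obtain ⟨v, hv⟩ : ∃ v, B v (A v) ≠ 0 := by
    by_contra hcon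
    push Not at hcon
    apply hA0
    apply LinearMap.ext
    intro w
    have h1 : ∀ v, B v (A w) = 0 := by
      intro v
      have h2 := hcon (v + w)
      simp only [map_add, LinearMap.add_apply] at h2
      rw [hcon v, hcon w] at h2
      have h3 := hsk A hA v w
      rw [hsy (A v) w] at h3
      have h4 : (2 : K) * B v (A w) = 0 := by linear_combination h2 + h3
      exact (mul_eq_zero.1 h4).resolve_left two_ne_zero
    refine hnd _ fun y => ?_
    rw [hsy, h1, neg_zero]
  -- the square of `v`
  have h1 : oo B (-1) v (A v) ∈ a := by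
    have h2 := sp_add_mem hsk hid hA v v
    rw [sp_swap v (A v)] at h2
    exact half_mem h2
  have h2 : oo B (-1) v v ∈ a := by
    have h3 := sp_add_mem hsk hid h1 v v
    rw [sp_swap v (oo B (-1) v (A v) v)] at h3
    have h4 := half_mem h3
    rw [sp_apply, alt_self hsy, zero_smul, add_zero, oo_smul_right] at h4
    have h5 : B (A v) v ≠ 0 := by rw [hsy]; exact neg_ne_zero.2 hv
    have h6 := a.smul_mem (B (A v) v)⁻¹ h4
    rwa [smul_smul, inv_mul_cancel₀ h5, one_smul] at h6
  have hv0 : v ≠ 0 := by
    rintro rfl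
    rw [map_zero, LinearMap.zero_apply] at hv
    exact hv rfl
  obtain ⟨w, hw⟩ := exists_one hsy hnd hv0
  have hvw : B v w = -1 := by rw [hsy, hw]
  -- products with `v`
  have h3 : ∀ u, oo B (-1) u v ∈ a := by
    have key : ∀ u u', (2 * B v u) • oo B (-1) v u' + (2 * B v u') • oo B (-1) u v ∈ a := by
      intro u u'
      have h4 := sp_add_mem hsk hid h2 u u'
      rw [sp_apply, sp_apply, ← add_smul, ← add_smul, ← two_mul, ← two_mul, oo_smul_left,
        oo_smul_right] at h4
      exact h4
    have h4 : oo B (-1) v w ∈ a := by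
      have h5 := key w w
      rw [sp_swap v w] at h5
      have h6 := half_mem h5
      have h7 := a.smul_mem (2 * B v w)⁻¹ h6
      rwa [smul_smul, inv_mul_cancel₀ (by rw [hvw]; norm_num), one_smul] at h7
    intro u
    have h5 := key u w
    have h6 := a.sub_mem h5 (a.smul_mem (2 * B v u) h4)
    rw [add_sub_cancel_left] at h6
    have h7 := a.smul_mem (2 * B v w)⁻¹ h6
    rwa [smul_smul, inv_mul_cancel₀ (by rw [hvw]; norm_num), one_smul] at h7
  -- all products
  have key : ∀ x u y, B v u • oo B (-1) x y + B x u • oo B (-1) v y +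
      (B v y • oo B (-1) u x + B x y • oo B (-1) u v) ∈ a := by
    intro x u y
    have h4 := sp_add_mem hsk hid (h3 x) u y
    rwa [sp_apply, sp_apply, oo_add_left, oo_add_right, oo_smul_left, oo_smul_left,
      oo_smul_right, oo_smul_right] at h4
  have h5 : ∀ x u y, B v u • oo B (-1) x y + B v y • oo B (-1) u x ∈ a := by
    intro x u y
    have h4 := a.sub_mem (a.sub_mem (key x u y) (a.smul_mem (B x u) (h3 y)))
      (a.smul_mem (B x y) (h3 u))
    have e : B v u • oo B (-1) x y + B x u • oo B (-1) v y +
      (B v y • oo B (-1) u x + B x y • oo B (-1) u v) - B x u • oo B (-1) y v -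
      B x y • oo B (-1) u v = B v u • oo B (-1) x y + B v y • oo B (-1) u x := by
      rw [sp_swap v y]
      abel
    rwa [e] at h4
  have h6 : oo B (-1) x w ∈ a := by
    have h4 := h5 x w w
    rw [sp_swap x w] at h4
    have h7 := half_mem h4
    have h8 := a.smul_mem (B v w)⁻¹ h7
    rwa [smul_smul, inv_mul_cancel₀ (by rw [hvw]; norm_num), one_smul] at h8
  have h7 := a.sub_mem (h5 x w y) (a.smul_mem (B v y) h6)
  rw [sp_swap x w, add_sub_cancel_right] at h7
  have h8 := a.smul_mem (B v w)⁻¹ h7
  rwa [smul_smul, inv_mul_cancel₀ (by rw [hvw]; norm_num), one_smul] at h8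

/-- skew operators are sums of products -/
theorem skew_mem_sp [Module.Finite K T] (ha : ∀ x y, oo B (-1) x y ∈ a) {X : Module.End K T}
    (hX : Skew B X) : X ∈ a := by
  classical
  let b := Module.finBasis K T
  have hinj : Function.Injective B := by
    rw [← LinearMap.ker_eq_bot, LinearMap.ker_eq_bot']
    intro x hx
    exact hnd x fun y => by rw [hx, LinearMap.zero_apply]
  have hsurj : Function.Surjective (B : T →ₗ[K] Module.Dual K T) :=
    (LinearMap.injective_iff_surjective_of_finrank_eq_finrank
      (Subspace.dual_finrank_eq (K := K) (V := T)).symm).1 hinj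
  choose b' hb' using fun i => hsurj (b.coord i)
  -- `X = ½ ∑ (X b_i) b'_i`
  have h1 : X + X = ∑ i, oo B (-1) (X (b i)) (b' i) := by
    have e1 : ∀ x, ∑ i, B (b' i) x • b i = x := by
      intro x
      conv_rhs => rw [← b.sum_repr x]
      refine Finset.sum_congr rfl fun i _ => ?_
      rw [hb', Basis.coord_apply]
    apply LinearMap.ext
    intro x
    rw [LinearMap.add_apply, LinearMap.sum_apply]
    simp only [sp_apply, Finset.sum_add_distrib]
    congr 1
    · conv_lhs => rw [← e1 x, map_sum]
      refine Finset.sum_congr rfl fun i _ => ?_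
      rw [map_smul]
    · -- `∑ B (X b_i) x • b'_i = X x`
      apply hinj
      apply b.ext
      intro j
      rw [map_sum, LinearMap.sum_apply, Finset.sum_eq_single j]
      · rw [map_smul, LinearMap.smul_apply, hb', Basis.coord_apply, b.repr_self,
          Finsupp.single_eq_same, smul_eq_mul, mul_one]
        have h2 := hX (b j) x
        rw [hsy (X x) (b j)]
        linear_combination -h2
      · intro i _ hij
        rw [map_smul, LinearMap.smul_apply, hb', Basis.coord_apply, b.repr_self,
          Finsupp.single_eq_of_ne hij, smul_zero]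
      · exact fun h => absurd (Finset.mem_univ j) h
  have h2 : X + X ∈ a := by
    rw [h1]
    exact a.sum_mem fun i _ => ha _ _
  rw [← two_smul K] at h2
  have h3 := a.smul_mem (2 : K)⁻¹ h2
  rwa [smul_smul, inv_mul_cancel₀ two_ne_zero, one_smul] at h3

/-- **Counting.** -/
theorem le_finrank_sp [Module.Finite K T] {m : ℕ} {e : Fin m → T} (he : LinearIndependent K e)
    {W : Submodule K (Module.End K T)} (hW : ∀ i j, oo B (-1) (e i) (e j) ∈ W) :
    ∑ i ∈ range (m + 1), i ≤ finrank K W := by
  classical
  have hinj : Function.Injective B := by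
    rw [← LinearMap.ker_eq_bot, LinearMap.ker_eq_bot']
    intro x hx
    exact hnd x fun y => by rw [hx, LinearMap.zero_apply]
  have hsurj : Function.Surjective (B : T →ₗ[K] Module.Dual K T) :=
    (LinearMap.injective_iff_surjective_of_finrank_eq_finrank
      (Subspace.dual_finrank_eq (K := K) (V := T)).symm).1 hinj
  -- the dual vectors
  obtain ⟨g, hg⟩ := LinearMap.exists_leftInverse_of_injective
    (Fintype.linearCombination K e) (by
      rw [LinearMap.ker_eq_bot']
      intro c hc
      rw [Fintype.linearCombination_apply] at hc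
      exact funext (Fintype.linearIndependent_iff.1 he c hc))
  have hg' : ∀ i j, g (e j) i = if j = i then 1 else 0 := by
    intro i j
    have h1 := LinearMap.congr_fun hg (Pi.single j 1)
    rw [LinearMap.comp_apply, Fintype.linearCombination_apply_single, one_smul] at h1
    rw [h1, LinearMap.id_apply, Pi.single_apply]
    by_cases h : i = j
    · rw [if_pos h, if_pos h.symm]
    · rw [if_neg h, if_neg fun e => h e.symm]
  choose c hc using fun i => hsurj ((LinearMap.proj i : (Fin m → K) →ₗ[K] K) ∘ₗ g)
  have hbb : ∀ i j, B (e j) (-c i) = if j = i then 1 else 0 := by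
    intro i j
    rw [map_neg, hsy, neg_neg, hc, LinearMap.comp_apply, LinearMap.proj_apply, hg']
  rw [← card_le]
  let v : {x : Fin m × Fin m // x.1 ≤ x.2} → W := fun x => ⟨oo B (-1) (e x.1.1) (e x.1.2), hW _ _⟩
  have hv : LinearIndependent K v := by
    rw [Fintype.linearIndependent_iff]
    intro g hg x
    have h1 : ∑ y, g y • oo B (-1) (e y.1.1) (e y.1.2) = 0 := by
      have h2 := congrArg Subtype.val hg
      rw [AddSubmonoidClass.coe_finsetSum] at h2
      exact h2
    have h2 := congrArg (fun A : Module.End K T => B (A (-c x.1.2)) (-c x.1.1)) h1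
    simp only [LinearMap.sum_apply, LinearMap.smul_apply, map_sum, map_smul, sp_apply, map_add,
      LinearMap.add_apply, smul_eq_mul, hbb, LinearMap.zero_apply, map_zero] at h2
    rw [Finset.sum_eq_single x] at h2
    · rw [if_pos rfl, if_pos rfl, mul_one] at h2
      have h3 : (1 : K) + (if x.1.1 = x.1.2 then 1 else 0) * (if x.1.2 = x.1.1 then 1 else 0) ≠
          0 := by
        by_cases h4 : x.1.1 = x.1.2
        · rw [if_pos h4, if_pos h4.symm, mul_one]
          norm_num
        · rw [if_neg h4, zero_mul, add_zero]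
          exact one_ne_zero
      exact (mul_eq_zero.1 h2).resolve_right h3
    · intro y _ hyx
      have k1 : ((if y.1.2 = x.1.2 then (1 : K) else 0) * if y.1.1 = x.1.1 then 1 else 0) = 0 := by
        by_cases h3 : y.1.2 = x.1.2
        · by_cases h4 : y.1.1 = x.1.1
          · exact absurd (Subtype.ext (Prod.ext h4 h3)) hyx
          · rw [if_neg h4, mul_zero]
        · rw [if_neg h3, zero_mul]
      have k2 : ((if y.1.1 = x.1.2 then (1 : K) else 0) * if y.1.2 = x.1.1 then 1 else 0) = 0 := by
        by_cases h3 : y.1.1 = x.1.2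
        · by_cases h4 : y.1.2 = x.1.1
          · exfalso
            apply hyx
            have h5 := y.2
            have h6 := x.2
            rw [h3, h4] at h5
            have h7 : x.1.1 = x.1.2 := le_antisymm h6 h5
            exact Subtype.ext (Prod.ext (h3.trans h7.symm) (h4.trans h7))
          · rw [if_neg h4, mul_zero]
        · rw [if_neg h3, zero_mul]
      rw [k1, k2, add_zero, mul_zero]
    · exact fun h => absurd (Finset.mem_univ x) h
  exact hv.fintype_card_le_finrank

end lin

end Pool.Agent.Q71.SP
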