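import Pool.Agent.Q71.SP.Crit

/-!
# Members of symplectic type and the criteria
-/

set_option linter.unusedSectionVars false

namespace Pool.Agent.Q71.SP

open Module Finset Function Polynomial Pool.Agent.TH118.SG Pool.Agent.TH125.Gal
  Pool.Agent.Y127.G Pool.Agent.Y127.C

variable {K : Type} [Field K] [CharZero K] [IsAlgClosed K] {Γ : Type} [Group Γ] {ι : Type}
  {N : ι → FRep K Γ} {t t' : ι}

/-- **A hyperbolic operator in the Lie algebra.** -/
theorem exists_SFul_hyp {fr : Frm N t} (sy : ∀ x y, fr.B x y = -fr.B y x)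
    (nd : ∀ x, (∀ y, fr.B x y = 0) → x = 0) (si : SI (N t).ρ) {p q : (N t).V}
    (hqp : fr.B q p = 1) (hH : oo fr.B (-1) p q ∈ frL fr) : ∃ o : SFul N t, o.toFrm = fr := by
  have hp0 : p ≠ 0 := by
    rintro rfl
    rw [map_zero] at hqp
    exact zero_ne_one hqp
  refine ⟨⟨fr, sy, nd, p, hp0, fun x y => ?_⟩, rfl⟩
  exact (full_of_SI (L := frL fr) (ρ := (N t).ρ) (μ := fr.μ) (Or.inr rfl)
    (fun x y => by rw [sy, neg_one_mul]) nd fr.eqv si (fun A hA => hA.1) (frL_br fr) (frL_conj fr)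
    (alt_self sy p) (alt_self sy q) hqp hH x y).2

/-- **A transvection in the group.** -/
theorem exists_SFul_transv {fr : Frm N t} (sy : ∀ x y, fr.B x y = -fr.B y x)
    (nd : ∀ x, (∀ y, fr.B x y = 0) → x = 0) (si : SI (N t).ρ) {h : Γ}
    (h2 : ((N t).ρ h - 1) ^ 2 = 0) (h1 : finrank K (LinearMap.range ((N t).ρ h - 1)) = 1) :
    ∃ o : SFul N t, o.toFrm = fr := by
  obtain ⟨J, hJG, hJ⟩ := exists_GGlog N h
  have hJt : J t = (N t).ρ h - 1 := by rw [hJ t 2 h2, lg_two]
  obtain ⟨a, ha⟩ := fr.der hJG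
  have hsk : ∀ x y, fr.B (J t x) y + fr.B x (J t y) = 0 :=
    Pool.Agent.Q71.TM.skew_of_nil nd ha (n := 2) (by rw [hJt]; exact h2)
  obtain ⟨δ, c, hδ, hc, hn⟩ := exists_rank_one sy nd hsk (by rw [hJt]; exact h1)
  have hL : oo fr.B (-1) δ δ ∈ frL fr := by
    refine ⟨sp_skew sy δ δ, c⁻¹ • J, (GG N).smul_mem _ hJG, 0, ?_⟩
    rw [Pi.smul_apply, hn, smul_smul, inv_mul_cancel₀ hc, one_smul, zero_smul, add_zero]
  refine ⟨⟨fr, sy, nd, δ, hδ, fun x y => ?_⟩, rfl⟩
  exact (full_of_transv (L := frL fr) (ρ := (N t).ρ) (μ := fr.μ) sy nd fr.eqv si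
    (fun A hA => hA.1) (frL_br fr) (frL_conj fr) hδ hL x y).2

/-- the slopes `h + c`, `h - c` once each and `h` -/
theorem exists_slope_pair {fr : Frm N t} (sy : ∀ x y, fr.B x y = -fr.B y x)
    (nd : ∀ x, (∀ y, fr.B x y = 0) → x = 0) (v : Additive Kˣ →+ ℚ) (F : Γ)
    {J : ∀ i, (N i).V →ₗ[K] (N i).V} (hJG : J ∈ GG N)
    (hJ : ∀ i β, ∀ x ∈ Module.End.maxGenEigenspace ((N i).ρ F) β, J i x = ext0 (toK v) β • x)
    {h c : ℚ} (hc : c ≠ 0) (hK : K3Slopes v ((N t).ρ F) h c) :
    ∃ p q, fr.B q p = 1 ∧ J t = (c : K) • oo fr.B (-1) p q + (h : K) • (1 : Module.End K _) := by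
  obtain ⟨κ, hκ, b, g, hb, hg⟩ := exists_slope_basis v ((N t).ρ F) (hJ t)
  rw [hK] at hg
  obtain ⟨k1, k2, -, h1, h2, h3⟩ := three hg
  obtain ⟨lam, hlam⟩ := fr.der hJG
  exact sp_hyp_of_three sy nd hlam hb hc h1 h2 h3

/-- **Slopes.** -/
theorem exists_SFul_slopes {fr : Frm N t} (sy : ∀ x y, fr.B x y = -fr.B y x)
    (nd : ∀ x, (∀ y, fr.B x y = 0) → x = 0) (si : SI (N t).ρ) (v : Additive Kˣ →+ ℚ) (F : Γ)
    {h c : ℚ} (hc : c ≠ 0) (hK : K3Slopes v ((N t).ρ F) h c) :
    ∃ o : SFul N t, o.toFrm = fr := by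
  obtain ⟨J, hJG, hJ⟩ := exists_GG N (toK v) F
  obtain ⟨p, q, hqp, hJt⟩ := exists_slope_pair sy nd v F hJG hJ hc hK
  have hcK : (c : K) ≠ 0 := Rat.cast_ne_zero.2 hc
  refine exists_SFul_hyp sy nd si hqp ⟨sp_skew sy p q, (c : K)⁻¹ • J, (GG N).smul_mem _ hJG,
    (c : K)⁻¹ * h, ?_⟩
  rw [Pi.smul_apply, hJt, smul_add, smul_smul, smul_smul, inv_mul_cancel₀ hcK, one_smul]

section

variable (o : SFul N t)

include o in
/-- **Unipotent elements.** -/
theorem SFul.good_unip {g : Γ} (hg : ((N t).ρ g - 1) ^ 2 = 0) {a : ι} {k : ℕ}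
    (ha : ((N a).ρ g - 1) ^ k = 0)
    (hdim : 2 * (finrank K (LinearMap.range ((N a).ρ g - 1)) ^ 2 +
      2 * finrank K (LinearMap.range (((N a).ρ g - 1) ^ 2)) * finrank K (N a).V) <
      finrank K (LinearMap.range ((N t).ρ g - 1)) *
        (finrank K (LinearMap.range ((N t).ρ g - 1)) + 1)) : Good N t a := by
  by_contra hng
  obtain ⟨J, hJG, hJ⟩ := exists_GGlog N g
  have hJt : J t = (N t).ρ g - 1 := by rw [hJ t 2 hg, lg_two]
  have hJa : J a = lg k ((N a).ρ g) := hJ a k ha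
  obtain ⟨V, hV1, hV2⟩ := lg_factor k ((N a).ρ g)
  obtain ⟨E, hE, hEd⟩ := ad_sq_bound (J a)
    (d := finrank K (LinearMap.range ((N a).ρ g - 1)))
    (d₂ := finrank K (LinearMap.range (((N a).ρ g - 1) ^ 2)))
    (by rw [hJa, hV1]; exact Submodule.finrank_mono (range_mul_le _ _))
    (by rw [hJa, hV2]; exact Submodule.finrank_mono (range_mul_le _ _))
  obtain ⟨W, hW1, hW2⟩ := good_factor (t := t) hJG (Polynomial.X ^ 2) (fun D _ => hE (D a)) hng
  -- the range of `g - 1`
  obtain ⟨n, hn⟩ : ∃ n : Module.End K (N t).V, n = J t := ⟨_, rfl⟩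
  have hn2 : n * n = 0 := by rw [hn, hJt, ← pow_two]; exact hg
  have hsk : Skew o.B n := by
    obtain ⟨c, hc⟩ := o.toFrm.der hJG
    exact Pool.Agent.Q71.TM.skew_of_nil o.nd (by rw [hn]; exact hc) (n := 2)
      (by rw [pow_two]; exact hn2)
  let e0 := Module.finBasis K (LinearMap.range n)
  have he : LinearIndependent K (fun i => (e0 i : (N t).V)) :=
    e0.linearIndependent.map' (LinearMap.range n).subtype (Submodule.ker_subtype _)
  have h1 := le_finrank_sp o.sy o.nd he (W := W) (by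
    intro i j
    obtain ⟨x, hx⟩ := (e0 i).2
    obtain ⟨y, hy⟩ := (e0 j).2
    obtain ⟨D, hD, hDt⟩ := o.full x y
    have h2 := hW2 D hD
    have e1 : aeval (adL (J t)) (Polynomial.X ^ 2 : K[X]) (D t) = br (J t) (br (J t) (D t)) := by
      rw [map_pow, aeval_X, pow_two, Module.End.mul_apply, adL_apply, adL_apply]
    rw [e1, hDt, ← hn, br_oo hsk, br_add, br_oo hsk, br_oo hsk] at h2
    have e2 : ∀ z, n (n z) = 0 := fun z => LinearMap.congr_fun hn2 z
    rw [e2, e2, oo_zero_left, oo_zero_right, zero_add, add_zero, hx, hy] at h2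
    exact half_mem h2)
  have e3 : finrank K (LinearMap.range n) = finrank K (LinearMap.range ((N t).ρ g - 1)) := by
    rw [hn, hJt]
  rw [e3] at h1
  have h4 := Finset.sum_range_id_mul_two
    (finrank K (LinearMap.range ((N t).ρ g - 1)) + 1)
  rw [Nat.add_sub_cancel] at h4
  have h5 : (finrank K (LinearMap.range ((N t).ρ g - 1)) + 1) *
      finrank K (LinearMap.range ((N t).ρ g - 1)) =
      finrank K (LinearMap.range ((N t).ρ g - 1)) *
        (finrank K (LinearMap.range ((N t).ρ g - 1)) + 1) := mul_comm _ _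
  omega

theorem gap_count {a : ι} {v : Additive Kˣ →+ ℚ} {F : Γ} {κ : Type} [Fintype κ] {g : κ → ℚ}
    (hgs : (univ : Finset κ).val.map g = slopes v ((N a).ρ F)) (c : ℚ)
    [DecidablePred fun x : κ × κ => ((g x.1 : ℚ) : K) = ((g x.2 : ℚ) : K) + (c : K)] :
    Fintype.card {x : κ × κ // ((g x.1 : ℚ) : K) = ((g x.2 : ℚ) : K) + (c : K)} =
      gaps (slopes v ((N a).ρ F)) c := by
  classical
  rw [← hgs, gaps, Fintype.card_subtype, Finset.card_def, Finset.filter_val,
    ← Finset.univ_product_univ, Finset.product_val]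
  have h1 : ∀ x y : Multiset κ, x.map g ×ˢ y.map g = (x ×ˢ y).map (Prod.map g g) := by
    intro x y
    induction x using Multiset.induction_on with
    | empty => rw [Multiset.map_zero, Multiset.zero_product, Multiset.zero_product,
        Multiset.map_zero]
    | cons a x ih =>
      rw [Multiset.map_cons, Multiset.cons_product, Multiset.cons_product, Multiset.map_add, ih,
        Multiset.map_map, Multiset.map_map]
      rfl
  rw [h1, Multiset.countP_map]
  congr 1
  refine Multiset.filter_congr fun x _ => ?_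
  change ((g x.1 : ℚ) : K) = (g x.2 : K) + c ↔ g x.1 = g x.2 + c
  constructor
  · intro h
    exact_mod_cast h
  · intro h
    exact_mod_cast h

/-- the part of the Lie algebra of weight `c` -/
theorem SFul.slope_part {a : ι} (v : Additive Kˣ →+ ℚ) (F : Γ)
    {J : ∀ i, (N i).V →ₗ[K] (N i).V} (hJG : J ∈ GG N)
    (hJ : ∀ i β, ∀ x ∈ Module.End.maxGenEigenspace ((N i).ρ F) β, J i x = ext0 (toK v) β • x)
    (c : ℚ) (hng : ¬Good N t a) : ∃ V : Submodule K (Module.End K (N t).V),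
      finrank K V ≤ gaps (slopes v ((N a).ρ F)) c ∧
      ∀ x y, br (J t) (oo o.B (-1) x y) = (c : K) • oo o.B (-1) x y → oo o.B (-1) x y ∈ V := by
  classical
  obtain ⟨κ, hκ, b, g, hb, hgs⟩ := exists_slope_basis v ((N a).ρ F) (hJ a)
  obtain ⟨P, hP, hPe⟩ := exists_proj hb (c : K)
  obtain ⟨V, hV1, hV2⟩ := good_factor (t := t) (a := a) hJG P
    (E := LinearMap.ker (adL (J a) - (c : K) • 1)) (fun D _ => by
      rw [LinearMap.mem_ker, LinearMap.sub_apply, sub_eq_zero]
      exact hPe (D a)) hng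
  refine ⟨V, hV1.trans ((finrank_gap hb (c : K)).trans (gap_count (N := N) hgs c).le), ?_⟩
  intro x y hxy
  obtain ⟨D, hD, hDt⟩ := o.full x y
  have h1 := hV2 D hD
  rw [hDt, aeval_adL_eigen hxy] at h1
  have h2 := V.smul_mem (P.eval (c : K))⁻¹ h1
  rwa [smul_smul, inv_mul_cancel₀ hP, one_smul] at h2

include o in
/-- **The largest slope.** -/
theorem SFul.good_top {a : ι} (v : Additive Kˣ →+ ℚ) (F : Γ) {a₀ a₁ : ℚ} {m : ℕ}
    (hT : TopSlope v ((N t).ρ F) a₀ a₁ m)
    (hdim : 2 * gaps (slopes v ((N a).ρ F)) (a₁ - a₀) < m * (m + 1)) : Good N t a := by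
  classical
  by_contra hng
  obtain ⟨J, hJG, hJ⟩ := exists_GG N (toK v) F
  obtain ⟨V, hV1, hV2⟩ := o.slope_part v F hJG hJ (a₁ - a₀) hng
  obtain ⟨κ, hκ, b, g, hb, hg⟩ := exists_slope_basis v ((N t).ρ F) (hJ t)
  obtain ⟨lam, hlam⟩ := o.toFrm.der hJG
  obtain ⟨hT1, hT2, hT3⟩ := hT
  rw [← hg] at hT1 hT2 hT3
  have hT1' : ∀ k, a₀ ≤ g k ∧ g k ≤ a₁ := fun k => hT1 _ (Multiset.mem_map_of_mem g
    (Finset.mem_univ k))
  have horth : ∀ k l, o.B (b k) (b l) ≠ 0 → ((g k : ℚ) : K) + g l = lam := by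
    intro k l hkl
    have k1 := hlam (b k) (b l)
    rw [hb, hb, map_smul, map_smul, LinearMap.smul_apply, smul_eq_mul, smul_eq_mul] at k1
    have k2 : (((g k : ℚ) : K) + g l - lam) * o.B (b k) (b l) = 0 := by linear_combination k1
    exact sub_eq_zero.1 ((mul_eq_zero.1 k2).resolve_right hkl)
  have hpart : ∀ k, ∃ l, o.B (b k) (b l) ≠ 0 := by
    intro k
    by_contra hcon
    push Not at hcon
    refine b.ne_zero k (o.nd _ fun y => ?_)
    have k1 : o.B (b k) = 0 := b.ext fun l => by rw [hcon, LinearMap.zero_apply]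
    rw [k1, LinearMap.zero_apply]
  -- the eigenvectors with the largest slope
  have hcard : Fintype.card {k // g k = a₁} = m := by
    rw [← hT3, Fintype.card_subtype, Finset.card_def, Finset.filter_val, Multiset.count_map]
    congr 1
    refine Multiset.filter_congr fun x _ => ?_
    exact eq_comm
  have hm : 0 < m := by
    rcases Nat.eq_zero_or_pos m with h | h
    · rw [h] at hdim
      omega
    · exact h
  obtain ⟨⟨k1, hk1⟩⟩ : Nonempty {k // g k = a₁} := by
    rw [← Fintype.card_pos_iff, hcard]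
    exact hm
  obtain ⟨k0, -, hk0⟩ := Multiset.mem_map.1 hT2
  have hl : lam = ((a₁ : ℚ) : K) + (a₀ : ℚ) := by
    obtain ⟨l1, hl1⟩ := hpart k1
    obtain ⟨l0, hl0⟩ := hpart k0
    have e1 := horth _ _ hl1
    have e0 := horth _ _ hl0
    have e3 : g k1 + g l1 = g k0 + g l0 := by
      have e4 : (((g k1 + g l1 : ℚ)) : K) = ((g k0 + g l0 : ℚ) : K) := by
        push_cast
        rw [e1, e0]
      exact_mod_cast e4
    have h1 := (hT1' l1).1
    have h2 := (hT1' l0).2
    have h3 : g l1 = a₀ := by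
      rw [hk1, hk0] at e3
      linarith
    rw [← e1, hk1, h3]
  -- the multiplier removed
  have hJ0 : Skew o.B (J t - (lam / 2) • (1 : Module.End K (N t).V)) := by
    intro x y
    have h1 := hlam x y
    rw [LinearMap.sub_apply, LinearMap.sub_apply, LinearMap.smul_apply, LinearMap.smul_apply,
      Module.End.one_apply, Module.End.one_apply, map_sub, map_sub, map_smul, map_smul,
      LinearMap.sub_apply, LinearMap.smul_apply, smul_eq_mul]
    linear_combination h1
  obtain ⟨ε⟩ : Nonempty (Fin m ≃ {k // g k = a₁}) :=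
    ⟨(Fintype.equivFinOfCardEq hcard).symm⟩
  have he : LinearIndependent K (fun i => b (ε i).1) :=
    b.linearIndependent.comp (fun i => (ε i).1)
      (Subtype.val_injective.comp ε.injective)
  have h1 := le_finrank_sp o.sy o.nd he (W := V) (by
    intro i j
    apply hV2
    have e1 : br (J t) (oo o.B (-1) (b (ε i).1) (b (ε j).1)) =
        br (J t - (lam / 2) • (1 : Module.End K (N t).V))
          (oo o.B (-1) (b (ε i).1) (b (ε j).1)) := by
      conv_lhs => rw [← sub_add_cancel (J t) ((lam / 2) • (1 : Module.End K (N t).V)),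
        br_scalar_left]
    rw [e1, br_oo hJ0]
    have e2 : ∀ k, g k = a₁ → (J t - (lam / 2) • (1 : Module.End K (N t).V)) (b k) =
        (((a₁ : ℚ) : K) - lam / 2) • b k := by
      intro k hk
      rw [LinearMap.sub_apply, LinearMap.smul_apply, Module.End.one_apply, hb, hk, sub_smul]
    rw [e2 _ (ε i).2, e2 _ (ε j).2, oo_smul_left, oo_smul_right, ← add_smul]
    congr 1
    rw [hl]
    push_cast
    ring)
  have h4 := Finset.sum_range_id_mul_two (m + 1)
  rw [Nat.add_sub_cancel] at h4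
  have h5 : (m + 1) * m = m * (m + 1) := mul_comm _ _
  omega

include o in
/-- **The middle slopes.** -/
theorem SFul.good_gap {a : ι} (v : Additive Kˣ →+ ℚ) (F : Γ) {h c : ℚ} (hc : c ≠ 0)
    (hK : K3Slopes v ((N t).ρ F) h c)
    (hdim : gaps (slopes v ((N a).ρ F)) c + 2 < finrank K (N t).V) : Good N t a := by
  classical
  by_contra hng
  obtain ⟨J, hJG, hJ⟩ := exists_GG N (toK v) F
  obtain ⟨V, hV1, hV2⟩ := o.slope_part v F hJG hJ c hng
  obtain ⟨p, q, hqp, hJt⟩ := exists_slope_pair o.sy o.nd v F hJG hJ hc hK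
  have hpq : o.B p q = -1 := by rw [o.sy, hqp]
  let f : (N t).V →ₗ[K] K × K := (o.B p).prod (o.B q)
  have hker : finrank K (LinearMap.ker f) + 2 ≥ finrank K (N t).V := by
    have h1 := LinearMap.finrank_range_add_finrank_ker f
    have h2 : finrank K (LinearMap.range f) ≤ 2 := by
      refine (Submodule.finrank_le _).trans ?_
      rw [Module.finrank_prod, finrank_self]
    omega
  have hmem : ∀ x, x ∈ LinearMap.ker f → o.B p x = 0 ∧ o.B q x = 0 := by
    intro x hx
    have h1 : (o.B p x, o.B q x) = (0 : K × K) := hx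
    exact ⟨congrArg Prod.fst h1, congrArg Prod.snd h1⟩
  let ψ : LinearMap.ker f →ₗ[K] Module.End K (N t).V :=
    { toFun := fun u => oo o.B (-1) p (u : (N t).V)
      map_add' := fun u v => oo_add_right _ _ _
      map_smul' := fun c u => oo_smul_right _ _ _ }
  have hψ : Function.Injective ψ := by
    rw [← LinearMap.ker_eq_bot, LinearMap.ker_eq_bot']
    intro u hu
    have h1 := LinearMap.congr_fun hu q
    change oo o.B (-1) p (u : (N t).V) q = 0 at h1
    have h2 : o.B (u : (N t).V) q = 0 := by rw [o.sy, (hmem _ u.2).2, neg_zero]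
    rw [sp_apply, h2, hpq, zero_smul, zero_add] at h1
    have h3 : (u : (N t).V) = 0 := by
      have h4 : (-1 : K) • (u : (N t).V) = 0 := h1
      exact (smul_eq_zero.1 h4).resolve_left (by norm_num)
    exact Subtype.ext h3
  have hle : LinearMap.range ψ ≤ V := by
    rintro _ ⟨u, rfl⟩
    apply hV2
    obtain ⟨e1, e2⟩ := hmem _ u.2
    rw [hJt, br_scalar_left, br_smul_left, br_oo (sp_skew o.sy p q)]
    have e3 : oo o.B (-1) p q p = p := by
      rw [sp_apply, hqp, alt_self o.sy, one_smul, zero_smul, add_zero]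
    have e4 : oo o.B (-1) p q (u : (N t).V) = 0 := by
      rw [sp_apply, e1, e2, zero_smul, zero_smul, add_zero]
    rw [e3, e4, oo_zero_right, add_zero]
  have h1 : finrank K (LinearMap.range ψ) = finrank K (LinearMap.ker f) :=
    LinearMap.finrank_range_of_inj hψ
  have h2 := Submodule.finrank_mono hle
  omega

end

end Pool.Agent.Q71.SP
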