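import Pool.Agent.Q71.TM.Pub

/-!
# Families of varieties of symplectic and orthogonal type: definitions
-/

set_option autoImplicit false

open CategoryTheory AlgebraicGeometry

universe u

namespace Pool.Agent.Q71.SP.P

open Pool.Agent.TH125.Gal Pool.Agent.Y127.G Pool.Agent.Q71.TM.P

section Alg

variable {K : Type} [Field K] {A : Type} [Ring A] [Algebra K A] [FiniteDimensional K A]
  {A' : Type} [Ring A'] [Algebra K A'] [FiniteDimensional K A'] {Γ : Type} [Group Γ]

/-- `g` acts on `T` by a transvection: `(g - 1) ^ 2 = 0` and the image of `g - 1` has dimension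
`1`. -/
def Transvection (ρ : Γ →* (A ≃ₐ[K] A)) (T : Submodule K A) (g : Γ) : Prop :=
  (∀ x ∈ T, nil ρ g (nil ρ g x) = 0) ∧ Module.finrank K (T.map (nil ρ g)) = 1

/-- `F` acts on `T` with the slopes `h + c` and `h - c`, once each, and `h`, for some `h`. -/
def ThreeSlopes (ρ : Γ →* (A ≃ₐ[K] A)) (T : Submodule K A) (v : Additive Kˣ →+ ℚ) (F : Γ)
    (c : ℚ) : Prop :=
  ∃ h : ℚ, SlopesOn ρ T v F
    ((h + c) ::ₘ (h - c) ::ₘ Multiset.replicate (Module.finrank K T - 2) h)

/-- The number of pairs of slopes of `F` on `U` with difference `c` is smaller than `r - 2`. -/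
def FewPairs (ρ : Γ →* (A ≃ₐ[K] A)) (U : Submodule K A) (v : Additive Kˣ →+ ℚ) (F : Γ) (c : ℚ)
    (r : ℕ) : Prop :=
  ∃ s, SlopesOn ρ U v F s ∧ gaps s c + 2 < r

/-- There is an element `g` with `(g - 1) ^ 2 = 0` on `T`, unipotent on `U`, such that
`2 (d₁ ^ 2 + 2 d₂ dim U) < d (d + 1)`, where `d` is the rank of `g - 1` on `T` and `d₁`, `d₂` are the
ranks of `g - 1` and `(g - 1) ^ 2` on `U`. -/
def SmallUnip (ρ : Γ →* (A ≃ₐ[K] A)) (T : Submodule K A) (ρ' : Γ →* (A' ≃ₐ[K] A'))
    (U : Submodule K A') : Prop :=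
  ∃ (g : Γ) (n : ℕ), (∀ x ∈ T, nil ρ g (nil ρ g x) = 0) ∧ (∀ x ∈ U, (nil ρ' g ^ n) x = 0) ∧
    2 * (Module.finrank K (U.map (nil ρ' g)) ^ 2 +
      2 * Module.finrank K (U.map (nil ρ' g ^ 2)) * Module.finrank K U) <
    Module.finrank K (T.map (nil ρ g)) * (Module.finrank K (T.map (nil ρ g)) + 1)

/-- There are an element `F` and a valuation such that `F` has the slopes `h + c`, `h - c` once each,
and `h`, on `T`, and less than `dim T - 2` pairs of slopes with difference `c` on `U`; or the slopes
of `F` on `T` are between the slopes `a` and `b`, the slope `b` occurs `m` times, and there are less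
than `m (m + 1) / 2` pairs of slopes with difference `b - a` on `U`. -/
def SmallSlopes (ρ : Γ →* (A ≃ₐ[K] A)) (T : Submodule K A) (ρ' : Γ →* (A' ≃ₐ[K] A'))
    (U : Submodule K A') : Prop :=
  ∃ (v : Additive Kˣ →+ ℚ) (F : Γ),
    (∃ c : ℚ, c ≠ 0 ∧ ThreeSlopes ρ T v F c ∧ FewPairs ρ' U v F c (Module.finrank K T)) ∨
    ∃ (t s : Multiset ℚ) (a b : ℚ), SlopesOn ρ T v F t ∧ SlopesOn ρ' U v F s ∧
      (∀ x ∈ t, a ≤ x ∧ x ≤ b) ∧ a ∈ t ∧ 2 * gaps s (b - a) < t.count b * (t.count b + 1)

/-- The space `U` is small with respect to the symplectic space `T`, of dimension `r`: `SmallUnip` or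
`SmallSlopes` or `2 (dim U) ^ 2 < r (r + 1)`, or `U` carries a symmetric form and `dim U ≤ r`, or `U`
carries an alternating form and `dim U < r`. -/
def SmallSp (ρ : Γ →* (A ≃ₐ[K] A)) (T : Submodule K A) (ρ' : Γ →* (A' ≃ₐ[K] A'))
    (U : Submodule K A') : Prop :=
  SmallUnip ρ T ρ' U ∨ SmallSlopes ρ T ρ' U ∨
  2 * Module.finrank K U ^ 2 < Module.finrank K T * (Module.finrank K T + 1) ∨
  (FormOn ρ' U 1 ∧ Module.finrank K U ≤ Module.finrank K T) ∨
  (FormOn ρ' U (-1) ∧ Module.finrank K U < Module.finrank K T)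

/-- The algebra is generated by finitely many stable subspaces which satisfy `P`. -/
def GenBySmall (ρ : Γ →* (A ≃ₐ[K] A)) (P : Submodule K A → Prop) : Prop :=
  ∃ (m : ℕ) (U : Fin m → Submodule K A), (∀ a, P (U a)) ∧
    (∀ a g, ∀ x ∈ U a, ρ g x ∈ U a) ∧ Algebra.adjoin K (⋃ a, (U a : Set A)) = ⊤

end Alg

open Pool.Agent.H914 Pool.Agent.H914.VarClass Pool.Agent.H914.VarClass.Obj
  Pool.Agent.H914.WeilCohomology

variable {k : Type u} [Field k] {𝒱 : VarClass k} {ops : CycleOps 𝒱}
  {W : WeilCohomology.{u, 0} ops} {Γ : Type} [Group Γ]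

/-- `Γ` acts on the cohomology of `X` like a Galois group; numerical and homological equivalence
coincide for `X`; the transcendental cohomology is in the middle degree and is irreducible under all
subgroups of finite index. -/
structure MidType (D : Tw W.K Γ) (X : GVar W Γ) : Prop where
  galois : GaloisType D X
  homEqNum : HomEqNum W X.X
  middle : transcendental W X.X ≤ W.gr X.X X.X.dim
  irreducible : IrredAct X.act (transcendental W X.X)

/-- The `X i` have odd dimension and satisfy `MidType`; some element acts on the transcendental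
cohomology `T i` by a transvection, or with the slopes `h + c`, `h - c` once each, and `h`; the `T i`
are not isomorphic to each other up to a function on `Γ`; the cohomology algebra of `Z` is generated
by subspaces which are small with respect to all `T i`. -/
structure SympFamily (D : Tw W.K Γ) {ι : Type} (X : ι → GVar W Γ) (Z : GVar W Γ) : Prop where
  mid : ∀ i, MidType D (X i)
  odd : ∀ i, Odd (X i).X.dim
  full : ∀ i, (∃ g, Transvection (X i).act (transcendental W (X i).X) g) ∨
    ∃ v F c, c ≠ 0 ∧ ThreeSlopes (X i).act (transcendental W (X i).X) v F c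
  notIso : ∀ i j, i ≠ j → ¬TwistIso (X i).act (transcendental W (X i).X) (X j).act
    (transcendental W (X j).X)
  base : GenBySmall Z.act fun U => ∀ i, SmallSp (X i).act (transcendental W (X i).X) Z.act U

/-- The varieties `Y = X_1^(n_1) × (X_2^(n_2) × ( ⋯ × Z))`, where the `X_i` are pairwise different
members of the family `X` and `n_i ≥ 1`; `S` is the set of the indices which are used. -/
inductive Towers {ι : Type} (X : ι → GVar W Γ) (Z : GVar W Γ) : Set ι → GVar W Γ → Prop
  | base : Towers X Z ∅ Z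
  | step {S Y Y'} (i : ι) (n : ℕ) : Towers X Z S Y → i ∉ S → TM.P.IsPowProd (X i) n Y Y' →
      Towers X Z (insert i S) Y'

end Pool.Agent.Q71.SP.P
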