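import Pool.Agent.Q71.SP.Pub

/-!
# Families of varieties of even and odd dimension: definitions
-/

set_option autoImplicit false

open CategoryTheory AlgebraicGeometry

universe u

namespace Pool.Agent.Q71.SP.P

open Pool.Agent.TH125.Gal Pool.Agent.Y127.G Pool.Agent.Q71.TM.P

section Alg

variable {K : Type} [Field K] {A : Type} [Ring A] [Algebra K A] {Γ : Type} [Group Γ]

/-- The dimension of the space `U` is small. If `e` holds: `U` has an invariant form (up to a
character), and `dim U < r` for a symmetric form, `dim U + 1 < r` for an alternating form. If `e` does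
not hold: `dim U ≤ r` for a symmetric form, `dim U < r` for an alternating form, or
`2 (dim U) ^ 2 < r (r + 1)` without a form. -/
def SmallForm (e : Prop) (ρ : Γ →* (A ≃ₐ[K] A)) (U : Submodule K A) (r : ℕ) : Prop :=
  (FormOn ρ U 1 ∧ (e → Module.finrank K U < r) ∧ (¬e → Module.finrank K U ≤ r)) ∨
  (FormOn ρ U (-1) ∧ (e → Module.finrank K U + 1 < r) ∧ (¬e → Module.finrank K U < r)) ∨
  (¬e ∧ 2 * Module.finrank K U ^ 2 < r * (r + 1))

/-- `T` is contained in `G` and irreducible under all subgroups of finite index. -/
def IrredIn (ρ : Γ →* (A ≃ₐ[K] A)) (T G : Submodule K A) : Prop := T ≤ G ∧ IrredAct ρ T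

end Alg

open Pool.Agent.H914 Pool.Agent.H914.VarClass Pool.Agent.H914.VarClass.Obj
  Pool.Agent.H914.WeilCohomology

variable {k : Type u} [Field k] {𝒱 : VarClass k} {ops : CycleOps 𝒱}
  {W : WeilCohomology.{u, 0} ops} {Γ : Type} [Group Γ]

/-- The dimension of `X` is even. -/
def Ev (X : GVar W Γ) : Prop := Even X.X.dim

/-- `Γ` acts on the cohomology of `X` like a Galois group; numerical and homological equivalence
coincide for `X`; the transcendental cohomology is in the middle degree and is irreducible under all
subgroups of finite index. -/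
def Mid (D : Tw W.K Γ) (X : GVar W Γ) : Prop :=
  GaloisType D X ∧ HomEqNum W X.X ∧ IrredIn X.act (transcendental W X.X) (W.gr X.X X.X.dim)

/-- The varieties `Y = X_1^(n_1) × (X_2^(n_2) × ( ⋯ × Z))`, where the `X_i` are pairwise different
members of the family `X` and `n_i ≥ 1`. Here `S` is the set of the indices which are used, and `L`
is a set of indices of varieties of even dimension which contains all `i` such that `X_i` has even
dimension and `n_i` is not less than the rank `r i`. -/
inductive MTower {ι : Type} (r : ι → ℕ) (X : ι → GVar W Γ) (Z : GVar W Γ) :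
    Set ι → Set ι → GVar W Γ → Prop
  | base : MTower r X Z ∅ ∅ Z
  | small {S L Y Y'} (i : ι) (n : ℕ) : MTower r X Z S L Y → i ∉ S →
      (Ev (X i) → n + 1 < r i) → TM.P.IsPowProd (X i) n Y Y' → MTower r X Z (insert i S) L Y'
  | large {S L Y Y'} (i : ι) (n : ℕ) : MTower r X Z S L Y → i ∉ S → Ev (X i) →
      TM.P.IsPowProd (X i) n Y Y' → MTower r X Z (insert i S) (insert i L) Y'

end Pool.Agent.Q71.SP.P
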