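import Pool.Agent.Q71.SP.App
import Pool.Agent.Q71.TM.Twr

/-!
# Towers over families of varieties of orthogonal and symplectic type
-/

open CategoryTheory AlgebraicGeometry Finset Function

set_option linter.unusedSectionVars false

universe u

namespace Pool.Agent.Q71.SP

open Pool.Agent.H914 Pool.Agent.H914.VarClass Pool.Agent.H914.VarClass.Obj
  Pool.Agent.H914.WeilCohomology Pool.Agent.H281R3.HT Pool.Agent.W552 Pool.Agent.TH125.Gal
  Pool.Agent.Y127 Pool.Agent.Y127.G Pool.Agent.Q71.TM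

variable {k : Type u} [Field k] {𝒱 : VarClass k} {ops : CycleOps 𝒱}
  {W : WeilCohomology.{u, 0} ops} {Γ : Type} [Group Γ] {χ : Γ →* W.Kˣ}

/-- Families of varieties of orthogonal (even dimension) and symplectic (odd dimension) type, in the
form used in the proofs. -/
structure MFam (χ : Γ →* W.Kˣ) {ι : Type} (l : ι → TM.Loc W.K Γ) (X : ι → GVar W Γ)
    (Z : GVar W Γ) : Prop where
  galois : ∀ i, Y127.GaloisType χ (X i)
  homEqNum : ∀ i, HomEqNum W (X i).X
  middle : ∀ i, transcendental W (X i).X ≤ W.gr (X i).X (X i).X.dim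
  pos : ∀ i, 0 < transRank W (X i).X
  irreducible : ∀ i, IrredAct (X i).act (transcendental W (X i).X)
  rank : ∀ i, Even (X i).X.dim → transRank W (X i).X = 3 ∨ 5 ≤ transRank W (X i).X
  loc : ∀ i, Even (X i).X.dim → LocRep (trRep (galois i)) (l i)
  full : ∀ i, ¬Even (X i).X.dim → SpFull (trRep (galois i))
  notIso : ∀ i j, i ≠ j → (Even (X i).X.dim ↔ Even (X j).X.dim) →
    ¬Y127.G.TwistIso (X i).act (transcendental W (X i).X) (X j).act (transcendental W (X j).X)
  eight : ∀ i j, i ≠ j → Even (X i).X.dim → Even (X j).X.dim → transRank W (X i).X = 8 →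
    transRank W (X j).X = 8 → (l i).Same (l j)
  pair : ∀ i j, Even (X i).X.dim → ¬Even (X j).X.dim →
    PairSmall (l i) (trRep (galois i)) (trRep (galois j))
  base : ∃ (m : ℕ) (M : Fin m → FRep W.K Γ) (f : ∀ a, (M a).V →ₗ[W.K] W.H Z.X),
    (∀ a i, MSmall (l i) (Even (X i).X.dim) (trRep (galois i)) (M a)) ∧
    (∀ a g x, f a ((M a).ρ g x) = Z.act g (f a x)) ∧
    Algebra.adjoin W.K (⋃ a, Set.range (f a)) = ⊤

variable {ι : Type} {X : ι → GVar W Γ} {Z : GVar W Γ} {S L : Set ι} {Y : GVar W Γ}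
  {l : ι → TM.Loc W.K Γ}

theorem tr_alt {X : GVar W Γ} (hmid : transcendental W X.X ≤ W.gr X.X X.X.dim)
    (ho : ¬Even X.X.dim) (x y : transcendental W X.X) :
    rform W X.X (transcendental W X.X) x y = -rform W X.X (transcendental W X.X) y x := by
  rw [rform_apply, rform_apply, trans_symm hmid x.2 y.2,
    (Nat.not_even_iff_odd.1 ho).neg_one_pow, neg_one_mul]

/-- the members as representations -/
noncomputable def mRep (hX : MFam χ l X Z) (i : ι) :
    MRep (l i) (Even (X i).X.dim) (trRep (hX.galois i)) where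
  B := rform W (X i).X (transcendental W (X i).X)
  μ := χ ^ (X i).X.dim
  eqv := fun g x y => tr_eqv (hX.galois i) g x y
  nd := trans_nondeg (hX.homEqNum i)
  si := SI_rhoT (P := (⟨(X i).X, 0⟩ : Polarized 𝒱)) (isGalois (hX.galois i)) (hX.irreducible i)
  sy := fun he x y => tr_sy (hX.middle i) he x y
  orth := fun he => ⟨hX.rank i he, hX.loc i he⟩
  alt := fun ho x y => tr_alt (hX.middle i) ho x y
  symp := fun ho => hX.full i ho

section odd

variable {P : Polarized 𝒱} {n : ℕ} {Z : 𝒱.Obj} {s : SB W P.X}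
  {b : Module.Basis (Fin (n + 1) → Fin s.NC ⊕ Fin s.NT) W.K (W.H (nest ops n fun _ => P).X)}
  (hb : ∀ r, b r = mono (prj ops n fun _ => P) fun p => s.e (r p))
  {ρ : Γ →* (W.H P.X ≃ₐ[W.K] W.H P.X)} {τ : Γ →* (W.H Z ≃ₐ[W.K] W.H Z)}
  {υ : Γ →* (W.H ((nest ops n fun _ => P).X.prod Z) ≃ₐ[W.K]
    W.H ((nest ops n fun _ => P).X.prod Z))}

include hb in
/-- the structure of the classes, odd dimension -/
theorem tgt_odd (hmid : transcendental W P.X ≤ W.gr P.X P.X.dim) (hodd : ¬Even P.X.dim)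
    {R : Matrix (Fin s.NT) (Fin s.NT) W.K} (hR : Y127.gram s * R = 1)
    {c : W.H ((nest ops n fun _ => P).X.prod Z)}
    (hinv : ∀ c₀ : Fin (n + 1) → Option (Fin s.NC),
      TH125.Nod.Inv (fun _ : Fin s.NT => ()) (Y127.gram s) (fun _ => -1)
        (fun r : Free c₀ → Fin s.NT => hS s b c c₀ fun l => s.uT (r l))) :
    c ∈ Tgt s n Z := by
  refine mem_Tgt_of_gen hb hmid fun c₀ => ?_
  have hga : ∀ a b : Fin s.NT, Y127.gram s a b = -Y127.gram s b a := by
    intro a b
    rw [Y127.gram, Matrix.of_apply, Matrix.of_apply, trans_symm hmid (s.uT a).2 (s.uT b).2,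
      (Nat.not_even_iff_odd.1 hodd).neg_one_pow, neg_one_mul]
  have h1 := TH125.Nod.fft (K := W.K) (κ := fun _ : Fin s.NT => ()) (Q := Y127.gram s) (R := R)
    (s := fun _ => -1) (fun _ => Or.inr rfl) (fun a b hab => absurd rfl hab)
    (fun a b => by rw [Int.cast_neg, Int.cast_one, neg_one_mul]; exact hga a b) hR
    (Fintype.card (Free c₀)) (Free c₀) (fun _ => ()) _ rfl
    (fun r hr => absurd (fun _ => rfl) hr) (by simpa using hinv c₀)
    (fun i hi => absurd hi (by norm_num))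
  have h2 : (fun r : Free c₀ → Fin s.NT => hS s b c c₀ fun j => s.uT (r j)) =
      fun r : Free c₀ → Fin s.NT => hml s.e b c fun p => s.es (comb c₀ r p) := by
    funext r
    exact hS_comb c c₀ r
  rw [← h2]
  exact h1

/-- classes with a twist vanish, from the structure of the class -/
theorem zero_of_Tgt (hmid : transcendental W P.X ≤ W.gr P.X P.X.dim)
    (hG : IsGalois W χ P.X ρ) (hP : IsPowAct W P n Z ρ τ υ) (s : SB W P.X) {Δ : Subgroup Γ}
    (hfix : ∀ g ∈ Δ, ∀ i, ρ g (s.bC i) = (χ g : W.K) ^ s.jC i • (s.bC i : W.H P.X)) {j : ℕ}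
    {ε : Γ → W.K} {c : W.H ((nest ops n fun _ => P).X.prod Z)}
    (hcj : c ∈ W.gr _ (2 * j)) (hc : ∀ g ∈ Δ, υ g c = (ε g * (χ g : W.K) ^ j) • c)
    (h1 : c ∈ Tgt s n Z) (hT : TwV W χ Δ ε Z τ) : c = 0 := by
  obtain ⟨N, m, i, φ, hm, hφ, hexp⟩ := exists_expansion s n Z
  have h2 := hexp c h1
  have huni : ∀ (x : Fin N → W.H Z) (l : Fin N),
      ctr (φ l) (∑ l', W.map (fst _ Z) (m l') * W.map (snd _ Z) (x l')) = x l := by
    intro x l
    rw [map_sum, Finset.sum_eq_single l]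
    · rw [ctr_apply, hφ, if_pos rfl, one_smul]
    · intro l' _ hl
      rw [ctr_apply, hφ, if_neg hl, zero_smul]
    · intro h
      exact absurd (Finset.mem_univ _) h
  set x : Fin N → W.H Z := fun l => ctr (φ l) c with hx
  have hdeg : ∀ l, x l = if 2 * i l ≤ 2 * j then
      proj (W.isInternal Z) (2 * j - 2 * i l) (x l) else 0 := by
    intro l
    have h3 : c = ∑ l', W.map (fst _ Z) (m l') * W.map (snd _ Z)
        (if 2 * i l' ≤ 2 * j then proj (W.isInternal Z) (2 * j - 2 * i l') (x l') else 0) := by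
      conv_lhs => rw [← proj_same (W.isInternal _) hcj, h2]
      rw [map_sum]
      refine Finset.sum_congr rfl fun l' _ => ?_
      obtain ⟨S, hS⟩ := hm l'
      rw [proj_ext (hS.gr hmid)]
      by_cases h : 2 * i l' ≤ 2 * j
      · rw [if_pos h, if_pos h]
      · rw [if_neg h, if_neg h, map_zero, mul_zero]
    conv_lhs => rw [hx]
    beta_reduce
    rw [h3]
    exact huni _ l
  have hact : ∀ g ∈ Δ, ∀ l,
      (χ g : W.K) ^ i l • τ g (x l) = (ε g * (χ g : W.K) ^ j) • x l := by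
    intro g hg l
    have h3 : υ g c = ∑ l', W.map (fst _ Z) (m l') * W.map (snd _ Z)
        ((χ g : W.K) ^ i l' • τ g (x l')) := by
      conv_lhs => rw [h2]
      rw [map_sum]
      refine Finset.sum_congr rfl fun l' _ => ?_
      obtain ⟨S, hS⟩ := hm l'
      rw [map_mul, mq_act hmid hG hP (hfix g hg) hS, (hP g).2, map_smul, smul_mul_assoc,
        mul_smul_comm]
    have h4 := huni (fun l' => (χ g : W.K) ^ i l' • τ g (x l')) l
    rw [← h3, hc g hg, map_smul] at h4
    exact h4.symm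
  have hzero : ∀ l, x l = 0 := by
    intro l
    by_cases h : 2 * i l ≤ 2 * j
    · have h3 := hdeg l
      rw [if_pos h] at h3
      have h4 : x l ∈ W.gr Z (2 * (j - i l)) := by
        rw [h3, show 2 * (j - i l) = 2 * j - 2 * i l by omega]
        exact proj_mem _ _ _
      refine hT (j - i l) (x l) h4 fun g hg => ?_
      have h6 := hact g hg l
      have h7 : ε g * (χ g : W.K) ^ j = (χ g : W.K) ^ i l * (ε g * (χ g : W.K) ^ (j - i l)) := by
        have h8 : (χ g : W.K) ^ j = (χ g : W.K) ^ i l * (χ g : W.K) ^ (j - i l) := by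
          rw [← pow_add]
          congr 1
          omega
        rw [h8]
        ring
      rw [h7, mul_smul] at h6
      exact smul_right_injective _ (pow_ne_zero _ (Units.ne_zero (χ g))) h6
    · have h3 := hdeg l
      rw [if_neg h] at h3
      exact h3
  rw [h2]
  refine Finset.sum_eq_zero fun l _ => ?_
  have h3 : ctr (φ l) c = 0 := hzero l
  rw [h3, map_zero, mul_zero]

end odd

theorem MFam.sb (hX : MFam χ l X Z) (i : ι) (he : Even (X i).X.dim) :
    ∃ (s : SB W (X i).X) (o : Fin s.NT) (R : Matrix (Fin s.NT) (Fin s.NT) W.K),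
      (∀ q, q ≠ o → Y127.gram (P := (⟨(X i).X, 0⟩ : Polarized 𝒱)) s o q = 0) ∧
        Y127.gram (P := (⟨(X i).X, 0⟩ : Polarized 𝒱)) s * R = 1 :=
  exists_adapted_SB (P := (⟨(X i).X, 0⟩ : Polarized 𝒱)) (hX.homEqNum i) (hX.middle i) he (hX.pos i)

theorem MFam.sb_odd (hX : MFam χ l X Z) (i : ι) (ho : ¬Even (X i).X.dim) :
    ∃ (s : SB W (X i).X) (R : Matrix (Fin s.NT) (Fin s.NT) W.K),
        Y127.gram (P := (⟨(X i).X, 0⟩ : Polarized 𝒱)) s * R = 1 := by
  obtain ⟨s⟩ := exists_SB (hX.homEqNum i)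
  obtain ⟨R, hR⟩ := exists_inv_gram (s := (-1 : W.K))
    (B := rform W (X i).X (transcendental W (X i).X))
    (fun x y => by rw [neg_one_mul]; exact (mRep hX i).alt ho x y) (trans_nondeg (hX.homEqNum i))
    s.uT
  exact ⟨s, R, hR⟩

/-- the discriminant character of a member of the family -/
noncomputable def MFam.ds (hX : MFam χ l X Z) (i : ι) (g : Γ) : W.K :=
  dsc (P := (⟨(X i).X, 0⟩ : Polarized 𝒱)) χ (isGalois (hX.galois i)) g

theorem MFam.pot (hX : MFam χ l X Z) (i : ι) (he : Even (X i).X.dim) : Pot (hX.ds i) := by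
  obtain ⟨s, o, R, -, hR⟩ := hX.sb i he
  exact dsc_pot (P := (⟨(X i).X, 0⟩ : Polarized 𝒱)) (isGalois (hX.galois i)) he hR

/-- from the product to the base -/
theorem MFam.conv (hX : MFam χ l X Z) (hY : LTower X Z S L Y) {Δ : Subgroup Γ}
    (hT : TC W χ Δ Y.X Y.act) : TC W χ Δ Z.X Z.act := by
  have hne : ∀ i, (1 : W.H (X i).X) ≠ 0 := by
    intro i h3
    have h1 := hX.pos i
    have h4 : Subsingleton (transcendental W (X i).X) := by
      refine ⟨fun a b => Subtype.ext ?_⟩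
      rw [← one_mul (a : W.H (X i).X), ← one_mul (b : W.H (X i).X), h3, zero_mul, zero_mul]
    have h5 : transRank W (X i).X = 0 := Module.finrank_zero_of_subsingleton
    omega
  induction hY with
  | base => exact hT
  | @small S L Y Y' i n _ hi hn hP ih =>
    obtain ⟨υ, h1, h2⟩ := hP
    exact ih (conv_exact (P := ⟨(X i).X, 0⟩) (hX.homEqNum i) (hne i) (isPowAct h1 h2) hT)
  | @large S L Y Y' i n _ hi hP ih =>
    obtain ⟨υ, h1, h2⟩ := hP
    exact ih (conv_exact (P := ⟨(X i).X, 0⟩) (hX.homEqNum i) (hne i) (isPowAct h1 h2) hT)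

variable [IsAlgClosed W.K]

/-- **The Lie algebra kills the coordinates.** -/
theorem MFam.inv_step (hX : MFam χ l X Z) (hY : LTower X Z S L Y) {i : ι}
    (hi : i ∉ S) {n : ℕ}
    {υ : Γ →* (W.H ((power ops (X i).X n).prod Y.X) ≃ₐ[W.K] W.H ((power ops (X i).X n).prod Y.X))}
    (hP : IsPowAct W (⟨(X i).X, 0⟩ : Polarized 𝒱) n Y.X (X i).act Y.act υ)
    {s : SB W (X i).X}
    {b : Module.Basis (Fin (n + 1) → Fin s.NC ⊕ Fin s.NT) W.K
      (W.H (nest ops n fun _ => (⟨(X i).X, 0⟩ : Polarized 𝒱)).X)}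
    (hb : ∀ r, b r = mono (prj ops n fun _ => (⟨(X i).X, 0⟩ : Polarized 𝒱)) fun p => s.e (r p))
    {z : W.H ((power ops (X i).X n).prod Y.X)} {j : ℕ} {Δ : Subgroup Γ} (hΔ : Δ.FiniteIndex)
    (hz : ∀ g ∈ Δ, υ g z = (χ g : W.K) ^ j • z) {sg : W.K} (hs : sg * sg = 1)
    (hsy : ∀ x y : transcendental W (X i).X, rform W (X i).X (transcendental W (X i).X) x y =
      sg * rform W (X i).X (transcendental W (X i).X) y x)
    (c₀ : Fin (n + 1) → Option (Fin s.NC)) :
    TH125.Nod.Inv (fun _ : Fin s.NT => ()) (Y127.gram (P := (⟨(X i).X, 0⟩ : Polarized 𝒱)) s)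
      (fun _ => sg) (fun r : Free c₀ → Fin s.NT =>
        hS (P := (⟨(X i).X, 0⟩ : Polarized 𝒱)) s b z c₀ fun l => s.uT (r l)) := by
  obtain ⟨m, M, f, hM, hf, hgen⟩ := hX.base
  have hgal := hX.galois
  have hgb := genBy_tower hgal hX.homEqNum hf hgen hY
  have hG : IsGalois W χ (X i).X (X i).act := isGalois (hgal i)
  have h1 := hS_eqv (P := (⟨(X i).X, 0⟩ : Polarized 𝒱)) hb hG hP hΔ hz c₀
  have h2 : ∀ x y : transcendental W (X i).X,
      Kill (rk (rform W (X i).X (transcendental W (X i).X)) y x -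
        sg • rk (rform W (X i).X (transcendental W (X i).X)) x y)
        (hS (P := (⟨(X i).X, 0⟩ : Polarized 𝒱)) s b z c₀) := fun x y =>
    kill_of_mdata (A := W.H Y.X) (T := fun j => trRep (hgal j)) (M := M)
      (χ := χ) (τ := Y.act) (LTower.finite hY) hgb (l := l) (e := fun j => Even (X j).X.dim)
      (fun j => mRep hX j) (fun i j hij hee => not_isoUpTo (hX.notIso i j hij hee)) hi
      (fun j hj hei hej h8 h8' => hX.eight i j hj.symm hei hej h8 h8')
      (fun i j hei hej => hX.pair i j hei hej)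
      (fun a => hM a i) (lamb (P := (⟨(X i).X, 0⟩ : Polarized 𝒱)) χ s c₀ j)
      (h := hS (P := (⟨(X i).X, 0⟩ : Polarized 𝒱)) s b z c₀) h1 (oo_skew hs hsy x y)
  exact inv_of_kill (s := sg) (B := rform W (X i).X (transcendental W (X i).X))
    (fun u w => h2 u w) s.uT

/-- **Twisted classes on towers.** -/
theorem MFam.tw_tower (hX : MFam χ l X Z) {Δ : Subgroup Γ} (hΔ : Δ.FiniteIndex)
    (hY : LTower X Z S L Y) : (∀ i ∈ L, Even (X i).X.dim) →
      (∀ i ∈ S, AlgDefinedOver χ Δ (X i)) → ∀ ε : Γ → W.K, Pot ε →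
      (∀ I : Finset ι, (I : Set ι) ⊆ L →
        TwV W χ Δ (fun g => ε g * ∏ i ∈ I, hX.ds i g) Z.X Z.act) → TwV W χ Δ ε Y.X Y.act := by
  classical
  induction hY with
  | base =>
    intro _ _ ε _ hI
    have h1 := hI ∅ (by simp)
    simpa using h1
  | @small S L Y Y' i n hT hi hn hP ih =>
    obtain ⟨υ, h1, h2⟩ := hP
    intro hL hfix ε hε hI j z hzj hz
    obtain ⟨b, hb⟩ : ∃ b : Unit, b = b := ⟨(), rfl⟩
    obtain ⟨hε0, Δ', hΔ', hε1⟩ := hε
    have hbase := ih hL (fun a ha => hfix a (Set.mem_insert_of_mem _ ha)) ε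
      ⟨hε0, Δ', hΔ', hε1⟩ hI
    by_cases he : Even (X i).X.dim
    · obtain ⟨s, o, R, ho, hR⟩ := hX.sb i he
      obtain ⟨b, hb⟩ := exists_monoBasis (ops := ops) (⟨(X i).X, 0⟩ : Polarized 𝒱) s.e n
      have hinv := hX.inv_step hT hi (isPowAct h1 h2) hb (z := z) (j := j) (Δ := Δ ⊓ Δ')
        inferInstance (fun g hg => by rw [hz g hg.1, hε1 g hg.2, one_mul]) (one_mul (1 : W.K))
        (fun x y => by rw [one_mul]; exact (mRep hX i).sy he x y)
      refine tw_step (P := (⟨(X i).X, 0⟩ : Polarized 𝒱)) hb (hX.middle i)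
        (isGalois (hX.galois i)) (isPowAct h1 h2) he hR ho
        (fun g hg a => hfix i (Set.mem_insert _ _) _ _ (s.alg a) g hg) hzj hε0 hz hinv
        (Or.inl ?_) hbase
      have h3 := hn he
      unfold transRank at h3
      rwa [Module.finrank_eq_card_basis s.uT, Fintype.card_fin] at h3
    · obtain ⟨s, R, hR⟩ := hX.sb_odd i he
      obtain ⟨b, hb⟩ := exists_monoBasis (ops := ops) (⟨(X i).X, 0⟩ : Polarized 𝒱) s.e n
      have hinv := hX.inv_step hT hi (isPowAct h1 h2) hb (z := z) (j := j) (Δ := Δ ⊓ Δ')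
        inferInstance (fun g hg => by rw [hz g hg.1, hε1 g hg.2, one_mul]) (sg := (-1 : W.K))
        (by norm_num) (fun x y => by rw [neg_one_mul]; exact (mRep hX i).alt he x y)
      exact zero_of_Tgt (P := (⟨(X i).X, 0⟩ : Polarized 𝒱)) (hX.middle i)
        (isGalois (hX.galois i)) (isPowAct h1 h2) s
        (fun g hg a => hfix i (Set.mem_insert _ _) _ _ (s.alg a) g hg) hzj hz
        (tgt_odd (P := (⟨(X i).X, 0⟩ : Polarized 𝒱)) hb (hX.middle i) he hR hinv) hbase
  | @large S L Y Y' i n hT hi hP ih =>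
    obtain ⟨υ, h1, h2⟩ := hP
    intro hL hfix ε hε hI j z hzj hz
    have he : Even (X i).X.dim := hL i (Set.mem_insert _ _)
    have hL' : ∀ i ∈ L, Even (X i).X.dim := fun a ha => hL a (Set.mem_insert_of_mem _ ha)
    obtain ⟨s, o, R, ho, hR⟩ := hX.sb i he
    obtain ⟨b, hb⟩ := exists_monoBasis (ops := ops) (⟨(X i).X, 0⟩ : Polarized 𝒱) s.e n
    obtain ⟨hε0, Δ', hΔ', hε1⟩ := id hε
    have hinv := hX.inv_step hT hi (isPowAct h1 h2) hb (z := z) (j := j) (Δ := Δ ⊓ Δ')
      inferInstance (fun g hg => by rw [hz g hg.1, hε1 g hg.2, one_mul]) (one_mul (1 : W.K))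
      (fun x y => by rw [one_mul]; exact (mRep hX i).sy he x y)
    refine tw_step (P := (⟨(X i).X, 0⟩ : Polarized 𝒱)) hb (hX.middle i)
      (isGalois (hX.galois i)) (isPowAct h1 h2) he hR ho
      (fun g hg a => hfix i (Set.mem_insert _ _) _ _ (s.alg a) g hg) hzj hε0 hz hinv
      (Or.inr ?_) ?_
    · refine ih hL' (fun a ha => hfix a (Set.mem_insert_of_mem _ ha)) (fun g => ε g * hX.ds i g)
        (hε.mul (hX.pot i he)) fun I hIL => ?_
      have hiI : i ∉ I := fun h => hi (hT.sub (hIL h))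
      have h3 := hI (insert i I) (by
        rw [Finset.coe_insert]
        exact Set.insert_subset_insert hIL)
      simp only [Finset.prod_insert hiI, ← mul_assoc] at h3
      exact h3
    · exact ih hL' (fun a ha => hfix a (Set.mem_insert_of_mem _ ha)) ε hε fun I hIL =>
        hI I (hIL.trans (Set.subset_insert _ _))

/-- **The classes on towers.** -/
theorem MFam.tc_tower (hX : MFam χ l X Z) {Δ : Subgroup Γ} (hΔ : Δ.FiniteIndex)
    (hZ : TC W χ Δ Z.X Z.act) (hY : LTower X Z S L Y) : (∀ i ∈ L, Even (X i).X.dim) →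
      (∀ i ∈ S, AlgDefinedOver χ Δ (X i)) →
      (∀ I : Finset ι, I.Nonempty → (I : Set ι) ⊆ L →
        TwV W χ Δ (fun g => ∏ i ∈ I, hX.ds i g) Z.X Z.act) → TC W χ Δ Y.X Y.act := by
  classical
  induction hY with
  | base => intro _ _ _; exact hZ
  | @small S L Y Y' i n hT hi hn hP ih =>
    obtain ⟨υ, h1, h2⟩ := hP
    intro hL hfix hI j z hzj hz
    have hbase := ih hL (fun a ha => hfix a (Set.mem_insert_of_mem _ ha)) hI
    by_cases he : Even (X i).X.dim
    · obtain ⟨s, o, R, ho, hR⟩ := hX.sb i he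
      obtain ⟨b, hb⟩ := exists_monoBasis (ops := ops) (⟨(X i).X, 0⟩ : Polarized 𝒱) s.e n
      have hinv := hX.inv_step hT hi (isPowAct h1 h2) hb (z := z) (j := j) hΔ hz
        (one_mul (1 : W.K)) (fun x y => by rw [one_mul]; exact (mRep hX i).sy he x y)
      refine step_of_Tgt' (P := (⟨(X i).X, 0⟩ : Polarized 𝒱)) (hX.homEqNum i) (hX.middle i)
        (isGalois (hX.galois i)) (isPowAct h1 h2) s
        (fun g hg a => hfix i (Set.mem_insert _ _) _ _ (s.alg a) g hg) hzj hz ?_ hbase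
      refine tgt_step (P := (⟨(X i).X, 0⟩ : Polarized 𝒱)) (ε := fun _ => 1) (Δ := Δ) (j := j) hb
        (hX.middle i)
        (isGalois (hX.galois i)) (isPowAct h1 h2) he hR ho
        (fun g hg a => hfix i (Set.mem_insert _ _) _ _ (s.alg a) g hg) hzj
        (fun g hg => by rw [one_mul]; exact hz g hg) hinv rfl (Or.inl ?_)
      have h3 := hn he
      unfold transRank at h3
      rwa [Module.finrank_eq_card_basis s.uT, Fintype.card_fin] at h3
    · obtain ⟨s, R, hR⟩ := hX.sb_odd i he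
      obtain ⟨b, hb⟩ := exists_monoBasis (ops := ops) (⟨(X i).X, 0⟩ : Polarized 𝒱) s.e n
      have hinv := hX.inv_step hT hi (isPowAct h1 h2) hb (z := z) (j := j) hΔ hz
        (sg := (-1 : W.K)) (by norm_num)
        (fun x y => by rw [neg_one_mul]; exact (mRep hX i).alt he x y)
      exact step_of_Tgt' (P := (⟨(X i).X, 0⟩ : Polarized 𝒱)) (hX.homEqNum i) (hX.middle i)
        (isGalois (hX.galois i)) (isPowAct h1 h2) s
        (fun g hg a => hfix i (Set.mem_insert _ _) _ _ (s.alg a) g hg) hzj hz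
        (tgt_odd (P := (⟨(X i).X, 0⟩ : Polarized 𝒱)) hb (hX.middle i) he hR hinv) hbase
  | @large S L Y Y' i n hT hi hP ih =>
    obtain ⟨υ, h1, h2⟩ := hP
    intro hL hfix hI j z hzj hz
    have he : Even (X i).X.dim := hL i (Set.mem_insert _ _)
    have hL' : ∀ i ∈ L, Even (X i).X.dim := fun a ha => hL a (Set.mem_insert_of_mem _ ha)
    obtain ⟨s, o, R, ho, hR⟩ := hX.sb i he
    obtain ⟨b, hb⟩ := exists_monoBasis (ops := ops) (⟨(X i).X, 0⟩ : Polarized 𝒱) s.e n
    have hinv := hX.inv_step hT hi (isPowAct h1 h2) hb (z := z) (j := j) hΔ hz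
      (one_mul (1 : W.K)) (fun x y => by rw [one_mul]; exact (mRep hX i).sy he x y)
    refine step_of_Tgt' (P := (⟨(X i).X, 0⟩ : Polarized 𝒱)) (hX.homEqNum i) (hX.middle i)
      (isGalois (hX.galois i)) (isPowAct h1 h2) s
      (fun g hg a => hfix i (Set.mem_insert _ _) _ _ (s.alg a) g hg) hzj hz ?_
      (ih hL' (fun a ha => hfix a (Set.mem_insert_of_mem _ ha)) fun I hne hIL =>
        hI I hne (hIL.trans (Set.subset_insert _ _)))
    refine tgt_step (P := (⟨(X i).X, 0⟩ : Polarized 𝒱)) (ε := fun _ => 1) (Δ := Δ) (j := j) hb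
      (hX.middle i)
      (isGalois (hX.galois i)) (isPowAct h1 h2) he hR ho
      (fun g hg a => hfix i (Set.mem_insert _ _) _ _ (s.alg a) g hg) hzj
      (fun g hg => by rw [one_mul]; exact hz g hg) hinv rfl (Or.inr ?_)
    refine hX.tw_tower hΔ hT hL' (fun a ha => hfix a (Set.mem_insert_of_mem _ ha))
      (fun g => 1 * hX.ds i g) (Pot.one.mul (hX.pot i he)) fun I hIL => ?_
    have hiI : i ∉ I := fun h => hi (hT.sub (hIL h))
    have h3 := hI (insert i I) (Finset.insert_nonempty _ _) (by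
      rw [Finset.coe_insert]
      exact Set.insert_subset_insert hIL)
    simp only [Finset.prod_insert hiI] at h3
    simp only [one_mul]
    exact h3

/-- **Exponents smaller than the rank.** -/
theorem MFam.small (hX : MFam χ l X Z) (hY : LTower X Z S ∅ Y)
    (hZ : TateConjecture χ Z) : TateConjecture χ Y := by
  rintro j z hzj ⟨Δ, hΔ, hz⟩
  choose Δ' hΔ' hA using fun i => exists_algDefined (D := (⟨χ, 0, 1⟩ : Frob W.K Γ))
    (hX.galois i)
  have hS := LTower.finite hY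
  have := hS.to_subtype
  have h1 : (⨅ i : S, Δ' i).FiniteIndex := Subgroup.finiteIndex_iInf fun i => hΔ' i
  have h2 : (Δ ⊓ ⨅ i : S, Δ' i).FiniteIndex := inferInstance
  refine hX.tc_tower h2 (tc_of_tate (D := (⟨χ, 0, 1⟩ : Frob W.K Γ)) hZ h2) hY
    (fun i hi => absurd hi (Set.notMem_empty i))
    (fun i hi => AlgDefined.mono (D := (⟨χ, 0, 1⟩ : Frob W.K Γ)) (hA i) ?_) ?_ j z hzj
    fun g hg => hz g hg.1
  · exact inf_le_right.trans (iInf_le (fun i : S => Δ' i) ⟨i, hi⟩)
  · intro I hne hI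
    obtain ⟨i, hi⟩ := hne
    exact absurd (hI hi) (Set.notMem_empty i)

/-- **All exponents.** -/
theorem MFam.large (hX : MFam χ l X Z) (hY : LTower X Z S L Y)
    (hL : ∀ i ∈ L, Even (X i).X.dim)
    (hZ : TateConjecture χ Z) {Δ : Subgroup Γ} (hΔ : Δ.FiniteIndex)
    (hA : ∀ i ∈ S, AlgDefinedOver χ Δ (X i)) (hAZ : AlgDefinedOver χ Δ Z)
    (hd : Y127.G.IndepOn Δ (fun i => discriminant χ (X i)) L) :
    TC W χ Δ Y.X Y.act := by
  refine hX.tc_tower hΔ (tc_of_tate (D := (⟨χ, 0, 1⟩ : Frob W.K Γ)) hZ hΔ) hY hL hA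
    fun I hne hI => ?_
  have hpot : ∀ i ∈ I, Pot (hX.ds i) := fun i hi => hX.pot i (hL i (hI hi))
  have hprod : Pot fun g => ∏ i ∈ I, hX.ds i g := by
    classical
    clear hne hI
    induction I using Finset.induction_on with
    | empty => simpa using (Pot.one : Pot (fun _ : Γ => (1 : W.K)))
    | insert a I ha ih =>
      simp only [Finset.prod_insert ha]
      exact (hpot a (Finset.mem_insert_self _ _)).mul
        (ih fun i hi => hpot i (Finset.mem_insert_of_mem hi))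
  refine twV_base (D := (⟨χ, 0, 1⟩ : Frob W.K Γ)) hZ hΔ hAZ hprod ?_
  obtain ⟨g, hg, h1⟩ := hd I hne hI
  refine ⟨g, hg, fun h2 => h1 ?_⟩
  rw [← h2]
  exact Finset.prod_congr rfl fun i _ => disc_eq (hX.galois i) g

/-- the Tate conjecture over the fixed field of `Δ'` -/
theorem MFam.over (hX : MFam χ l X Z) (hY : LTower X Z S L Y)
    (hG : Y127.GaloisType χ Y) (hZ : TateConjecture χ Z) (Δ' : Subgroup Γ) (hΔ' : Δ'.FiniteIndex)
    (hL : L = ∅ ∨ (∀ i ∈ L, Even (X i).X.dim) ∧ ∃ Δ ≤ Δ', Δ.FiniteIndex ∧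
      (∀ i ∈ S, AlgDefinedOver χ Δ (X i)) ∧
      AlgDefinedOver χ Δ Z ∧ Y127.G.IndepOn Δ (fun i => discriminant χ (X i)) L) :
    Y127.TateOver χ Δ' Y := by
  rcases hL with rfl | ⟨hL, Δ, hle, hΔ, hA, hAZ, hd⟩
  · have h1 := hX.small hY hZ
    exact tateOver_of_tc hG fun j c hcj hc => h1 j c hcj ⟨Δ', hΔ', hc⟩
  · exact TateOver.mono (D := (⟨χ, 0, 1⟩ : Frob W.K Γ)) hG (hX.large hY hL hZ hΔ hA hAZ hd) hle

/-- the converse -/
theorem MFam.conv' (hX : MFam χ l X Z) (hY : LTower X Z S L Y)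
    (hT : TateConjecture χ Y) : TateConjecture χ Z := by
  rintro j c hcj ⟨Δ, hΔ, hc⟩
  exact hX.conv hY (tc_of_tate (D := (⟨χ, 0, 1⟩ : Frob W.K Γ)) hT hΔ) j c hcj hc

end Pool.Agent.Q71.SP
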